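import Mathlib
import Pool.Agent.Lib.MP_87840f_co.Spec.Basic
import Pool.Agent.Lib.MP_87840f_co.Spec.Base
import Pool.Agent.Lib.MP_87840f_co.Spec.LowFinal
import Pool.Agent.Lib.MP_87840f_co.Spec.Bounds

/-!
# MP_87840f_co, edge spectrum, GS13: no gaps on the logarithmic scale

θ* = infimum of m^(1/(k-1)) over all k ≥ 2, Att k m; θ* ≥ 2 by le_att. Take (n1, m1) with
m1^(1/(n1-1)) < θ*^(1+ε/4), C = θ*^(1+ε/4); a ≥ θ*^(n-1), so a^(1+ε) ≥ C^n for large n; b ≤ n^n, so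
b^(1-ε) ≤ n^((1-ε) n) ≤ (n/3)^n for large n.
-/

open Finset

namespace Pool.Agent.Lib.MP_87840f_co.Spec

/-- all the numbers `m^(1/(k-1))` for attained `m` -/
private def SS : Set ℝ :=
  {x : ℝ | ∃ k m : ℕ, 2 ≤ k ∧ Att k m ∧ x = (m : ℝ) ^ (1 / ((k : ℝ) - 1))}

private theorem pow_root {k m : ℕ} (hk : 2 ≤ k) :
    ((m : ℝ) ^ (1 / ((k : ℝ) - 1))) ^ (k - 1) = m := by
  have h1 : (((k - 1 : ℕ)) : ℝ) = (k : ℝ) - 1 := by
    rw [Nat.cast_sub (by omega)]
    simp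
  have h2 : ((k - 1 : ℕ) : ℝ) ≠ 0 := by
    have : 0 < k - 1 := by omega
    positivity
  rw [← h1, ← Real.rpow_natCast, ← Real.rpow_mul (by positivity), one_div,
    inv_mul_cancel₀ h2, Real.rpow_one]

private theorem two_le {x : ℝ} (hx : x ∈ SS) : 2 ≤ x := by
  obtain ⟨k, m, hk, hA, rfl⟩ := hx
  by_contra hcon
  push Not at hcon
  have h1 := le_att hA
  have h2 : ((2 : ℝ)) ^ (k - 1) ≤ m := by exact_mod_cast h1
  have h3 : ((m : ℝ) ^ (1 / ((k : ℝ) - 1))) ^ (k - 1) < 2 ^ (k - 1) :=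
    pow_lt_pow_left₀ hcon (by positivity) (by omega)
  rw [pow_root hk] at h3
  linarith

theorem no_gaps (ε : ℝ) (h0 : 0 < ε) (h1 : ε < 1) : ∃ n0 : ℕ, ∀ n ≥ n0, ∀ a b m : ℕ,
    Att n a → Att n b → (a : ℝ) ^ (1 + ε) ≤ m → (m : ℝ) ≤ (b : ℝ) ^ (1 - ε) → Att n m := by
  have hne : SS.Nonempty := ⟨_, 2, _, le_rfl, att_threshold 2 (by norm_num), rfl⟩
  have hbd : BddBelow SS := ⟨2, fun x hx => two_le hx⟩
  set θ := sInf SS with hθ
  have hθ2 : 2 ≤ θ := le_csInf hne fun x hx => two_le hx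
  have hθ1 : 1 < θ := by linarith
  have hθ0 : 0 < θ := by linarith
  set C : ℝ := θ ^ (1 + ε / 4) with hC
  have hθC : θ < C := by
    have : θ ^ (1 : ℝ) < θ ^ (1 + ε / 4) := Real.rpow_lt_rpow_of_exponent_lt hθ1 (by linarith)
    rwa [Real.rpow_one] at this
  have hC1 : 1 < C := by linarith
  obtain ⟨x, ⟨n1, m1, hn1, hA1, rfl⟩, hx⟩ := exists_lt_of_csInf_lt hne hθC
  have hlt : (m1 : ℝ) < C ^ (n1 - 1) := by
    rw [← pow_root (m := m1) hn1]
    exact pow_lt_pow_left₀ hx (by positivity) (by omega)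
  obtain ⟨na, hna⟩ := edge_spectrum_low C 3 hC1 (by linarith [Real.exp_one_lt_d9]) n1 m1 hn1 hA1 hlt
  obtain ⟨nb, hnb⟩ := exists_nat_ge (8 / ε)
  obtain ⟨nc, hnc⟩ := exists_nat_ge ((3 : ℝ) ^ (1 / ε))
  refine ⟨max (max na nb) (max nc 2), fun n hn a b m hA hB hm1 hm2 => ?_⟩
  have hna' : na ≤ n := le_trans (le_trans (le_max_left _ _) (le_max_left _ _)) hn
  have hnb' : nb ≤ n := le_trans (le_trans (le_max_right _ _) (le_max_left _ _)) hn
  have hnc' : nc ≤ n := le_trans (le_trans (le_max_left _ _) (le_max_right _ _)) hn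
  have hn2 : 2 ≤ n := le_trans (le_trans (le_max_right _ _) (le_max_right _ _)) hn
  have hn0 : (0 : ℝ) < n := by
    have : 0 < n := by omega
    exact_mod_cast this
  apply hna n hna' m
  · -- lower end
    refine le_trans ?_ hm1
    have h2 : θ ≤ (a : ℝ) ^ (1 / ((n : ℝ) - 1)) := csInf_le hbd ⟨n, a, hn2, hA, rfl⟩
    have h3 : θ ^ (n - 1) ≤ a := by
      rw [← pow_root (m := a) hn2]
      exact pow_le_pow_left₀ hθ0.le h2 _
    have h4 : (8 : ℝ) ≤ ε * n := by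
      have : 8 / ε ≤ n := le_trans hnb (by exact_mod_cast hnb')
      rw [div_le_iff₀ h0] at this
      linarith
    calc C ^ n = θ ^ ((1 + ε / 4) * n) := by
          rw [hC, ← Real.rpow_natCast, ← Real.rpow_mul hθ0.le]
      _ ≤ θ ^ (((n - 1 : ℕ) : ℝ) * (1 + ε)) := by
          apply Real.rpow_le_rpow_of_exponent_le hθ1.le
          rw [Nat.cast_sub (by omega)]
          push_cast
          nlinarith
      _ = (θ ^ (n - 1)) ^ (1 + ε) := by
          rw [Real.rpow_mul hθ0.le, Real.rpow_natCast]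
      _ ≤ (a : ℝ) ^ (1 + ε) := Real.rpow_le_rpow (by positivity) h3 (by linarith)
  · -- upper end
    refine le_trans hm2 ?_
    have h2 : (b : ℝ) ≤ (n : ℝ) ^ n := by exact_mod_cast att_le hB
    have h3 : (3 : ℝ) ≤ (n : ℝ) ^ ε := by
      have h4 : (3 : ℝ) ^ (1 / ε) ≤ n := le_trans hnc (by exact_mod_cast hnc')
      calc (3 : ℝ) = ((3 : ℝ) ^ (1 / ε)) ^ ε := by
            rw [← Real.rpow_mul (by norm_num), one_div, inv_mul_cancel₀ h0.ne', Real.rpow_one]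
        _ ≤ (n : ℝ) ^ ε := Real.rpow_le_rpow (by positivity) h4 h0.le
    calc (b : ℝ) ^ (1 - ε) ≤ ((n : ℝ) ^ n) ^ (1 - ε) :=
          Real.rpow_le_rpow (by positivity) h2 (by linarith)
      _ = ((n : ℝ) ^ (1 - ε)) ^ n := by
          rw [← Real.rpow_natCast, ← Real.rpow_natCast, ← Real.rpow_mul hn0.le,
            ← Real.rpow_mul hn0.le, mul_comm]
      _ ≤ ((n : ℝ) / 3) ^ n := by
          apply pow_le_pow_left₀ (by positivity)
          rw [Real.rpow_sub hn0, Real.rpow_one]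
          exact div_le_div_of_nonneg_left hn0.le (by norm_num) h3

end Pool.Agent.Lib.MP_87840f_co.Spec
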