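import Mathlib
import Pool.Agent.Lib.MP_87840f_co.Defs

section

/-!
# MP_87840f_co, edge spectrum: attained edge numbers, outer hypergraphs (definitions)
-/

open Finset

namespace Pool.Agent.Lib.MP_87840f_co.Spec

/-- `m` is the number of edges of an `n`-uniform clique without proper 2-colouring. -/
def Att (n m : ℕ) : Prop :=
  ∃ F : Finset (Finset ℕ), IsUniformClique n F ∧ ¬ ProperlyColourable 2 F ∧ F.card = m

/-- An intersecting hypergraph such that every 2-colouring of the vertices has a
monochromatic edge (no uniformity). -/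
def IsOuter {V : Type*} (H : Finset (Finset V)) : Prop :=
  (∀ A ∈ H, ∀ B ∈ H, ∃ x, x ∈ A ∧ x ∈ B) ∧
    ∀ c : V → Bool, ∃ A ∈ H, ∃ b : Bool, ∀ x ∈ A, c x = b

/-! ### the typed clique -/

/-- vertices of the typed clique -/
inductive TV (k b : ℕ) where
  | x : TV k b
  | s : Fin k → Bool → TV k b
  | y : Bool → TV k b
  | v : Bool → Fin 3 → Fin b → TV k b
  | z : (Fin k → Bool) → TV k b
  deriving DecidableEq, Fintype

namespace TV

variable {k b : ℕ}

/-- the weights -/
def wt : TV k b → ℕ
  | x => 3 * k + b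
  | s _ _ => 3
  | y _ => 3
  | v _ _ _ => 1
  | z _ => 3

/-- the numbers of edges of the cliques that are substituted -/
def num (M : ℕ) (m : (Fin k → Bool) → ℕ) : TV k b → ℕ
  | x => M
  | s _ _ => 10
  | y _ => 10
  | v _ _ _ => 1
  | z η => m η

/-- one side of every small component -/
def pat (θ : Fin k → Bool) : Finset (TV k b) := univ.image (fun i => s i (θ i))

/-- the light sets of side `β` of the big component -/
def Q (β : Bool) : Option (Fin 3 → Fin b) → Finset (TV k b)
  | none => {y β}
  | some t => univ.image (fun j => v β j (t j))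

/-- the heavy sets of side `β` of the big component -/
def Qd (β : Bool) (j : Fin 3) : Finset (TV k b) := insert (y β) (univ.image (fun t => v β j t))

end TV

open TV in
/-- the edges through the heavy vertex `x`, small component -/
def TH1 (k b : ℕ) : Finset (Finset (TV k b)) :=
  univ.image (fun i : Fin k => {x, s i false, s i true})

open TV in
/-- the edges through the heavy vertex `x`, big component -/
def TH2 (k b : ℕ) : Finset (Finset (TV k b)) :=
  univ.image (fun p : Option (Fin 3 → Fin b) × Option (Fin 3 → Fin b) =>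
    insert x (Q false p.1 ∪ Q true p.2))

open TV in
/-- the edges through a type vertex -/
def TH3 (k b : ℕ) : Finset (Finset (TV k b)) :=
  univ.image (fun p : (Fin k → Bool) × Bool × Fin 3 =>
    insert (z (fun i => xor (p.1 i) p.2.1)) (pat p.1 ∪ Qd p.2.1 p.2.2))

open TV in
/-- the edges with both sides of a small component -/
def TH4 (k b : ℕ) : Finset (Finset (TV k b)) :=
  (univ.filter (fun p : (Fin k × (Fin k → Bool)) × Bool × Fin 3 => p.1.2 p.1.1 = false)).image
    (fun p => insert (s p.1.1 true) (pat p.1.2 ∪ Qd p.2.1 p.2.2))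

open TV in
/-- the edges with both sides of the big component -/
def TH5 (k b : ℕ) : Finset (Finset (TV k b)) :=
  univ.image (fun p : ((Fin k → Bool) × Option (Fin 3 → Fin b)) × Bool × Fin 3 =>
    pat p.1.1 ∪ Qd p.2.1 p.2.2 ∪ Q (!p.2.1) p.1.2)

/-- the typed hypergraph -/
def TH (k b : ℕ) : Finset (Finset (TV k b)) :=
  TH1 k b ∪ TH2 k b ∪ TH3 k b ∪ TH4 k b ∪ TH5 k b

/-- the coefficient of the heavy vertex in the typed clique -/
def DD (k b : ℕ) : ℕ := 100 * k + (10 + b ^ 3) ^ 2

/-! ### the switch clique -/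

/-- the seven fixed patterns -/
def pats : Finset (Finset (Fin 4)) := {∅, {1}, {2}, {3}, {0, 2}, {0, 3}, {1, 2, 3}}

/-- sets of weight `i` -/
def wset {V : Type*} [Fintype V] [DecidableEq V] (w : V → ℕ) (i : ℕ) : Finset (Finset V) :=
  univ.filter (fun A : Finset V => ∑ x ∈ A, w x = i)

/-- the switch hypergraph on `Fin 4 ⊕ V` -/
def SH {V : Type*} [Fintype V] [DecidableEq V] (w : V → ℕ) (n : ℕ) (B : Finset (Finset V)) :
    Finset (Finset (Fin 4 ⊕ V)) :=
  pats.biUnion (fun P => (wset w (n - P.card)).image (fun A => P.disjSum A)) ∪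
    B.image (fun A => ({0, 1} : Finset (Fin 4)).disjSum A) ∪
    (wset w (n - 2) \ B).image (fun A => ({2, 3} : Finset (Fin 4)).disjSum Aᶜ)

/-- `W'` for the switch clique: `u` unit vertices and one vertex of weight 2 with 3 edges -/
def Wp (u i : ℕ) : ℕ := u.choose i + 3 * u.choose (i - 2)

/-- coefficient of the heavy vertex in the switch clique -/
def Df (n e : ℕ) : ℕ :=
  Wp (2 * n - 6 - e) (n - e) + 3 * Wp (2 * n - 6 - e) (n - 1 - e) +
    2 * Wp (2 * n - 6 - e) (n - 2 - e) + Wp (2 * n - 6 - e) (n - 3 - e)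

/-- constant term in the switch clique -/
def Rf (n e : ℕ) : ℕ :=
  Wp (2 * n - 6 - e) n + 3 * Wp (2 * n - 6 - e) (n - 1) + 3 * Wp (2 * n - 6 - e) (n - 2) +
    Wp (2 * n - 6 - e) (n - 3) + 3 * (2 * n - 6 - e).choose (n - 2 - e) +
    (2 * n - 6 - e).choose (n - 4 - e)

/-! ### multiplicative density -/

/-- the even attained numbers are multiplicatively dense in `[α, β]` -/
def MDense (e : ℕ) (α β : ℝ) : Prop :=
  ∀ y : ℝ, α ≤ y → y ≤ β → ∃ m : ℕ, Even m ∧ Att e m ∧ y ≤ m ∧ (m : ℝ) ≤ 21 / 20 * y

end Pool.Agent.Lib.MP_87840f_co.Spec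
end

section

/-!
# MP_87840f_co, edge spectrum: the general typed clique (definitions)

Like the typed clique of Basic.lean, but with arbitrary weight `w` instead of 3 and with the
transposed big component: the light sets of side `β` are `{y β}` and the `b` sets
`{v β i j : j < w}`, the heavy sets are `{y β} ∪ {v β i (f i) : i < b}`, `f : Fin b → Fin w`.
-/

open Finset

namespace Pool.Agent.Lib.MP_87840f_co.Spec

/-- vertices of the general typed clique -/
inductive GV (k w b : ℕ) where
  | x : GV k w b
  | s : Fin k → Bool → GV k w b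
  | y : Bool → GV k w b
  | v : Bool → Fin b → Fin w → GV k w b
  | z : (Fin k → Bool) → GV k w b
  deriving DecidableEq, Fintype

namespace GV

variable {k w b : ℕ}

/-- the weights -/
def wt : GV k w b → ℕ
  | x => k * w + b
  | s _ _ => w
  | y _ => w
  | v _ _ _ => 1
  | z _ => w

/-- the numbers of edges of the cliques that are substituted -/
def num (M mx : ℕ) (m : (Fin k → Bool) → ℕ) : GV k w b → ℕ
  | x => mx
  | s _ _ => M
  | y _ => M
  | v _ _ _ => 1
  | z η => m η

/-- one side of every small component -/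
def pat (θ : Fin k → Bool) : Finset (GV k w b) := univ.image (fun i => s i (θ i))

/-- the light sets of side `β` of the big component -/
def Q (β : Bool) : Option (Fin b) → Finset (GV k w b)
  | none => {y β}
  | some i => univ.image (fun j => v β i j)

/-- the heavy sets of side `β` of the big component -/
def Qd (β : Bool) (f : Fin b → Fin w) : Finset (GV k w b) :=
  insert (y β) (univ.image (fun i => v β i (f i)))

end GV

open GV in
/-- the edges through the heavy vertex `x`, small component -/
def GH1 (k w b : ℕ) : Finset (Finset (GV k w b)) :=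
  univ.image (fun i : Fin k => {x, s i false, s i true})

open GV in
/-- the edges through the heavy vertex `x`, big component -/
def GH2 (k w b : ℕ) : Finset (Finset (GV k w b)) :=
  univ.image (fun p : Option (Fin b) × Option (Fin b) => insert x (Q false p.1 ∪ Q true p.2))

open GV in
/-- the edges through a type vertex -/
def GH3 (k w b : ℕ) : Finset (Finset (GV k w b)) :=
  univ.image (fun p : (Fin k → Bool) × Bool × (Fin b → Fin w) =>
    insert (z (fun i => xor (p.1 i) p.2.1)) (pat p.1 ∪ Qd p.2.1 p.2.2))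

open GV in
/-- the edges with both sides of a small component -/
def GH4 (k w b : ℕ) : Finset (Finset (GV k w b)) :=
  (univ.filter (fun p : (Fin k × (Fin k → Bool)) × Bool × (Fin b → Fin w) =>
    p.1.2 p.1.1 = false)).image
    (fun p => insert (s p.1.1 true) (pat p.1.2 ∪ Qd p.2.1 p.2.2))

open GV in
/-- the edges with both sides of the big component -/
def GH5 (k w b : ℕ) : Finset (Finset (GV k w b)) :=
  univ.image (fun p : ((Fin k → Bool) × Option (Fin b)) × Bool × (Fin b → Fin w) =>
    pat p.1.1 ∪ Qd p.2.1 p.2.2 ∪ Q (!p.2.1) p.1.2)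

/-- the general typed hypergraph -/
def GH (k w b : ℕ) : Finset (Finset (GV k w b)) :=
  GH1 k w b ∪ GH2 k w b ∪ GH3 k w b ∪ GH4 k w b ∪ GH5 k w b

/-- coefficient of the heavy vertex -/
def GD (k b M : ℕ) : ℕ := k * M ^ 2 + (M + b) ^ 2

end Pool.Agent.Lib.MP_87840f_co.Spec
end

section

section

/-!
# MP_87840f_co, edge spectrum, ES1: base families

att_of_type: same as Transfer.lean (theorem transfer): restrict to the finite union of the edges,
number it, and push the family forward along an injection; card of the image family is the card.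
(Transfer.lean gives the family on Fin m; adapt it and go on to ℕ by Fin.val, or do it directly.)
att_three: an n-uniform clique with n ≥ 2 has a proper 3-colouring: if F is empty it is trivial (F
cannot be empty anyway), otherwise take an edge A, colour one vertex of A by 0, the others of A by 1,
all others by 2. Every edge meets A; an edge B ≠ A has a vertex outside A (same cardinality), so
B has colours 2 and 0 or 1; A has two elements, so both colours 0 and 1.
att_one: F = {{0}}. att_threshold: all e-subsets of range (2e-1): two e-subsets meet, and one of the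
two colour classes of range (2e-1) has at least e elements. att_fano: the seven lines of the Fano
plane on range 7: {0,1,2},{0,3,4},{0,5,6},{1,3,5},{1,4,6},{2,3,6},{2,4,5}; non 2-colourability by
decide over Fin 7 → Bool or Finset.powerset (transport the colouring to Fin 7 → Bool or case on the
seven values c 0, ..., c 6; each is a Fin 2).
-/

open Finset

namespace Pool.Agent.Lib.MP_87840f_co.Spec

theorem att_of_type {α : Type*} [DecidableEq α] {n : ℕ} {F : Finset (Finset α)}
    (hc : IsUniformClique n F) (h2 : ¬ ProperlyColourable 2 F) : Att n F.card := by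
  classical
  set V := F.biUnion id with hV
  have hsub : ∀ A ∈ F, A ⊆ V := fun A hA => subset_biUnion_of_mem id hA
  let e : V ≃ Fin V.card := V.equivFin
  let g : α → ℕ := fun x => if h : x ∈ V then (e ⟨x, h⟩).val else 0
  have hg : ∀ x ∈ V, ∀ y ∈ V, g x = g y → x = y := by
    intro x hx y hy hxy
    simp only [g, dif_pos hx, dif_pos hy] at hxy
    have h1 := e.injective (Fin.ext hxy)
    exact congrArg Subtype.val h1
  have hinj : ∀ A ∈ F, ∀ B ∈ F, A.image g = B.image g → A = B := by
    have key : ∀ A ∈ F, ∀ B ∈ F, A.image g = B.image g → A ⊆ B := by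
      intro A hA B hB hAB x hx
      have h1 : g x ∈ B.image g := by
        rw [← hAB]
        exact mem_image_of_mem g hx
      obtain ⟨y, hy, hxy⟩ := mem_image.1 h1
      have := hg y (hsub B hB hy) x (hsub A hA hx) hxy
      rw [← this]
      exact hy
    intro A hA B hB hAB
    exact Subset.antisymm (key A hA B hB hAB) (key B hB A hA hAB.symm)
  refine ⟨F.image (fun A => A.image g), ⟨?_, ?_⟩, ?_, ?_⟩
  · intro B hB
    obtain ⟨A, hA, rfl⟩ := mem_image.1 hB
    rw [card_image_of_injOn, hc.1 A hA]
    intro x hx y hy hxy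
    exact hg x (hsub A hA hx) y (hsub A hA hy) hxy
  · intro B hB B' hB'
    obtain ⟨A, hA, rfl⟩ := mem_image.1 hB
    obtain ⟨A', hA', rfl⟩ := mem_image.1 hB'
    obtain ⟨x, hx, hx'⟩ := hc.2 A hA A' hA'
    exact ⟨g x, mem_image_of_mem g hx, mem_image_of_mem g hx'⟩
  · rintro ⟨c, hcol⟩
    apply h2
    refine ⟨fun x => c (g x), fun A hA => ?_⟩
    rintro ⟨i, hi⟩
    apply hcol (A.image g) (mem_image_of_mem _ hA)
    refine ⟨i, fun j hj => ?_⟩
    obtain ⟨x, hx, rfl⟩ := mem_image.1 hj
    exact hi x hx
  · exact card_image_of_injOn fun A hA B hB h => hinj A hA B hB h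

theorem att_three {n m : ℕ} (hn : 2 ≤ n) (h : Att n m) :
    ∃ F : Finset (Finset ℕ), IsThreeChromaticClique n F ∧ F.card = m := by
  obtain ⟨F, hc, h2, hm⟩ := h
  refine ⟨F, ⟨hc, ?_, h2⟩, hm⟩
  rcases F.eq_empty_or_nonempty with hF | ⟨A, hA⟩
  · subst hF
    exact ⟨fun _ => 0, fun A hA => by simp at hA⟩
  · have hAc := hc.1 A hA
    obtain ⟨a, ha, b, hb, hab⟩ := one_lt_card.1 (by omega : 1 < A.card)
    refine ⟨fun x => if x = a then 0 else if x ∈ A then 1 else 2, fun B hB => ?_⟩
    rintro ⟨i, hi⟩
    by_cases hBA : B = A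
    · subst hBA
      have h1 := hi a ha
      have h3 := hi b hb
      beta_reduce at h1 h3
      simp only [if_true] at h1
      rw [if_neg hab.symm, if_pos hb] at h3
      rw [← h1] at h3
      exact absurd h3 (by decide)
    · obtain ⟨x, hxA, hxB⟩ := hc.2 A hA B hB
      have h1 : ¬ B ⊆ A := by
        intro hs
        exact hBA (eq_of_subset_of_card_le hs (by rw [hAc, hc.1 B hB]))
      obtain ⟨y, hyB, hyA⟩ := not_subset.1 h1
      have h3 := hi y hyB
      have hya : y ≠ a := by
        rintro rfl
        exact hyA ha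
      beta_reduce at h3
      rw [if_neg hya, if_neg hyA] at h3
      have h4 := hi x hxB
      beta_reduce at h4
      rw [← h3] at h4
      by_cases hxa : x = a
      · rw [if_pos hxa] at h4
        exact absurd h4 (by decide)
      · rw [if_neg hxa, if_pos hxA] at h4
        exact absurd h4 (by decide)

theorem att_one : Att 1 1 := by
  refine ⟨{{0}}, ⟨?_, ?_⟩, ?_, ?_⟩
  · intro A hA
    rw [mem_singleton] at hA
    subst hA
    rfl
  · intro A hA B hB
    rw [mem_singleton] at hA hB
    subst hA hB
    exact ⟨0, by simp, by simp⟩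
  · rintro ⟨c, hc⟩
    apply hc {0} (mem_singleton_self _)
    exact ⟨c 0, fun x hx => by rw [mem_singleton.1 hx]⟩
  · rfl

theorem att_threshold (e : ℕ) (he : 1 ≤ e) : Att e ((2 * e - 1).choose e) := by
  refine ⟨powersetCard e (range (2 * e - 1)), ⟨?_, ?_⟩, ?_, ?_⟩
  · intro A hA
    exact (mem_powersetCard.1 hA).2
  · intro A hA B hB
    obtain ⟨hA1, hA2⟩ := mem_powersetCard.1 hA
    obtain ⟨hB1, hB2⟩ := mem_powersetCard.1 hB
    by_contra hcon
    have hd : Disjoint A B := by
      rw [disjoint_left]
      intro x hx hx'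
      exact hcon ⟨x, hx, hx'⟩
    have h1 := card_le_card (union_subset hA1 hB1)
    rw [card_union_of_disjoint hd, hA2, hB2, card_range] at h1
    omega
  · rintro ⟨c, hc⟩
    have hsum : ((range (2 * e - 1)).filter (fun x => c x = 0)).card
        + ((range (2 * e - 1)).filter (fun x => ¬ c x = 0)).card = 2 * e - 1 := by
      rw [card_filter_add_card_filter_not, card_range]
    have hcase : e ≤ ((range (2 * e - 1)).filter (fun x => c x = 0)).card ∨
        e ≤ ((range (2 * e - 1)).filter (fun x => ¬ c x = 0)).card := by omega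
    rcases hcase with h | h
    · obtain ⟨A, hA, hAe⟩ := exists_subset_card_eq h
      apply hc A (mem_powersetCard.2 ⟨hA.trans (filter_subset _ _), hAe⟩)
      exact ⟨0, fun x hx => (mem_filter.1 (hA hx)).2⟩
    · obtain ⟨A, hA, hAe⟩ := exists_subset_card_eq h
      apply hc A (mem_powersetCard.2 ⟨hA.trans (filter_subset _ _), hAe⟩)
      refine ⟨1, fun x hx => ?_⟩
      have h1 := (mem_filter.1 (hA hx)).2
      generalize c x = t at h1
      fin_cases t
      · exact absurd rfl h1
      · rfl
  · rw [card_powersetCard, card_range]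

private lemma fano_aux : ∀ a b c d e f g : Fin 2,
    (a = b ∧ a = c) ∨ (a = d ∧ a = e) ∨ (a = f ∧ a = g) ∨ (b = d ∧ b = f) ∨
    (b = e ∧ b = g) ∨ (c = d ∧ c = g) ∨ (c = e ∧ c = f) := by
  decide

theorem att_fano : Att 3 7 := by
  refine ⟨{{0, 1, 2}, {0, 3, 4}, {0, 5, 6}, {1, 3, 5}, {1, 4, 6}, {2, 3, 6}, {2, 4, 5}},
    ⟨?_, ?_⟩, ?_, ?_⟩
  · intro A hA
    simp only [mem_insert, mem_singleton] at hA
    rcases hA with rfl | rfl | rfl | rfl | rfl | rfl | rfl <;> rfl
  · have h : ∀ A ∈ ({{0, 1, 2}, {0, 3, 4}, {0, 5, 6}, {1, 3, 5}, {1, 4, 6}, {2, 3, 6},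
        {2, 4, 5}} : Finset (Finset ℕ)), ∀ B ∈ ({{0, 1, 2}, {0, 3, 4}, {0, 5, 6}, {1, 3, 5},
        {1, 4, 6}, {2, 3, 6}, {2, 4, 5}} : Finset (Finset ℕ)), (A ∩ B).Nonempty := by
      intro A hA B hB
      simp only [mem_insert, mem_singleton] at hA hB
      rcases hA with rfl | rfl | rfl | rfl | rfl | rfl | rfl <;>
        rcases hB with rfl | rfl | rfl | rfl | rfl | rfl | rfl <;> decide
    intro A hA B hB
    obtain ⟨x, hx⟩ := h A hA B hB
    exact ⟨x, (mem_inter.1 hx).1, (mem_inter.1 hx).2⟩
  · rintro ⟨c, hc⟩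
    have key : ∀ a b d : ℕ, ({a, b, d} : Finset ℕ) ∈ ({{0, 1, 2}, {0, 3, 4}, {0, 5, 6},
        {1, 3, 5}, {1, 4, 6}, {2, 3, 6}, {2, 4, 5}} : Finset (Finset ℕ)) →
        (c a = c b ∧ c a = c d) → False := by
      rintro a b d hm ⟨h1, h2⟩
      apply hc _ hm
      refine ⟨c a, fun x hx => ?_⟩
      simp only [mem_insert, mem_singleton] at hx
      rcases hx with rfl | rfl | rfl
      · rfl
      · exact h1.symm
      · exact h2.symm
    have h := fano_aux (c 0) (c 1) (c 2) (c 3) (c 4) (c 5) (c 6)
    rcases h with h | h | h | h | h | h | h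
    · exact key 0 1 2 (by simp) h
    · exact key 0 3 4 (by simp) h
    · exact key 0 5 6 (by simp) h
    · exact key 1 3 5 (by simp) h
    · exact key 1 4 6 (by simp) h
    · exact key 2 3 6 (by simp) h
    · exact key 2 4 5 (by simp) h
  · rfl


end Pool.Agent.Lib.MP_87840f_co.Spec
end

section

/-!
# MP_87840f_co, edge spectrum, ES2: substitution

Substitution of cliques into an outer hypergraph. Choose families F i (from hm) with F i a
(w i)-uniform clique, not 2-colourable, card (F i) = m i. On the type Σ i : V, ℕ (written (_ : V) × ℕ)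
take, for A ∈ H, the sets univ.sigma g with g ∈ Fintype.piFinset (fun i => if i ∈ A then F i else {∅}):
G = H.biUnion (fun A => (Fintype.piFinset ...).image (fun g => univ.sigma g)). Edges of a clique are
nonempty (a clique edge meets itself), so A = {i | g i ≠ ∅} is determined by univ.sigma g and the
images for different A are disjoint, and g ↦ univ.sigma g is injective; hence
card G = ∑ A ∈ H, ∏ i, card (if i ∈ A then F i else {∅}) = ∑ A ∈ H, ∏ i ∈ A, m i.
Uniform: card (univ.sigma g) = ∑ i, card (g i) = ∑ i ∈ A, w i = n. Intersecting: A, B have a common i,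
and the two edges of F i meet. Not 2-colourable: given a colouring c of Σ i, ℕ, every F i has a
monochromatic edge E i of colour χ i (as F i is not 2-colourable); H has an edge A on which χ is
constant; univ.sigma (E on A, ∅ outside) is monochromatic. Finish with att_of_type.
-/

open Finset

namespace Pool.Agent.Lib.MP_87840f_co.Spec

/-- the edges over `A`, as families -/
private def PA {V : Type*} [Fintype V] [DecidableEq V] (F : V → Finset (Finset ℕ))
    (A : Finset V) : Finset (V → Finset ℕ) :=
  Fintype.piFinset (fun i => if i ∈ A then F i else {∅})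

private def sg {V : Type*} [Fintype V] (g : V → Finset ℕ) : Finset ((_ : V) × ℕ) :=
  (univ : Finset V).sigma g

private lemma mem_sg {V : Type*} [Fintype V] (g : V → Finset ℕ) (i : V) (x : ℕ) :
    (⟨i, x⟩ : (_ : V) × ℕ) ∈ sg g ↔ x ∈ g i := by
  simp [sg]

private lemma sg_injective {V : Type*} [Fintype V] :
    Function.Injective (sg : (V → Finset ℕ) → Finset ((_ : V) × ℕ)) := by
  intro g g' h
  funext i
  ext x
  rw [← mem_sg g i x, ← mem_sg g' i x, h]

private lemma mem_PA_iff {V : Type*} [Fintype V] [DecidableEq V] {F : V → Finset (Finset ℕ)}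
    (hne : ∀ i, ∀ E ∈ F i, E.Nonempty) {A : Finset V} {g : V → Finset ℕ} (hg : g ∈ PA F A)
    (i : V) : i ∈ A ↔ (g i).Nonempty := by
  have h := (Fintype.mem_piFinset.mp hg) i
  by_cases hi : i ∈ A
  · rw [if_pos hi] at h
    exact ⟨fun _ => hne i _ h, fun _ => hi⟩
  · rw [if_neg hi, Finset.mem_singleton] at h
    rw [h]
    simp [hi]

private lemma mem_PA_of_mem {V : Type*} [Fintype V] [DecidableEq V] {F : V → Finset (Finset ℕ)}
    {A : Finset V} {g : V → Finset ℕ} (hg : g ∈ PA F A) {i : V} (hi : i ∈ A) : g i ∈ F i := by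
  have h := (Fintype.mem_piFinset.mp hg) i
  rwa [if_pos hi] at h

private lemma PA_of_not_mem {V : Type*} [Fintype V] [DecidableEq V] {F : V → Finset (Finset ℕ)}
    {A : Finset V} {g : V → Finset ℕ} (hg : g ∈ PA F A) {i : V} (hi : i ∉ A) : g i = ∅ := by
  have h := (Fintype.mem_piFinset.mp hg) i
  rwa [if_neg hi, Finset.mem_singleton] at h

theorem att_subst {V : Type*} [Fintype V] [DecidableEq V] (H : Finset (Finset V))
    (hH : IsOuter H) (w m : V → ℕ) (n : ℕ) (hw : ∀ A ∈ H, ∑ i ∈ A, w i = n)
    (hm : ∀ i, Att (w i) (m i)) : Att n (∑ A ∈ H, ∏ i ∈ A, m i) := by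
  classical
  choose F hF using hm
  have hne : ∀ i, ∀ E ∈ F i, E.Nonempty := by
    intro i E hE
    obtain ⟨x, hx, _⟩ := (hF i).1.2 E hE E hE
    exact ⟨x, hx⟩
  let G : Finset (Finset ((_ : V) × ℕ)) := H.biUnion (fun A => (PA F A).image sg)
  have hcard : G.card = ∑ A ∈ H, ∏ i ∈ A, m i := by
    show (H.biUnion (fun A => (PA F A).image sg)).card = _
    rw [Finset.card_biUnion]
    · refine Finset.sum_congr rfl fun A _ => ?_
      rw [Finset.card_image_of_injective _ sg_injective]
      show (Fintype.piFinset (fun i => if i ∈ A then F i else {∅})).card = _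
      rw [Fintype.card_piFinset]
      have h1 : ∀ i : V, (if i ∈ A then F i else ({∅} : Finset (Finset ℕ))).card
          = if i ∈ A then m i else 1 := by
        intro i
        split_ifs
        · exact (hF i).2.2
        · simp
      rw [Finset.prod_congr rfl fun i _ => h1 i, Finset.prod_ite_mem, Finset.univ_inter]
    · intro A _ B _ hAB
      rw [Function.onFun_apply, Finset.disjoint_left]
      intro S hS hS'
      obtain ⟨g, hg, rfl⟩ := Finset.mem_image.mp hS
      obtain ⟨g', hg', he⟩ := Finset.mem_image.mp hS'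
      have h1 : g' = g := sg_injective he
      subst h1
      apply hAB
      ext i
      rw [mem_PA_iff hne hg i, mem_PA_iff hne hg' i]
  have hcl : IsUniformClique n G := by
    refine ⟨fun S hS => ?_, fun S hS S' hS' => ?_⟩
    · obtain ⟨A, hA, hS1⟩ := Finset.mem_biUnion.mp hS
      obtain ⟨g, hg, rfl⟩ := Finset.mem_image.mp hS1
      show ((univ : Finset V).sigma g).card = n
      rw [Finset.card_sigma, ← hw A hA]
      symm
      have h2 : ∑ i ∈ A, w i = ∑ i ∈ A, (g i).card :=
        Finset.sum_congr rfl fun i hi => ((hF i).1.1 _ (mem_PA_of_mem hg hi)).symm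
      rw [h2]
      refine Finset.sum_subset (Finset.subset_univ A) fun i _ hi => ?_
      rw [PA_of_not_mem hg hi]
      rfl
    · obtain ⟨A, hA, hS1⟩ := Finset.mem_biUnion.mp hS
      obtain ⟨g, hg, rfl⟩ := Finset.mem_image.mp hS1
      obtain ⟨B, hB, hS2⟩ := Finset.mem_biUnion.mp hS'
      obtain ⟨g', hg', rfl⟩ := Finset.mem_image.mp hS2
      obtain ⟨i, hiA, hiB⟩ := hH.1 A hA B hB
      obtain ⟨x, hx, hx'⟩ := (hF i).1.2 _ (mem_PA_of_mem hg hiA) _ (mem_PA_of_mem hg' hiB)
      exact ⟨⟨i, x⟩, (mem_sg g i x).mpr hx, (mem_sg g' i x).mpr hx'⟩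
  have h2 : ¬ ProperlyColourable 2 G := by
    rintro ⟨c, hc⟩
    -- every `F i` has a monochromatic edge
    have h3 : ∀ i : V, ∃ E ∈ F i, ∃ b : Fin 2, ∀ x ∈ E, c ⟨i, x⟩ = b := by
      intro i
      by_contra hcon
      apply (hF i).2.1
      refine ⟨fun x => c ⟨i, x⟩, fun E hE hE' => hcon ?_⟩
      obtain ⟨b, hb⟩ := hE'
      exact ⟨E, hE, b, hb⟩
    choose E hE χ hχ using h3
    obtain ⟨A, hA, b, hb⟩ := hH.2 (fun i => decide (χ i = 1))
    let g : V → Finset ℕ := fun i => if i ∈ A then E i else ∅
    have hg : g ∈ PA F A := by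
      refine Fintype.mem_piFinset.mpr fun i => ?_
      by_cases hi : i ∈ A
      · simp only [g, if_pos hi]
        exact hE i
      · simp only [g, if_neg hi, Finset.mem_singleton]
    have hG : sg g ∈ G := Finset.mem_biUnion.mpr ⟨A, hA, Finset.mem_image_of_mem _ hg⟩
    refine hc (sg g) hG ⟨if b = true then 1 else 0, ?_⟩
    rintro ⟨i, x⟩ hx
    rw [mem_sg] at hx
    have hi : i ∈ A := (mem_PA_iff hne hg i).mpr ⟨x, hx⟩
    have hx' : x ∈ E i := by
      simpa only [g, if_pos hi] using hx
    rw [hχ i x hx']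
    have hbi := hb i hi
    cases b with
    | true =>
      have h5 : χ i = 1 := of_decide_eq_true hbi
      simp [h5]
    | false =>
      have h5 : χ i ≠ 1 := of_decide_eq_false hbi
      have h6 : χ i = 0 := by
        have h7 := (χ i).isLt
        ext
        have h8 : (χ i).val ≠ 1 := fun h => h5 (Fin.ext h)
        show (χ i).val = 0
        omega
      simp [h6]
  have := att_of_type hcl h2
  rwa [hcard] at this

end Pool.Agent.Lib.MP_87840f_co.Spec
end
end

section

/-!
# MP_87840f_co, edge spectrum, ES3: the typed hypergraph is intersecting and not 2-colourable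

Call a set of TH3 ∪ TH4 ∪ TH5 a cover set: for every i it contains s i false or s i true, and it
contains some Qd β j. Basic fact (F): Q β A always meets Qd β j (A = none: y β; A = some t: v β j (t j)),
Qd β j and Qd β j' share y β.
Intersecting. Two edges of TH1, TH2 share x. An edge of TH1 (contains s i false, s i true) meets every
cover set. An edge of TH2 contains Q false A and Q true B, so it meets Qd β j by (F). TH3 against TH3:
(θ, β), (θ', β'): if β = β' they share y β. If β ≠ β' and θ i = θ' i for some i they share s i (θ i);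
otherwise θ' = not θ and the z vertices are equal. TH4 contains s i false and s i true for some i, so
it meets every cover set. TH5 (θ, A, β, j) contains Qd β j and Q (!β) A, so it meets every cover set,
since that contains some Qd β' j' with β' = β (share y β) or β' = !β (use (F)).
Colourings. Let c be given, r := c x (say r), and let r' := !r. Suppose no edge is monochromatic.
(1) By TH1, for each i some s i β has colour r'. (2) By TH2, there are no A, B with Q false A and
Q true B both monochromatic of colour r. So for some β no Q β A is monochromatic of colour r: then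
c (y β) = r' (A = none) and some class j has all v β j t of colour r' (otherwise choose t j of colour r
for every j and take A = some t): so Qd β j is monochromatic of colour r'. (3) If for some i both
s i false and s i true have colour r': choose for every l a side of colour r' with θ i = false; then
the edge of TH4 (i, θ, β, j) is monochromatic. So for every i exactly one side θ i has colour r' and
the other one has colour r. (4) Consider the side !β of the big component: if some Q (!β) A is
monochromatic of colour r', then the edge of TH5 (θ, A, β, j) is monochromatic of colour r'. Otherwise,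
as in (2), some Qd (!β) j' is monochromatic of colour r. Now both edges (θ, β, j) and
(not θ, !β, j') of TH3 contain the same vertex z η, η = xor (θ i) β, and they are monochromatic apart
from z η, of colours r' and r: one of them is monochromatic.
(Checked by computer for small k, b.)
-/

open Finset

namespace Pool.Agent.Lib.MP_87840f_co.Spec

open TV in
private theorem mem_cases {k b : ℕ} {A : Finset (TV k b)} (h : A ∈ TH k b) :
    (∃ i : Fin k, A = {x, s i false, s i true}) ∨
    (∃ p : Option (Fin 3 → Fin b) × Option (Fin 3 → Fin b),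
      A = insert x (Q false p.1 ∪ Q true p.2)) ∨
    (∃ (θ : Fin k → Bool) (β : Bool) (j : Fin 3),
      A = insert (z (fun i => xor (θ i) β)) (pat θ ∪ Qd β j)) ∨
    (∃ (i : Fin k) (θ : Fin k → Bool) (β : Bool) (j : Fin 3), θ i = false ∧
      A = insert (s i true) (pat θ ∪ Qd β j)) ∨
    (∃ (θ : Fin k → Bool) (t : Option (Fin 3 → Fin b)) (β : Bool) (j : Fin 3),
      A = pat θ ∪ Qd β j ∪ Q (!β) t) := by
  classical
  simp only [TH, mem_union] at h
  rcases h with (((h | h) | h) | h) | h
  · obtain ⟨i, -, rfl⟩ := mem_image.mp h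
    exact Or.inl ⟨i, rfl⟩
  · obtain ⟨p, -, rfl⟩ := mem_image.mp h
    exact Or.inr (Or.inl ⟨p, rfl⟩)
  · obtain ⟨⟨θ, β, j⟩, -, rfl⟩ := mem_image.mp h
    exact Or.inr (Or.inr (Or.inl ⟨θ, β, j, rfl⟩))
  · obtain ⟨⟨⟨i, θ⟩, β, j⟩, hf, rfl⟩ := mem_image.mp h
    exact Or.inr (Or.inr (Or.inr (Or.inl ⟨i, θ, β, j, (mem_filter.mp hf).2, rfl⟩)))
  · obtain ⟨⟨⟨θ, t⟩, β, j⟩, -, rfl⟩ := mem_image.mp h
    exact Or.inr (Or.inr (Or.inr (Or.inr ⟨θ, t, β, j, rfl⟩)))

open TV in
private theorem mem_TH1 {k b : ℕ} (i : Fin k) :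
    ({x, s i false, s i true} : Finset (TV k b)) ∈ TH k b := by
  classical
  simp only [TH, mem_union]
  exact Or.inl (Or.inl (Or.inl (Or.inl (mem_image.mpr ⟨i, mem_univ _, rfl⟩))))

open TV in
private theorem mem_TH2 {k b : ℕ} (t t' : Option (Fin 3 → Fin b)) :
    (insert x (Q false t ∪ Q true t') : Finset (TV k b)) ∈ TH k b := by
  classical
  simp only [TH, mem_union]
  exact Or.inl (Or.inl (Or.inl (Or.inr (mem_image.mpr ⟨(t, t'), mem_univ _, rfl⟩))))

open TV in
private theorem mem_TH3 {k b : ℕ} (θ : Fin k → Bool) (β : Bool) (j : Fin 3) :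
    (insert (z (fun i => xor (θ i) β)) (pat θ ∪ Qd β j) : Finset (TV k b)) ∈ TH k b := by
  classical
  simp only [TH, mem_union]
  exact Or.inl (Or.inl (Or.inr (mem_image.mpr ⟨(θ, β, j), mem_univ _, rfl⟩)))

open TV in
private theorem mem_TH4 {k b : ℕ} (i : Fin k) (θ : Fin k → Bool) (β : Bool) (j : Fin 3)
    (h : θ i = false) :
    (insert (s i true) (pat θ ∪ Qd β j) : Finset (TV k b)) ∈ TH k b := by
  classical
  simp only [TH, mem_union]
  refine Or.inl (Or.inr (mem_image.mpr ⟨((i, θ), β, j), ?_, rfl⟩))
  exact mem_filter.mpr ⟨mem_univ _, h⟩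

open TV in
private theorem mem_TH5 {k b : ℕ} (θ : Fin k → Bool) (t : Option (Fin 3 → Fin b)) (β : Bool)
    (j : Fin 3) :
    (pat θ ∪ Qd β j ∪ Q (!β) t : Finset (TV k b)) ∈ TH k b := by
  classical
  simp only [TH, mem_union]
  exact Or.inr (mem_image.mpr ⟨((θ, t), β, j), mem_univ _, rfl⟩)

open TV in
private theorem mem_pat {k b : ℕ} (θ : Fin k → Bool) (i : Fin k) :
    (s i (θ i) : TV k b) ∈ (pat θ : Finset (TV k b)) :=
  mem_image.mpr ⟨i, mem_univ _, rfl⟩

open TV in
private theorem y_mem_Qd {k b : ℕ} (β : Bool) (j : Fin 3) :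
    (y β : TV k b) ∈ (Qd β j : Finset (TV k b)) := mem_insert_self _ _

open TV in
private theorem factF {k b : ℕ} (β : Bool) (t : Option (Fin 3 → Fin b)) (j : Fin 3) :
    ∃ w : TV k b, w ∈ (Q β t : Finset (TV k b)) ∧ w ∈ (Qd β j : Finset (TV k b)) := by
  classical
  cases t with
  | none => exact ⟨y β, by simp [Q], y_mem_Qd β j⟩
  | some t =>
    refine ⟨v β j (t j), ?_, ?_⟩
    · exact mem_image.mpr ⟨j, mem_univ _, rfl⟩
    · exact mem_insert_of_mem (mem_image.mpr ⟨t j, mem_univ _, rfl⟩)

open TV in
/-- both sides of a small component -/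
private def P1 {k b : ℕ} (A : Finset (TV k b)) : Prop := ∃ i : Fin k, ∀ β, s i β ∈ A

open TV in
/-- meets every heavy set -/
private def P2 {k b : ℕ} (A : Finset (TV k b)) : Prop :=
  ∀ β, (∃ t, ∀ w ∈ (Q β t : Finset (TV k b)), w ∈ A) ∨ y β ∈ A

open TV in
/-- cover sets -/
private def Cov {k b : ℕ} (A : Finset (TV k b)) : Prop :=
  ∃ (θ : Fin k → Bool) (β : Bool) (j : Fin 3), (∀ i, s i (θ i) ∈ A) ∧
    ∀ w ∈ (Qd β j : Finset (TV k b)), w ∈ A

private theorem P1_Cov {k b : ℕ} {A B : Finset (TV k b)} (hA : P1 A) (hB : Cov B) :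
    ∃ w, w ∈ A ∧ w ∈ B := by
  obtain ⟨i, hi⟩ := hA
  obtain ⟨θ, β, j, h1, h2⟩ := hB
  exact ⟨_, hi (θ i), h1 i⟩

private theorem P2_Cov {k b : ℕ} {A B : Finset (TV k b)} (hA : P2 A) (hB : Cov B) :
    ∃ w, w ∈ A ∧ w ∈ B := by
  obtain ⟨θ, β, j, h1, h2⟩ := hB
  rcases hA β with ⟨t, ht⟩ | h
  · obtain ⟨w, hw1, hw2⟩ := factF (k := k) β t j
    exact ⟨w, ht w hw1, h2 w hw2⟩
  · exact ⟨_, h, h2 _ (y_mem_Qd β j)⟩

open TV in
private theorem inter {k b : ℕ} {A B : Finset (TV k b)} (hA : A ∈ TH k b) (hB : B ∈ TH k b) :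
    ∃ w, w ∈ A ∧ w ∈ B := by
  classical
  have key : ∀ C : Finset (TV k b), C ∈ TH k b →
      ((x ∈ C ∧ (P1 C ∨ P2 C)) ∨ (Cov C ∧ (P1 C ∨ P2 C))) ∨
        (Cov C ∧ ∃ (θ : Fin k → Bool) (β : Bool) (j : Fin 3),
          C = insert (z (fun i => xor (θ i) β)) (pat θ ∪ Qd β j)) := by
    intro C hC
    rcases mem_cases hC with ⟨i, rfl⟩ | ⟨p, rfl⟩ | ⟨θ, β, j, rfl⟩ | ⟨i, θ, β, j, hi, rfl⟩ |
      ⟨θ, t, β, j, rfl⟩
    · refine Or.inl (Or.inl ⟨by simp, Or.inl ⟨i, ?_⟩⟩)
      intro β
      cases β <;> simp
    · refine Or.inl (Or.inl ⟨by simp, Or.inr ?_⟩)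
      intro β
      cases β
      · exact Or.inl ⟨p.1, fun w hw => mem_insert_of_mem (mem_union_left _ hw)⟩
      · exact Or.inl ⟨p.2, fun w hw => mem_insert_of_mem (mem_union_right _ hw)⟩
    · refine Or.inr ⟨⟨θ, β, j, ?_, ?_⟩, θ, β, j, rfl⟩
      · intro i
        exact mem_insert_of_mem (mem_union_left _ (mem_pat θ i))
      · intro w hw
        exact mem_insert_of_mem (mem_union_right _ hw)
    · refine Or.inl (Or.inr ⟨⟨θ, β, j, ?_, ?_⟩, Or.inl ⟨i, ?_⟩⟩)
      · intro i
        exact mem_insert_of_mem (mem_union_left _ (mem_pat θ i))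
      · intro w hw
        exact mem_insert_of_mem (mem_union_right _ hw)
      · intro β'
        cases β'
        · have := mem_pat (b := b) θ i
          rw [hi] at this
          exact mem_insert_of_mem (mem_union_left _ this)
        · exact mem_insert_self _ _
    · refine Or.inl (Or.inr ⟨⟨θ, β, j, ?_, ?_⟩, Or.inr ?_⟩)
      · intro i
        exact mem_union_left _ (mem_union_left _ (mem_pat θ i))
      · intro w hw
        exact mem_union_left _ (mem_union_right _ hw)
      · intro β'
        by_cases h : β' = β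
        · subst h
          exact Or.inr (mem_union_left _ (mem_union_right _ (y_mem_Qd _ j)))
        · have h' : β' = !β := by
            cases β <;> cases β' <;> simp_all
          subst h'
          exact Or.inl ⟨t, fun w hw => mem_union_right _ hw⟩
  have sw : ∀ {C D : Finset (TV k b)}, (∃ w, w ∈ C ∧ w ∈ D) → ∃ w, w ∈ D ∧ w ∈ C := by
    rintro C D ⟨w, h1, h2⟩
    exact ⟨w, h2, h1⟩
  have m : ∀ {C D : Finset (TV k b)}, (P1 C ∨ P2 C) → Cov D → ∃ w, w ∈ C ∧ w ∈ D := by
    intro C D h hD
    rcases h with h | h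
    · exact P1_Cov h hD
    · exact P2_Cov h hD
  rcases key A hA with (⟨hx, hA'⟩ | ⟨hc, hA'⟩) | ⟨hc, θ, β, j, hAe⟩
  · rcases key B hB with (⟨hx', hB'⟩ | ⟨hc', hB'⟩) | ⟨hc', -⟩
    · exact ⟨_, hx, hx'⟩
    · exact m hA' hc'
    · exact m hA' hc'
  · rcases key B hB with (⟨hx', hB'⟩ | ⟨hc', hB'⟩) | ⟨hc', -⟩
    · exact sw (m hB' hc)
    · exact m hA' hc'
    · exact m hA' hc'
  · rcases key B hB with (⟨hx', hB'⟩ | ⟨hc', hB'⟩) | ⟨hc', θ', β', j', hBe⟩
    · exact sw (m hB' hc)
    · exact sw (m hB' hc)
    · subst hAe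
      subst hBe
      by_cases h : β = β'
      · subst h
        exact ⟨y β, mem_insert_of_mem (mem_union_right _ (y_mem_Qd _ j)),
          mem_insert_of_mem (mem_union_right _ (y_mem_Qd _ j'))⟩
      · by_cases h2 : ∃ i, θ i = θ' i
        · obtain ⟨i, hi⟩ := h2
          refine ⟨s i (θ i), mem_insert_of_mem (mem_union_left _ (mem_pat θ i)), ?_⟩
          rw [hi]
          exact mem_insert_of_mem (mem_union_left _ (mem_pat θ' i))
        · have h3 : (fun i => xor (θ i) β) = fun i => xor (θ' i) β' := by
            funext i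
            have h4 : θ i ≠ θ' i := fun h5 => h2 ⟨i, h5⟩
            revert h4 h
            cases θ i <;> cases θ' i <;> cases β <;> cases β' <;> simp
          refine ⟨z (fun i => xor (θ i) β), mem_insert_self _ _, ?_⟩
          rw [h3]
          exact mem_insert_self _ _

open TV in
/-- if no light set of side `β` is monochromatic of colour `r`, then a heavy set of side `β` is
monochromatic of colour `!r` -/
private theorem heavy {k b : ℕ} (c : TV k b → Bool) (r β : Bool)
    (h : ∀ t, ∃ w ∈ (Q β t : Finset (TV k b)), c w ≠ r) :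
    ∃ j : Fin 3, ∀ w ∈ (Qd β j : Finset (TV k b)), c w ≠ r := by
  classical
  by_contra hcon
  push Not at hcon
  obtain ⟨w, hw, hw2⟩ := h none
  have hy : c (y β) ≠ r := by
    simp only [Q, mem_singleton] at hw
    rw [← hw]
    exact hw2
  have hv : ∀ j : Fin 3, ∃ t : Fin b, c (v β j t) = r := by
    intro j
    obtain ⟨w, hw, hw2⟩ := hcon j
    rcases mem_insert.mp hw with rfl | hw
    · exact absurd hw2 hy
    · obtain ⟨t, -, rfl⟩ := mem_image.mp hw
      exact ⟨t, hw2⟩
  choose t ht using hv
  obtain ⟨w, hw, hw2⟩ := h (some t)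
  obtain ⟨j, -, rfl⟩ := mem_image.mp hw
  exact hw2 (ht j)

open TV in
theorem typed_outer (k b : ℕ) (hb : 1 ≤ b) : IsOuter (TH k b) := by
  classical
  refine ⟨fun A hA B hB => inter hA hB, ?_⟩
  intro c
  by_contra hcon
  push Not at hcon
  have hno : ∀ A ∈ TH k b, ∀ a : Bool, ¬ ∀ w ∈ A, c w = a := by
    intro A hA a h
    obtain ⟨w, hw, hw2⟩ := hcon A hA a
    exact hw2 (h w hw)
  set r := c x with hr
  have ne_iff : ∀ w, c w ≠ r ↔ c w = !r := by
    intro w
    cases c w <;> cases r <;> simp
  -- (1)
  have h1 : ∀ i : Fin k, ∃ β, c (s i β) = !r := by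
    intro i
    by_contra hc
    push Not at hc
    apply hno _ (mem_TH1 i) r
    intro w hw
    simp only [mem_insert, mem_singleton] at hw
    have h' : ∀ β, c (s i β) = r := by
      intro β
      by_contra h2
      exact hc β ((ne_iff _).mp h2)
    rcases hw with rfl | rfl | rfl
    · rfl
    · exact h' _
    · exact h' _
  -- (2)
  have h2 : ∃ β, ∀ t, ∃ w ∈ (Q β t : Finset (TV k b)), c w ≠ r := by
    by_contra hc
    push Not at hc
    obtain ⟨t, ht⟩ := hc false
    obtain ⟨t', ht'⟩ := hc true
    apply hno _ (mem_TH2 t t') r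
    intro w hw
    rcases mem_insert.mp hw with rfl | hw
    · rfl
    · rcases mem_union.mp hw with hw | hw
      · exact ht w hw
      · exact ht' w hw
  obtain ⟨β, hβ⟩ := h2
  obtain ⟨j, hj⟩ := heavy c r β hβ
  have hj' : ∀ w ∈ (Qd β j : Finset (TV k b)), c w = !r := fun w hw => (ne_iff w).mp (hj w hw)
  choose θ hθ using h1
  -- (3)
  have h3 : ∀ i : Fin k, c (s i (!θ i)) = r := by
    intro i
    by_contra hc
    have hc' : c (s i (!θ i)) = !r := (ne_iff _).mp hc
    have hall : ∀ β', c (s i β') = !r := by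
      intro β'
      by_cases h : β' = θ i
      · rw [h]
        exact hθ i
      · have : β' = !θ i := by
          revert h
          cases β' <;> cases θ i <;> simp
        rw [this]
        exact hc'
    apply hno _ (mem_TH4 i (Function.update θ i false) β j (by simp)) (!r)
    intro w hw
    rcases mem_insert.mp hw with rfl | hw
    · exact hall true
    · rcases mem_union.mp hw with hw | hw
      · obtain ⟨l, -, rfl⟩ := mem_image.mp hw
        by_cases h : l = i
        · subst h
          exact hall _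
        · rw [Function.update_of_ne h]
          exact hθ l
      · exact hj' w hw
  -- (4)
  by_cases h4 : ∃ t, ∀ w ∈ (Q (!β) t : Finset (TV k b)), c w = !r
  · obtain ⟨t, ht⟩ := h4
    apply hno _ (mem_TH5 θ t β j) (!r)
    intro w hw
    rcases mem_union.mp hw with hw | hw
    · rcases mem_union.mp hw with hw | hw
      · obtain ⟨l, -, rfl⟩ := mem_image.mp hw
        exact hθ l
      · exact hj' w hw
    · exact ht w hw
  · push Not at h4
    obtain ⟨j', hj2⟩ := heavy c (!r) (!β) h4
    have hj2' : ∀ w ∈ (Qd (!β) j' : Finset (TV k b)), c w = r := by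
      intro w hw
      have := hj2 w hw
      revert this
      cases c w <;> cases r <;> simp
    have he : (fun i => xor (!θ i) (!β)) = fun i => xor (θ i) β := by
      funext i
      cases θ i <;> cases β <;> rfl
    by_cases hz : c (z (fun i => xor (θ i) β)) = r
    · apply hno _ (mem_TH3 (fun i => !θ i) (!β) j') r
      intro w hw
      rcases mem_insert.mp hw with rfl | hw
      · rw [he]
        exact hz
      · rcases mem_union.mp hw with hw | hw
        · obtain ⟨l, -, rfl⟩ := mem_image.mp hw
          exact h3 l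
        · exact hj2' w hw
    · have hz' := (ne_iff _).mp hz
      apply hno _ (mem_TH3 θ β j) (!r)
      intro w hw
      rcases mem_insert.mp hw with rfl | hw
      · exact hz'
      · rcases mem_union.mp hw with hw | hw
        · obtain ⟨l, -, rfl⟩ := mem_image.mp hw
          exact hθ l
        · exact hj' w hw


end Pool.Agent.Lib.MP_87840f_co.Spec
end
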