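import Mathlib
import Pool.Agent.Lib.MP_87840f_co.Spec.TypedOuter

section

/-!
# MP_87840f_co, edge spectrum, GS9: inequalities in the low step

Everything is an eventual statement in w. GD k b M ≤ (k+4) M^2 (if b ≤ M, or directly
GD ≤ (k+1)(M+b)^2) with k ≤ n ≤ a' w^2, b ≤ B w, M ≤ m0 θ^w, so GD ≤ poly(w) * θ^(2w); k ≥ n/w - 2 - B ≥
a w - 2 - B (b ≤ B w), so 2^k ≥ (2^a)^w / const and 2^a > θ^2. Second: (C/θ)^(2w) beats the
polynomial. Third: k + 4 ≤ a' w + 4 and w (k+2) ≤ n, so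
M^(k+4) ≤ m0^(k+4) θ^(w(k+4)) ≤ m0^(a' w + 4) θ^(n + 2w), w^b ≤ w^(B w), 2^k ≤ 2^(a' w), polynomial factors;
and C^n/θ^n ≥ (C/θ)^(a w^2) beats exp(O(w log w)).
-/

open Finset

namespace Pool.Agent.Lib.MP_87840f_co.Spec

private lemma ev_poly (ρ K : ℝ) (hρ : 1 < ρ) (e : ℕ) :
    ∃ w0 : ℕ, ∀ w : ℕ, w0 ≤ w → K * (w : ℝ) ^ e ≤ ρ ^ w := by
  have h := tendsto_pow_const_div_const_pow_of_one_lt e hρ
  have hpos : (0 : ℝ) < 1 / (|K| + 1) := by positivity
  have h2 := h.eventually (gt_mem_nhds hpos)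
  obtain ⟨w0, hw0⟩ := Filter.eventually_atTop.1 h2
  refine ⟨w0, fun w hw => ?_⟩
  have h3 := hw0 w hw
  have hρw : (0 : ℝ) < ρ ^ w := pow_pos (by linarith) w
  have hK : (0 : ℝ) < |K| + 1 := by positivity
  rw [div_lt_div_iff₀ hρw hK] at h3
  have h4 : K * (w : ℝ) ^ e ≤ (|K| + 1) * (w : ℝ) ^ e := by
    apply mul_le_mul_of_nonneg_right _ (by positivity)
    linarith [le_abs_self K]
  nlinarith

theorem low_ineq (θ C : ℝ) (h1 : 1 ≤ θ) (h2 : θ < C) (a a' B m0 : ℕ) (ha : θ ^ 2 < 2 ^ a)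
    (hm0 : 1 ≤ m0) : ∃ w0 : ℕ, ∀ w n k b M d : ℕ, w0 ≤ w → a * w ^ 2 ≤ n → n ≤ a' * w ^ 2 →
      n = (k + 2) * w + b → b ≤ B * w → (M : ℝ) ≤ m0 * θ ^ w → d ≤ M →
      GD k b M ≤ 2 ^ k ∧ (2 * GD k b M : ℝ) ≤ C ^ (2 * w) ∧
      (2 * (2 * M ^ (k + 1) * w ^ b * d * GD k b M +
        2 ^ k * w ^ b * M ^ (k + 1) * ((k + 4) * M + 2 * b) : ℕ) : ℝ) ≤ C ^ n := by
  have hθ0 : (0 : ℝ) < θ := by linarith
  have hC0 : (0 : ℝ) < C := by linarith
  have ha1 : 1 ≤ a := by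
    rcases Nat.eq_zero_or_pos a with h | h
    · exfalso
      rw [h, pow_zero] at ha
      nlinarith
    · exact h
  set p : ℝ := (a' : ℝ) + (1 + B) ^ 2 with hp
  set r : ℝ := (a' : ℝ) + 4 + 2 * B with hr
  have hp0 : 0 ≤ p := by positivity
  have hp1 : 1 ≤ p := by
    rw [hp]
    have : (0 : ℝ) ≤ (a' : ℝ) := by positivity
    have hB : (0 : ℝ) ≤ (B : ℝ) := by positivity
    nlinarith
  have hr0 : 0 ≤ r := by positivity
  have hm0' : (1 : ℝ) ≤ (m0 : ℝ) := by exact_mod_cast hm0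
  have hρ1 : (1 : ℝ) < 2 ^ a / θ ^ 2 := by
    rw [lt_div_iff₀ (by positivity)]
    linarith
  have hρ2 : (1 : ℝ) < C ^ 2 / θ ^ 2 := by
    rw [lt_div_iff₀ (by positivity)]
    nlinarith
  have hρ3 : (1 : ℝ) < C / θ := by
    rw [lt_div_iff₀ hθ0]
    linarith
  obtain ⟨w1, hw1⟩ := ev_poly _ ((m0 : ℝ) ^ 2 * p * 2 ^ (2 + B)) hρ1 2
  obtain ⟨w2, hw2⟩ := ev_poly _ (2 * (m0 : ℝ) ^ 2 * p) hρ2 2
  set K3 : ℝ := (2 * (2 * p + r)) * (m0 : ℝ) ^ (a' + 2) * θ ^ 2 * 2 ^ a' with hK3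
  obtain ⟨w3, hw3⟩ := ev_poly _ K3 hρ3 (B + 2)
  refine ⟨max 1 (max w1 (max w2 w3)), ?_⟩
  intro w n k b M d hw hn1 hn2 hn hb hM hd
  have hwa : 1 ≤ w := le_trans (le_max_left _ _) hw
  have hwb : w1 ≤ w := le_trans (le_trans (le_max_left _ _) (le_max_right _ _)) hw
  have hwc : w2 ≤ w := le_trans (le_trans (le_trans (le_max_left _ _) (le_max_right _ _))
    (le_max_right _ _)) hw
  have hwd : w3 ≤ w := le_trans (le_trans (le_trans (le_max_right _ _) (le_max_right _ _))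
    (le_max_right _ _)) hw
  have hwR : (1 : ℝ) ≤ (w : ℝ) := by exact_mod_cast hwa
  -- bound on k
  have hk : k + 2 ≤ a' * w := by
    have h : (k + 2) * w ≤ (a' * w) * w := by nlinarith
    exact Nat.le_of_mul_le_mul_right h hwa
  have hk2 : a * w ≤ k + 2 + B := by
    have h : (a * w) * w ≤ (k + 2 + B) * w := by nlinarith
    exact Nat.le_of_mul_le_mul_right h hwa
  have hkR : (k : ℝ) + 2 ≤ a' * w := by exact_mod_cast hk
  have hbR : (b : ℝ) ≤ B * w := by exact_mod_cast hb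
  have hdR : (d : ℝ) ≤ M := by exact_mod_cast hd
  set X : ℝ := (m0 : ℝ) * θ ^ w with hX
  have hθw : (1 : ℝ) ≤ θ ^ w := one_le_pow₀ h1
  have hX1 : 1 ≤ X := by
    rw [hX]
    nlinarith
  have hX0 : 0 ≤ X := by linarith
  have hM0 : (0 : ℝ) ≤ (M : ℝ) := by positivity
  have hd0 : (0 : ℝ) ≤ (d : ℝ) := by positivity
  have hb0 : (0 : ℝ) ≤ (b : ℝ) := by positivity
  have hk0 : (0 : ℝ) ≤ (k : ℝ) := by positivity
  have hB0 : (0 : ℝ) ≤ (B : ℝ) := by positivity
  have ha0 : (0 : ℝ) ≤ (a' : ℝ) := by positivity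
  have hw0 : (0 : ℝ) ≤ (w : ℝ) := by positivity
  -- GD bound
  have hMb : (M : ℝ) + b ≤ X * ((1 + B) * w) := by
    have e1 : (B : ℝ) * w ≤ X * (B * w) := by
      have : 0 ≤ (B : ℝ) * w := by positivity
      nlinarith
    have e2 : X ≤ X * w := by nlinarith
    nlinarith
  have hGD : (GD k b M : ℝ) ≤ X ^ 2 * (p * (w : ℝ) ^ 2) := by
    have e0 : (GD k b M : ℝ) = k * (M : ℝ) ^ 2 + ((M : ℝ) + b) ^ 2 := by
      simp [GD]
    rw [e0]
    have e1 : (M : ℝ) ^ 2 ≤ X ^ 2 := pow_le_pow_left₀ hM0 hM 2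
    have e2 : (k : ℝ) ≤ a' * (w : ℝ) ^ 2 := by
      have : (a' : ℝ) * w ≤ a' * (w : ℝ) ^ 2 := by
        apply mul_le_mul_of_nonneg_left _ ha0
        nlinarith
      linarith
    have e3 : (k : ℝ) * (M : ℝ) ^ 2 ≤ (a' * (w : ℝ) ^ 2) * X ^ 2 :=
      mul_le_mul e2 e1 (by positivity) (by positivity)
    have e4 : ((M : ℝ) + b) ^ 2 ≤ (X * ((1 + B) * w)) ^ 2 :=
      pow_le_pow_left₀ (by positivity) hMb 2
    calc (k : ℝ) * (M : ℝ) ^ 2 + ((M : ℝ) + b) ^ 2
        ≤ (a' * (w : ℝ) ^ 2) * X ^ 2 + (X * ((1 + B) * w)) ^ 2 := add_le_add e3 e4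
      _ = X ^ 2 * (p * (w : ℝ) ^ 2) := by rw [hp]; ring
  have hXsq : X ^ 2 = (m0 : ℝ) ^ 2 * (θ ^ 2) ^ w := by
    rw [hX, mul_pow, ← pow_mul, ← pow_mul, mul_comm w 2]
  have hθ2w : (0 : ℝ) < (θ ^ 2) ^ w := by positivity
  refine ⟨?_, ?_, ?_⟩
  · have key := hw1 w hwb
    rw [div_pow, le_div_iff₀ hθ2w] at key
    have e1 : ((2 : ℝ) ^ a) ^ w ≤ 2 ^ k * 2 ^ (2 + B) := by
      rw [← pow_mul, ← pow_add]
      apply pow_le_pow_right₀ (by norm_num)
      omega
    have e2 : X ^ 2 * (p * (w : ℝ) ^ 2) * 2 ^ (2 + B) ≤ 2 ^ k * 2 ^ (2 + B) := by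
      rw [hXsq]
      calc (m0 : ℝ) ^ 2 * (θ ^ 2) ^ w * (p * (w : ℝ) ^ 2) * 2 ^ (2 + B)
          = (m0 : ℝ) ^ 2 * p * 2 ^ (2 + B) * (w : ℝ) ^ 2 * (θ ^ 2) ^ w := by ring
        _ ≤ ((2 : ℝ) ^ a) ^ w := key
        _ ≤ _ := e1
    have e3 : X ^ 2 * (p * (w : ℝ) ^ 2) ≤ 2 ^ k := le_of_mul_le_mul_right e2 (by positivity)
    have e4 : (GD k b M : ℝ) ≤ ((2 ^ k : ℕ) : ℝ) := by
      push_cast
      linarith
    exact_mod_cast e4
  · have key := hw2 w hwc
    rw [div_pow, le_div_iff₀ hθ2w] at key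
    have e1 : (C ^ 2) ^ w = C ^ (2 * w) := by rw [← pow_mul]
    calc (2 * GD k b M : ℝ) ≤ 2 * (X ^ 2 * (p * (w : ℝ) ^ 2)) := by linarith
      _ = 2 * (m0 : ℝ) ^ 2 * p * (w : ℝ) ^ 2 * (θ ^ 2) ^ w := by rw [hXsq]; ring
      _ ≤ (C ^ 2) ^ w := key
      _ = _ := e1
  · have key := hw3 w hwd
    set W : ℝ := (w : ℝ) ^ (B * w) with hW
    have hW0 : 0 ≤ W := by positivity
    have hwb' : (w : ℝ) ^ b ≤ W := pow_le_pow_right₀ hwR hb
    have hMk : (M : ℝ) ^ (k + 1) ≤ X ^ (k + 1) := pow_le_pow_left₀ hM0 hM _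
    have hlin : ((k : ℝ) + 4) * M + 2 * b ≤ X * (r * (w : ℝ) ^ 2) := by
      have e1 : ((k : ℝ) + 4) * M ≤ (a' * w + 2) * X :=
        mul_le_mul (by linarith) hM hM0 (by positivity)
      have e2 : (2 : ℝ) * b ≤ (2 * B * w) * X := by
        have : 0 ≤ (2 : ℝ) * B * w := by positivity
        nlinarith
      have e3 : (a' : ℝ) * w + 2 + 2 * B * w ≤ r * (w : ℝ) ^ 2 := by
        have hw2 : (w : ℝ) ≤ (w : ℝ) ^ 2 := by nlinarith
        have hw3 : (1 : ℝ) ≤ (w : ℝ) ^ 2 := by nlinarith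
        have f1 : (a' : ℝ) * w ≤ a' * (w : ℝ) ^ 2 := mul_le_mul_of_nonneg_left hw2 ha0
        have f2 : (B : ℝ) * w ≤ B * (w : ℝ) ^ 2 := mul_le_mul_of_nonneg_left hw2 hB0
        rw [hr]
        nlinarith
      calc ((k : ℝ) + 4) * M + 2 * b ≤ (a' * w + 2) * X + (2 * B * w) * X := add_le_add e1 e2
        _ = ((a' : ℝ) * w + 2 + 2 * B * w) * X := by ring
        _ ≤ (r * (w : ℝ) ^ 2) * X := mul_le_mul_of_nonneg_right e3 hX0
        _ = _ := by ring
    -- the total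
    have hstep1 : (2 * (2 * M ^ (k + 1) * w ^ b * d * GD k b M +
        2 ^ k * w ^ b * M ^ (k + 1) * ((k + 4) * M + 2 * b) : ℕ) : ℝ) ≤
        2 * (2 * X ^ (k + 1) * W * X * (X ^ 2 * (p * (w : ℝ) ^ 2)) +
          2 ^ k * W * X ^ (k + 1) * (X * (r * (w : ℝ) ^ 2))) := by
      push_cast
      have hGD0 : (0 : ℝ) ≤ (GD k b M : ℝ) := by positivity
      have hdX : (d : ℝ) ≤ X := le_trans hdR hM
      have g1 : (2 : ℝ) * M ^ (k + 1) * w ^ b * d * GD k b M ≤
          2 * X ^ (k + 1) * W * X * (X ^ 2 * (p * (w : ℝ) ^ 2)) := by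
        gcongr
      have g2 : (2 : ℝ) ^ k * w ^ b * M ^ (k + 1) * (((k : ℝ) + 4) * M + 2 * b) ≤
          2 ^ k * W * X ^ (k + 1) * (X * (r * (w : ℝ) ^ 2)) := by
        gcongr
      linarith
    have hX4 : X ^ (k + 4) = (m0 : ℝ) ^ (k + 4) * θ ^ (w * (k + 4)) := by
      rw [hX, mul_pow, ← pow_mul]
    have h2k1 : (1 : ℝ) ≤ 2 ^ k := one_le_pow₀ (by norm_num)
    have hstep2 : 2 * (2 * X ^ (k + 1) * W * X * (X ^ 2 * (p * (w : ℝ) ^ 2)) +
          2 ^ k * W * X ^ (k + 1) * (X * (r * (w : ℝ) ^ 2))) ≤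
          2 * (2 * p + r) * (w : ℝ) ^ 2 * W * 2 ^ k * X ^ (k + 4) := by
      have e1 : 2 * X ^ (k + 1) * W * X * (X ^ 2 * (p * (w : ℝ) ^ 2)) ≤
          2 * p * (w : ℝ) ^ 2 * W * 2 ^ k * X ^ (k + 4) := by
        have hz : (0 : ℝ) ≤ 2 * p * (w : ℝ) ^ 2 * W * X ^ (k + 4) := by positivity
        calc 2 * X ^ (k + 1) * W * X * (X ^ 2 * (p * (w : ℝ) ^ 2))
            = (2 * p * (w : ℝ) ^ 2 * W * X ^ (k + 4)) * 1 := by ring
          _ ≤ (2 * p * (w : ℝ) ^ 2 * W * X ^ (k + 4)) * 2 ^ k :=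
              mul_le_mul_of_nonneg_left h2k1 hz
          _ = _ := by ring
      have e2 : 2 ^ k * W * X ^ (k + 1) * (X * (r * (w : ℝ) ^ 2)) ≤
          r * (w : ℝ) ^ 2 * W * 2 ^ k * X ^ (k + 4) := by
        have hz : (0 : ℝ) ≤ r * (w : ℝ) ^ 2 * W * 2 ^ k := by positivity
        have hXX : X ^ (k + 2) ≤ X ^ (k + 4) := pow_le_pow_right₀ hX1 (by omega)
        calc 2 ^ k * W * X ^ (k + 1) * (X * (r * (w : ℝ) ^ 2))
            = (r * (w : ℝ) ^ 2 * W * 2 ^ k) * X ^ (k + 2) := by ring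
          _ ≤ (r * (w : ℝ) ^ 2 * W * 2 ^ k) * X ^ (k + 4) :=
              mul_le_mul_of_nonneg_left hXX hz
      calc 2 * (2 * X ^ (k + 1) * W * X * (X ^ 2 * (p * (w : ℝ) ^ 2)) +
          2 ^ k * W * X ^ (k + 1) * (X * (r * (w : ℝ) ^ 2)))
          ≤ 2 * (2 * p * (w : ℝ) ^ 2 * W * 2 ^ k * X ^ (k + 4) +
            r * (w : ℝ) ^ 2 * W * 2 ^ k * X ^ (k + 4)) := by linarith
        _ = _ := by ring
    have hk4 : k + 4 ≤ (a' + 2) * w := by nlinarith
    have hm4 : (m0 : ℝ) ^ (k + 4) ≤ ((m0 : ℝ) ^ (a' + 2)) ^ w := by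
      rw [← pow_mul]
      exact pow_le_pow_right₀ hm0' hk4
    have hθ4 : θ ^ (w * (k + 4)) ≤ θ ^ n * (θ ^ 2) ^ w := by
      rw [← pow_mul, ← pow_add]
      apply pow_le_pow_right₀ h1
      rw [hn]
      nlinarith
    have h2k : (2 : ℝ) ^ k ≤ (2 ^ a') ^ w := by
      rw [← pow_mul]
      apply pow_le_pow_right₀ (by norm_num)
      omega
    have hc : 2 * (2 * p + r) ≤ (2 * (2 * p + r)) ^ w := by
      have h1' : (1 : ℝ) ≤ 2 * (2 * p + r) := by linarith
      calc 2 * (2 * p + r) = (2 * (2 * p + r)) ^ 1 := (pow_one _).symm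
        _ ≤ _ := pow_le_pow_right₀ h1' hwa
    have hww : (w : ℝ) ^ 2 ≤ ((w : ℝ) ^ 2) ^ w := by
      have h1' : (1 : ℝ) ≤ (w : ℝ) ^ 2 := one_le_pow₀ hwR
      calc (w : ℝ) ^ 2 = ((w : ℝ) ^ 2) ^ 1 := (pow_one _).symm
        _ ≤ _ := pow_le_pow_right₀ h1' hwa
    have hWe : W = ((w : ℝ) ^ B) ^ w := by rw [hW, pow_mul]
    have hstep3 : 2 * (2 * p + r) * (w : ℝ) ^ 2 * W * 2 ^ k * X ^ (k + 4) ≤
        (K3 * (w : ℝ) ^ (B + 2)) ^ w * θ ^ n := by
      rw [hX4]
      calc 2 * (2 * p + r) * (w : ℝ) ^ 2 * W * 2 ^ k * ((m0 : ℝ) ^ (k + 4) * θ ^ (w * (k + 4)))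
          ≤ (2 * (2 * p + r)) ^ w * ((w : ℝ) ^ 2) ^ w * ((w : ℝ) ^ B) ^ w * (2 ^ a') ^ w *
            (((m0 : ℝ) ^ (a' + 2)) ^ w * (θ ^ n * (θ ^ 2) ^ w)) := by
              rw [hWe]
              gcongr
        _ = (K3 * (w : ℝ) ^ (B + 2)) ^ w * θ ^ n := by
              rw [hK3, pow_add (w : ℝ) B 2]
              simp only [mul_pow]
              ring
    have hK30 : 0 ≤ K3 * (w : ℝ) ^ (B + 2) := by positivity
    have hstep4 : (K3 * (w : ℝ) ^ (B + 2)) ^ w ≤ ((C / θ) ^ w) ^ w :=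
      pow_le_pow_left₀ hK30 key w
    have hstep5 : ((C / θ) ^ w) ^ w ≤ (C / θ) ^ n := by
      rw [← pow_mul]
      apply pow_le_pow_right₀ (by linarith)
      nlinarith
    have hθn : (0 : ℝ) < θ ^ n := by positivity
    calc (2 * (2 * M ^ (k + 1) * w ^ b * d * GD k b M +
        2 ^ k * w ^ b * M ^ (k + 1) * ((k + 4) * M + 2 * b) : ℕ) : ℝ)
        ≤ _ := hstep1
      _ ≤ _ := hstep2
      _ ≤ _ := hstep3
      _ ≤ (C / θ) ^ n * θ ^ n := mul_le_mul_of_nonneg_right (le_trans hstep4 hstep5) hθn.le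
      _ = C ^ n := by
          rw [← mul_pow, div_mul_cancel₀ _ hθ0.ne']

end Pool.Agent.Lib.MP_87840f_co.Spec
end

section

section

/-!
# MP_87840f_co, edge spectrum, ES5: counting the typed clique

The exact value is, with R = k * 2^(k-1) * 6 * 10^(k+2) + 2^k * 6 * 10^(k+1) * (10 + b^3)
(checked by computer), the sum of five parts: TH1: k * M * 100. TH2: M * (10 + b^3)^2 (the sum over A
of the product over Q β A is 10 + b^3: none gives 10, the b^3 functions t give 1 each). TH3: each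
(θ, β, j) gives m (xor θ β) * 10^k * 10; for fixed (β, j) the map θ ↦ xor θ β is a bijection, so the
sum is 2 * 3 * 10^(k+1) * ∑ η, m η. TH4: k * 2^(k-1) parameters (i, θ) with θ i = false, times 6, each
with product 10^(k+2). TH5: 2^k * 6 * 10^(k+1) * (10 + b^3). The five families are pairwise disjoint
(x ∈ A exactly for TH1, TH2; TH1 has no y and no v; z ∈ A exactly for TH3; TH4 has both s i false and s i true for
some i, TH5 has exactly one of them for each i) and all parametrizations are injective (b ≥ 1 is used: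
Qd β j determines j by v β j 0, and Q β is injective on none/some t). R may be any number with the
stated properties, e.g. define R as the sum over the edges of TH4 ∪ TH5 of the product, where for
the bound only card_image_le is needed; but it has to be even and independent of M and m (all the
products over TH4, TH5 do not involve x, z; each is divisible by 10 because it contains a y).
-/

open Finset

namespace Pool.Agent.Lib.MP_87840f_co.Spec

section

variable {k b : ℕ}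

private theorem mem_pat {θ : Fin k → Bool} {a : TV k b} :
    a ∈ (TV.pat θ : Finset (TV k b)) ↔ ∃ i, TV.s i (θ i) = a := by
  simp [TV.pat]

private theorem mem_Qd {β : Bool} {j : Fin 3} {a : TV k b} :
    a ∈ (TV.Qd β j : Finset (TV k b)) ↔ a = TV.y β ∨ ∃ t, TV.v β j t = a := by
  simp [TV.Qd]

private theorem mem_Q {β : Bool} {o : Option (Fin 3 → Fin b)} {a : TV k b} :
    a ∈ (TV.Q β o : Finset (TV k b)) ↔
      (o = none ∧ a = TV.y β) ∨ ∃ t, o = some t ∧ ∃ j, TV.v β j (t j) = a := by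
  cases o <;> simp [TV.Q]

private theorem prod_pat (M : ℕ) (m : (Fin k → Bool) → ℕ) (θ : Fin k → Bool) :
    ∏ i ∈ (TV.pat θ : Finset (TV k b)), TV.num M m i = 10 ^ k := by
  rw [TV.pat, Finset.prod_image]
  · simp [TV.num]
  · intro i _ j _ h
    exact (TV.s.inj h).1

private theorem prod_Qd (M : ℕ) (m : (Fin k → Bool) → ℕ) (β : Bool) (j : Fin 3) :
    ∏ i ∈ (TV.Qd β j : Finset (TV k b)), TV.num M m i = 10 := by
  rw [TV.Qd, Finset.prod_insert (by simp), Finset.prod_eq_one]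
  · rfl
  · intro a ha
    obtain ⟨t, _, rfl⟩ := mem_image.1 ha
    rfl

private theorem prod_Q (M : ℕ) (m : (Fin k → Bool) → ℕ) (β : Bool) (o : Option (Fin 3 → Fin b)) :
    ∏ i ∈ (TV.Q β o : Finset (TV k b)), TV.num M m i = o.elim 10 (fun _ => 1) := by
  cases o with
  | none => simp [TV.Q, TV.num]
  | some t =>
    rw [TV.Q]
    refine Finset.prod_eq_one fun a ha => ?_
    obtain ⟨j, _, rfl⟩ := mem_image.1 ha
    rfl

private theorem sum_elim : ∑ o : Option (Fin 3 → Fin b), o.elim 10 (fun _ => 1) = 10 + b ^ 3 := by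
  rw [Fintype.sum_option]
  simp

private theorem dis_pat_Qd (θ : Fin k → Bool) (β : Bool) (j : Fin 3) :
    Disjoint (TV.pat θ : Finset (TV k b)) (TV.Qd β j) := by
  rw [Finset.disjoint_left]
  intro a h1 h2
  obtain ⟨i, rfl⟩ := mem_pat.1 h1
  rcases mem_Qd.1 h2 with h | ⟨t, h⟩ <;> cases h

private theorem dis_Q (o o' : Option (Fin 3 → Fin b)) :
    Disjoint (TV.Q false o : Finset (TV k b)) (TV.Q true o') := by
  rw [Finset.disjoint_left]
  intro a h1 h2
  rcases mem_Q.1 h1 with ⟨_, rfl⟩ | ⟨t, _, j, rfl⟩ <;>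
    rcases mem_Q.1 h2 with ⟨_, h⟩ | ⟨t, _, j, h⟩ <;> cases h

private theorem dis_5 (θ : Fin k → Bool) (β : Bool) (j : Fin 3) (o : Option (Fin 3 → Fin b)) :
    Disjoint (TV.pat θ ∪ TV.Qd β j : Finset (TV k b)) (TV.Q (!β) o) := by
  rw [Finset.disjoint_left]
  intro a h1 h2
  rcases mem_union.1 h1 with h1 | h1
  · obtain ⟨i, rfl⟩ := mem_pat.1 h1
    rcases mem_Q.1 h2 with ⟨_, h⟩ | ⟨t, _, j, h⟩ <;> cases h
  · rcases mem_Qd.1 h1 with rfl | ⟨t', rfl⟩
    · rcases mem_Q.1 h2 with ⟨_, h⟩ | ⟨t, _, j, h⟩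
      · have := TV.y.inj h
        cases β <;> simp at this
      · cases h
    · rcases mem_Q.1 h2 with ⟨_, h⟩ | ⟨t, _, j, h⟩
      · cases h
      · have := (TV.v.inj h).1
        cases β <;> simp at this

private theorem Q_inj {β : Bool} {o o' : Option (Fin 3 → Fin b)}
    (h : ∀ a, a ∈ (TV.Q β o : Finset (TV k b)) → a ∈ (TV.Q β o' : Finset (TV k b))) : o = o' := by
  cases o with
  | none =>
    rcases mem_Q.1 (h (TV.y β) (mem_Q.2 (Or.inl ⟨rfl, rfl⟩))) with ⟨h1, _⟩ | ⟨t, _, j, h1⟩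
    · exact h1.symm
    · cases h1
  | some t =>
    have h0 := h (TV.v β 0 (t 0)) (mem_Q.2 (Or.inr ⟨t, rfl, 0, rfl⟩))
    rcases mem_Q.1 h0 with ⟨_, h1⟩ | ⟨t', ht', _, _⟩
    · cases h1
    · rw [ht']
      congr 1
      funext j
      rcases mem_Q.1 (h (TV.v β j (t j)) (mem_Q.2 (Or.inr ⟨t, rfl, j, rfl⟩))) with
        ⟨_, h1⟩ | ⟨t'', ht'', j', h1⟩
      · cases h1
      · have e := TV.v.inj h1
        have e2 : t'' = t' := by
          rw [ht'] at ht''
          exact (Option.some.inj ht'').symm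
        rw [← e.2.2, e.2.1, e2]

private theorem prod_TH4 (M : ℕ) (m : (Fin k → Bool) → ℕ) (i : Fin k) (θ : Fin k → Bool)
    (h : θ i = false) (β : Bool) (j : Fin 3) :
    ∏ a ∈ insert (TV.s i true) (TV.pat θ ∪ TV.Qd β j : Finset (TV k b)), TV.num M m a =
      10 ^ (k + 2) := by
  rw [Finset.prod_insert, Finset.prod_union (dis_pat_Qd θ β j), prod_pat, prod_Qd]
  · show 10 * (10 ^ k * 10) = 10 ^ (k + 2)
    ring
  · intro h1
    rcases mem_union.1 h1 with h1 | h1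
    · obtain ⟨i', h2⟩ := mem_pat.1 h1
      have e := TV.s.inj h2
      rw [e.1, h] at e
      exact absurd e.2 (by simp)
    · rcases mem_Qd.1 h1 with h2 | ⟨t, h2⟩ <;> cases h2

private theorem prod_TH5 (M : ℕ) (m : (Fin k → Bool) → ℕ) (θ : Fin k → Bool)
    (o : Option (Fin 3 → Fin b)) (β : Bool) (j : Fin 3) :
    ∏ a ∈ (TV.pat θ ∪ TV.Qd β j ∪ TV.Q (!β) o : Finset (TV k b)), TV.num M m a =
      10 ^ (k + 1) * o.elim 10 (fun _ => 1) := by
  rw [Finset.prod_union (dis_5 θ β j o), Finset.prod_union (dis_pat_Qd θ β j), prod_pat, prod_Qd,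
    prod_Q, pow_succ]

private theorem prod_TH3 (M : ℕ) (m : (Fin k → Bool) → ℕ) (η θ : Fin k → Bool)
    (β : Bool) (j : Fin 3) :
    ∏ a ∈ insert (TV.z η) (TV.pat θ ∪ TV.Qd β j : Finset (TV k b)), TV.num M m a =
      10 ^ (k + 1) * m η := by
  rw [Finset.prod_insert, Finset.prod_union (dis_pat_Qd θ β j), prod_pat, prod_Qd]
  · show m η * (10 ^ k * 10) = 10 ^ (k + 1) * m η
    ring
  · intro h1
    rcases mem_union.1 h1 with h1 | h1
    · obtain ⟨i', h2⟩ := mem_pat.1 h1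
      cases h2
    · rcases mem_Qd.1 h1 with h2 | ⟨t, h2⟩ <;> cases h2

private theorem prod_TH2 (M : ℕ) (m : (Fin k → Bool) → ℕ) (o o' : Option (Fin 3 → Fin b)) :
    ∏ a ∈ insert TV.x (TV.Q false o ∪ TV.Q true o' : Finset (TV k b)), TV.num M m a =
      M * (o.elim 10 (fun _ => 1) * o'.elim 10 (fun _ => 1)) := by
  rw [Finset.prod_insert, Finset.prod_union (dis_Q o o'), prod_Q, prod_Q]
  · rfl
  · intro h1
    rcases mem_union.1 h1 with h1 | h1 <;>
      rcases mem_Q.1 h1 with ⟨_, h⟩ | ⟨t, _, j, h⟩ <;> cases h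

private theorem sum_image_le' {α β : Type*} [DecidableEq β] (s : Finset α) (f : α → β)
    (g : β → ℕ) : ∑ A ∈ s.image f, g A ≤ ∑ p ∈ s, g (f p) := by
  classical
  induction s using Finset.induction_on with
  | empty => simp
  | insert a s ha ih =>
    rw [Finset.image_insert, Finset.sum_insert ha]
    by_cases h : f a ∈ s.image f
    · rw [Finset.insert_eq_of_mem h]
      omega
    · rw [Finset.sum_insert h]
      omega

private theorem sum_TH1 (M : ℕ) (m : (Fin k → Bool) → ℕ) :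
    ∑ A ∈ TH1 k b, ∏ i ∈ A, TV.num M m i = k * (M * 100) := by
  rw [TH1, Finset.sum_image]
  · have : ∀ i : Fin k, ∏ a ∈ ({TV.x, TV.s i false, TV.s i true} : Finset (TV k b)),
        TV.num M m a = M * 100 := by
      intro i
      rw [Finset.prod_insert (by simp), Finset.prod_insert (by simp), Finset.prod_singleton]
      show M * (10 * 10) = M * 100
      ring
    simp_rw [this]
    simp
  · intro i _ j _ h
    have h1 : (TV.s i false : TV k b) ∈ ({TV.x, TV.s j false, TV.s j true} : Finset (TV k b)) := by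
      have h2 : ({TV.x, TV.s i false, TV.s i true} : Finset (TV k b)) =
        {TV.x, TV.s j false, TV.s j true} := h
      rw [← h2]
      simp
    simpa using h1

private theorem sum_TH2 (M : ℕ) (m : (Fin k → Bool) → ℕ) :
    ∑ A ∈ TH2 k b, ∏ i ∈ A, TV.num M m i = M * (10 + b ^ 3) ^ 2 := by
  rw [TH2, Finset.sum_image]
  · simp_rw [prod_TH2]
    rw [← Finset.mul_sum, Fintype.sum_prod_type]
    simp_rw [← Finset.mul_sum]
    rw [← Finset.sum_mul, sum_elim, sq]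
  · rintro ⟨o, o'⟩ _ ⟨u, u'⟩ _ h
    have h2 : (insert TV.x (TV.Q false o ∪ TV.Q true o') : Finset (TV k b)) =
      insert TV.x (TV.Q false u ∪ TV.Q true u') := h
    have e1 : o = u := by
      refine Q_inj (k := k) (β := false) fun a ha => ?_
      have h3 : a ∈ (insert TV.x (TV.Q false u ∪ TV.Q true u') : Finset (TV k b)) := by
        rw [← h2]
        exact mem_insert_of_mem (mem_union_left _ ha)
      rcases mem_insert.1 h3 with h4 | h4
      · subst h4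
        rcases mem_Q.1 ha with ⟨_, h⟩ | ⟨t, _, j, h⟩ <;> cases h
      · rcases mem_union.1 h4 with h5 | h5
        · exact h5
        · exfalso
          rcases mem_Q.1 ha with ⟨_, rfl⟩ | ⟨t, _, j, rfl⟩ <;>
            rcases mem_Q.1 h5 with ⟨_, h⟩ | ⟨t, _, j, h⟩ <;> cases h
    have e2 : o' = u' := by
      refine Q_inj (k := k) (β := true) fun a ha => ?_
      have h3 : a ∈ (insert TV.x (TV.Q false u ∪ TV.Q true u') : Finset (TV k b)) := by
        rw [← h2]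
        exact mem_insert_of_mem (mem_union_right _ ha)
      rcases mem_insert.1 h3 with h4 | h4
      · subst h4
        rcases mem_Q.1 ha with ⟨_, h⟩ | ⟨t, _, j, h⟩ <;> cases h
      · rcases mem_union.1 h4 with h5 | h5
        · exfalso
          rcases mem_Q.1 ha with ⟨_, rfl⟩ | ⟨t, _, j, rfl⟩ <;>
            rcases mem_Q.1 h5 with ⟨_, h⟩ | ⟨t, _, j, h⟩ <;> cases h
        · exact h5
    rw [e1, e2]

private theorem sum_xor (m : (Fin k → Bool) → ℕ) (β : Bool) :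
    ∑ θ : Fin k → Bool, m (fun i => xor (θ i) β) = ∑ η, m η := by
  have hinv : Function.Involutive (fun θ : Fin k → Bool => fun i => xor (θ i) β) := by
    intro θ
    funext i
    show xor (xor (θ i) β) β = θ i
    cases θ i <;> cases β <;> rfl
  exact Equiv.sum_comp hinv.toPerm m

private theorem sum_TH3 (hb : 1 ≤ b) (M : ℕ) (m : (Fin k → Bool) → ℕ) :
    ∑ A ∈ TH3 k b, ∏ i ∈ A, TV.num M m i = 6 * 10 ^ (k + 1) * ∑ η, m η := by
  rw [TH3, Finset.sum_image]
  · simp_rw [prod_TH3]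
    rw [← Finset.mul_sum, Fintype.sum_prod_type_right]
    have : ∀ y : Bool × Fin 3, ∑ θ : Fin k → Bool, m (fun i => xor (θ i) y.1) = ∑ η, m η :=
      fun y => sum_xor m y.1
    rw [Finset.sum_congr rfl (fun y _ => this y)]
    simp only [Finset.sum_const, Finset.card_univ, Fintype.card_prod, Fintype.card_bool,
      Fintype.card_fin, smul_eq_mul]
    ring
  · rintro ⟨θ, β, j⟩ _ ⟨θ', β', j'⟩ _ h
    have h2 : (insert (TV.z (fun i => xor (θ i) β)) (TV.pat θ ∪ TV.Qd β j) : Finset (TV k b)) =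
      insert (TV.z (fun i => xor (θ' i) β')) (TV.pat θ' ∪ TV.Qd β' j') := h
    have key : ∀ a : TV k b, a ∈ (TV.pat θ ∪ TV.Qd β j : Finset (TV k b)) →
        (a ∈ (TV.pat θ' : Finset (TV k b)) ∨ a ∈ (TV.Qd β' j' : Finset (TV k b))) := by
      intro a ha
      have h3 : a ∈ (insert (TV.z (fun i => xor (θ' i) β')) (TV.pat θ' ∪ TV.Qd β' j') :
          Finset (TV k b)) := by
        rw [← h2]
        exact mem_insert_of_mem ha
      rcases mem_insert.1 h3 with h4 | h4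
      · subst h4
        exfalso
        rcases mem_union.1 ha with h5 | h5
        · obtain ⟨i, h6⟩ := mem_pat.1 h5
          cases h6
        · rcases mem_Qd.1 h5 with h6 | ⟨t, h6⟩ <;> cases h6
      · exact mem_union.1 h4
    have eβ : β = β' := by
      rcases key (TV.y β) (mem_union_right _ (mem_Qd.2 (Or.inl rfl))) with h5 | h5
      · obtain ⟨i, h6⟩ := mem_pat.1 h5
        cases h6
      · rcases mem_Qd.1 h5 with h6 | ⟨t, h6⟩
        · exact TV.y.inj h6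
        · cases h6
    have ej : j = j' := by
      rcases key (TV.v β j ⟨0, hb⟩) (mem_union_right _ (mem_Qd.2 (Or.inr ⟨_, rfl⟩))) with h5 | h5
      · obtain ⟨i, h6⟩ := mem_pat.1 h5
        cases h6
      · rcases mem_Qd.1 h5 with h6 | ⟨t, h6⟩
        · cases h6
        · exact ((TV.v.inj h6).2.1).symm
    have eθ : θ = θ' := by
      funext i
      rcases key (TV.s i (θ i)) (mem_union_left _ (mem_pat.2 ⟨i, rfl⟩)) with h5 | h5
      · obtain ⟨i', h6⟩ := mem_pat.1 h5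
        have e := TV.s.inj h6
        rw [← e.2, e.1]
      · rcases mem_Qd.1 h5 with h6 | ⟨t, h6⟩ <;> cases h6
    rw [eβ, ej, eθ]

private theorem val45 (A : Finset (TV k b)) (hA : A ∈ TH4 k b ∪ TH5 k b) :
    ∃ N : ℕ, ∀ (M : ℕ) (m : (Fin k → Bool) → ℕ), ∏ i ∈ A, TV.num M m i = 10 * N := by
  rcases mem_union.1 hA with hA | hA
  · rw [TH4, mem_image] at hA
    obtain ⟨⟨⟨i, θ⟩, β, j⟩, hp, rfl⟩ := hA
    rw [mem_filter] at hp
    refine ⟨10 ^ (k + 1), fun M m => ?_⟩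
    have := prod_TH4 (b := b) M m i θ hp.2 β j
    rw [show (10 : ℕ) * 10 ^ (k + 1) = 10 ^ (k + 2) by ring]
    exact this
  · rw [TH5, mem_image] at hA
    obtain ⟨⟨⟨θ, o⟩, β, j⟩, _, rfl⟩ := hA
    refine ⟨10 ^ k * o.elim 10 (fun _ => 1), fun M m => ?_⟩
    have := prod_TH5 (b := b) M m θ o β j
    rw [show (10 : ℕ) * (10 ^ k * o.elim 10 (fun _ => 1)) =
      10 ^ (k + 1) * o.elim 10 (fun _ => 1) by ring]
    exact this

private theorem sum_TH4_le (M : ℕ) (m : (Fin k → Bool) → ℕ) :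
    ∑ A ∈ TH4 k b, ∏ i ∈ A, TV.num M m i ≤ 600 * 20 ^ k * k := by
  rw [TH4]
  refine (sum_image_le' _ _ _).trans ?_
  have h1 : ∀ p ∈ (univ.filter (fun p : (Fin k × (Fin k → Bool)) × Bool × Fin 3 =>
      p.1.2 p.1.1 = false)), ∏ a ∈ insert (TV.s p.1.1 true)
        (TV.pat p.1.2 ∪ TV.Qd p.2.1 p.2.2 : Finset (TV k b)), TV.num M m a ≤ 10 ^ (k + 2) := by
    intro p hp
    rw [mem_filter] at hp
    exact (prod_TH4 M m p.1.1 p.1.2 hp.2 p.2.1 p.2.2).le
  refine (Finset.sum_le_card_nsmul _ _ _ h1).trans ?_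
  have h2 := Finset.card_filter_le (univ : Finset ((Fin k × (Fin k → Bool)) × Bool × Fin 3))
    (fun p => p.1.2 p.1.1 = false)
  have h3 : (univ : Finset ((Fin k × (Fin k → Bool)) × Bool × Fin 3)).card = k * 2 ^ k * 6 := by
    simp
  rw [h3] at h2
  rw [smul_eq_mul]
  refine (Nat.mul_le_mul_right _ h2).trans ?_
  rw [show (20 : ℕ) = 2 * 10 by norm_num, mul_pow]
  apply le_of_eq
  ring

private theorem sum_TH5_le (M : ℕ) (m : (Fin k → Bool) → ℕ) :
    ∑ A ∈ TH5 k b, ∏ i ∈ A, TV.num M m i ≤ 600 * 20 ^ k * (1 + b ^ 3) := by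
  rw [TH5]
  refine (sum_image_le' _ _ _).trans ?_
  simp_rw [prod_TH5]
  rw [← Finset.mul_sum, Fintype.sum_prod_type_right]
  simp_rw [Fintype.sum_prod_type, sum_elim]
  simp only [Finset.sum_const, Finset.card_univ, Fintype.card_bool,
    Fintype.card_fin, Fintype.card_pi, Finset.prod_const, smul_eq_mul]
  rw [show (20 : ℕ) = 2 * 10 by norm_num, mul_pow]
  have h1 : 10 ^ (k + 1) * (2 * (3 * (2 ^ k * (10 + b ^ 3)))) =
    60 * (2 ^ k * 10 ^ k) * (10 + b ^ 3) := by ring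
  have h2 : 600 * (2 ^ k * 10 ^ k) * (1 + b ^ 3) =
    60 * (2 ^ k * 10 ^ k) * (10 + 10 * b ^ 3) := by ring
  rw [h1, h2]
  exact Nat.mul_le_mul_left _ (by omega)

private theorem x_mem12 {A : Finset (TV k b)} (h : A ∈ TH1 k b ∪ TH2 k b) : TV.x ∈ A := by
  rcases mem_union.1 h with h | h
  · rw [TH1, mem_image] at h
    obtain ⟨i, _, rfl⟩ := h
    exact mem_insert_self _ _
  · rw [TH2, mem_image] at h
    obtain ⟨p, _, rfl⟩ := h
    exact mem_insert_self _ _

private theorem x_notMem3 {A : Finset (TV k b)} (h : A ∈ TH3 k b) : TV.x ∉ A := by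
  rw [TH3, mem_image] at h
  obtain ⟨p, _, rfl⟩ := h
  intro h1
  rcases mem_insert.1 h1 with h2 | h2
  · cases h2
  · rcases mem_union.1 h2 with h3 | h3
    · obtain ⟨i, h4⟩ := mem_pat.1 h3
      cases h4
    · rcases mem_Qd.1 h3 with h4 | ⟨t, h4⟩ <;> cases h4

private theorem z_mem3 {A : Finset (TV k b)} (h : A ∈ TH3 k b) : ∃ η, TV.z η ∈ A := by
  rw [TH3, mem_image] at h
  obtain ⟨p, _, rfl⟩ := h
  exact ⟨_, mem_insert_self _ _⟩

private theorem xz_notMem45 {A : Finset (TV k b)} (h : A ∈ TH4 k b ∪ TH5 k b) :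
    TV.x ∉ A ∧ ∀ η, TV.z η ∉ A := by
  rcases mem_union.1 h with h | h
  · rw [TH4, mem_image] at h
    obtain ⟨p, _, rfl⟩ := h
    have key : ∀ a : TV k b, a ∈ insert (TV.s p.1.1 true) (TV.pat p.1.2 ∪ TV.Qd p.2.1 p.2.2) →
        a ≠ TV.x ∧ ∀ η, a ≠ TV.z η := by
      intro a h1
      rcases mem_insert.1 h1 with h2 | h2
      · subst h2
        simp
      · rcases mem_union.1 h2 with h3 | h3
        · obtain ⟨i, rfl⟩ := mem_pat.1 h3
          simp
        · rcases mem_Qd.1 h3 with rfl | ⟨t, rfl⟩ <;> simp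
    exact ⟨fun h1 => (key _ h1).1 rfl, fun η h1 => (key _ h1).2 η rfl⟩
  · rw [TH5, mem_image] at h
    obtain ⟨p, _, rfl⟩ := h
    have key : ∀ a : TV k b, a ∈ TV.pat p.1.1 ∪ TV.Qd p.2.1 p.2.2 ∪ TV.Q (!p.2.1) p.1.2 →
        a ≠ TV.x ∧ ∀ η, a ≠ TV.z η := by
      intro a h1
      rcases mem_union.1 h1 with h2 | h2
      · rcases mem_union.1 h2 with h3 | h3
        · obtain ⟨i, rfl⟩ := mem_pat.1 h3
          simp
        · rcases mem_Qd.1 h3 with rfl | ⟨t, rfl⟩ <;> simp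
      · rcases mem_Q.1 h2 with ⟨_, rfl⟩ | ⟨t, _, j, rfl⟩ <;> simp
    exact ⟨fun h1 => (key _ h1).1 rfl, fun η h1 => (key _ h1).2 η rfl⟩

private theorem dis12 : Disjoint (TH1 k b) (TH2 k b) := by
  rw [Finset.disjoint_left]
  intro A h1 h2
  rw [TH1, mem_image] at h1
  obtain ⟨i, _, rfl⟩ := h1
  rw [TH2, mem_image] at h2
  obtain ⟨p, _, hp⟩ := h2
  have h3 : TV.s i false ∈ (insert TV.x (TV.Q false p.1 ∪ TV.Q true p.2) : Finset (TV k b)) := by
    rw [hp]
    simp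
  rcases mem_insert.1 h3 with h4 | h4
  · cases h4
  · rcases mem_union.1 h4 with h5 | h5 <;>
      rcases mem_Q.1 h5 with ⟨_, h⟩ | ⟨t, _, j, h⟩ <;> cases h

end

theorem typed_sum (k b : ℕ) (hb : 1 ≤ b) : ∃ R : ℕ, 2 ∣ R ∧
    R ≤ 600 * 20 ^ k * (k + 1 + b ^ 3) ∧
    ∀ (M : ℕ) (m : (Fin k → Bool) → ℕ),
      ∑ A ∈ TH k b, ∏ i ∈ A, TV.num M m i =
        M * DD k b + 6 * 10 ^ (k + 1) * ∑ η, m η + R := by
  refine ⟨∑ A ∈ TH4 k b ∪ TH5 k b, ∏ i ∈ A, TV.num 0 (fun _ => 0) i, ?_, ?_, ?_⟩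
  · refine Finset.dvd_sum fun A hA => ?_
    obtain ⟨N, hN⟩ := val45 A hA
    rw [hN]
    exact ⟨5 * N, by ring⟩
  · have h1 := Finset.sum_union_inter (s₁ := TH4 k b) (s₂ := TH5 k b)
      (f := fun A => ∏ i ∈ A, TV.num 0 (fun _ => 0) i)
    have h2 := sum_TH4_le (b := b) 0 (fun _ : Fin k → Bool => 0)
    have h3 := sum_TH5_le (b := b) 0 (fun _ : Fin k → Bool => 0)
    have h4 : 600 * 20 ^ k * (k + 1 + b ^ 3) =
      600 * 20 ^ k * k + 600 * 20 ^ k * (1 + b ^ 3) := by ring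
    rw [h4]
    omega
  · intro M m
    have d3 : Disjoint (TH1 k b ∪ TH2 k b) (TH3 k b) := by
      rw [Finset.disjoint_left]
      intro A h1 h2
      exact x_notMem3 h2 (x_mem12 h1)
    have d4 : Disjoint (TH1 k b ∪ TH2 k b ∪ TH3 k b) (TH4 k b ∪ TH5 k b) := by
      rw [Finset.disjoint_left]
      intro A h1 h2
      have h3 := xz_notMem45 h2
      rcases mem_union.1 h1 with h4 | h4
      · exact h3.1 (x_mem12 h4)
      · obtain ⟨η, hη⟩ := z_mem3 h4
        exact h3.2 η hη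
    rw [TH, Finset.union_assoc (TH1 k b ∪ TH2 k b ∪ TH3 k b), Finset.sum_union d4,
      Finset.sum_union d3, Finset.sum_union dis12, sum_TH1, sum_TH2, sum_TH3 hb]
    have h5 : ∑ A ∈ TH4 k b ∪ TH5 k b, ∏ i ∈ A, TV.num M m i =
        ∑ A ∈ TH4 k b ∪ TH5 k b, ∏ i ∈ A, TV.num 0 (fun _ => 0) i := by
      refine Finset.sum_congr rfl fun A hA => ?_
      obtain ⟨N, hN⟩ := val45 A hA
      rw [hN, hN]
    rw [h5, DD]
    ring


end Pool.Agent.Lib.MP_87840f_co.Spec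
end

section

/-!
# MP_87840f_co, edge spectrum, ES4: the typed hypergraph is weight-uniform

All edges have weight 3k+6+b. Useful: pat θ is an image under an injective map, sum over pat θ of wt
is 3k; sum over Q β A of wt is 3 (A = none: y β, weight 3; A = some t: three distinct vertices
v β j (t j) of weight 1); sum over Qd β j of wt is 3 + b; and all the unions and inserts are of
disjoint sets. TH1: (3k+b) + 3 + 3; TH2: (3k+b) + 3 + 3; TH3: 3 + 3k + (3+b); TH4: 3 + 3k + (3+b)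
(s i true is not in pat θ because θ i = false); TH5: 3k + (3+b) + 3.
-/

open Finset

namespace Pool.Agent.Lib.MP_87840f_co.Spec

private theorem tw45_sum_pat {k b : ℕ} (θ : Fin k → Bool) :
    ∑ i ∈ (TV.pat θ : Finset (TV k b)), TV.wt i = 3 * k := by
  unfold TV.pat
  rw [Finset.sum_image]
  · simp [TV.wt, Finset.sum_const, mul_comm]
  · intro i _ j _ h
    simp only [TV.s.injEq] at h
    exact h.1

private theorem tw45_sum_Q {k b : ℕ} (β : Bool) (p : Option (Fin 3 → Fin b)) :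
    ∑ i ∈ (TV.Q β p : Finset (TV k b)), TV.wt i = 3 := by
  cases p with
  | none => simp [TV.Q, TV.wt]
  | some t =>
    unfold TV.Q
    rw [Finset.sum_image]
    · simp [TV.wt]
    · intro i _ j _ h
      simp only [TV.v.injEq] at h
      exact h.2.1

private theorem tw45_sum_Qd {k b : ℕ} (β : Bool) (j : Fin 3) :
    ∑ i ∈ (TV.Qd β j : Finset (TV k b)), TV.wt i = 3 + b := by
  unfold TV.Qd
  rw [Finset.sum_insert, Finset.sum_image]
  · simp [TV.wt]
  · intro i _ j _ h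
    simp only [TV.v.injEq] at h
    exact h.2.2
  · simp

private theorem tw45_mem_pat {k b : ℕ} {θ : Fin k → Bool} {u : TV k b} :
    u ∈ (TV.pat θ : Finset (TV k b)) ↔ ∃ i, TV.s i (θ i) = u := by
  simp [TV.pat]

private theorem tw45_mem_Q {k b : ℕ} {β : Bool} {p : Option (Fin 3 → Fin b)} {u : TV k b}
    (h : u ∈ (TV.Q β p : Finset (TV k b))) : u = TV.y β ∨ ∃ j c, u = TV.v β j c := by
  cases p with
  | none => left; simpa [TV.Q] using h
  | some t =>
    right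
    simp only [TV.Q, Finset.mem_image, Finset.mem_univ, true_and] at h
    obtain ⟨j, hj⟩ := h
    exact ⟨j, t j, hj.symm⟩

private theorem tw45_mem_Qd {k b : ℕ} {β : Bool} {j : Fin 3} {u : TV k b}
    (h : u ∈ (TV.Qd β j : Finset (TV k b))) : u = TV.y β ∨ ∃ j c, u = TV.v β j c := by
  simp only [TV.Qd, Finset.mem_insert, Finset.mem_image, Finset.mem_univ, true_and] at h
  rcases h with h | ⟨t, ht⟩
  · left; exact h
  · right; exact ⟨j, t, ht.symm⟩

private theorem tw45_disj_pat_Qd {k b : ℕ} (θ : Fin k → Bool) (β : Bool) (j : Fin 3) :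
    Disjoint (TV.pat θ : Finset (TV k b)) (TV.Qd β j) := by
  rw [Finset.disjoint_left]
  intro u h1 h2
  obtain ⟨i, hi⟩ := tw45_mem_pat.1 h1
  rcases tw45_mem_Qd h2 with h | ⟨j, c, h⟩ <;> · rw [← hi] at h; cases h

private theorem tw45_disj_pat_Q {k b : ℕ} (θ : Fin k → Bool) (β : Bool)
    (p : Option (Fin 3 → Fin b)) :
    Disjoint (TV.pat θ : Finset (TV k b)) (TV.Q β p) := by
  rw [Finset.disjoint_left]
  intro u h1 h2
  obtain ⟨i, hi⟩ := tw45_mem_pat.1 h1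
  rcases tw45_mem_Q h2 with h | ⟨j, c, h⟩ <;> · rw [← hi] at h; cases h

private theorem tw45_disj_Qd_Q {k b : ℕ} (β : Bool) (j : Fin 3)
    (p : Option (Fin 3 → Fin b)) :
    Disjoint (TV.Qd β j : Finset (TV k b)) (TV.Q (!β) p) := by
  rw [Finset.disjoint_left]
  intro u h1 h2
  rcases tw45_mem_Qd h1 with h | ⟨j, c, h⟩ <;> rcases tw45_mem_Q h2 with h' | ⟨j', c', h'⟩ <;>
    rw [h] at h' <;> cases β <;> cases h'

private theorem tw45_disj_Q_Q {k b : ℕ} (p q : Option (Fin 3 → Fin b)) :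
    Disjoint (TV.Q false p : Finset (TV k b)) (TV.Q true q) := by
  rw [Finset.disjoint_left]
  intro u h1 h2
  rcases tw45_mem_Q h1 with h | ⟨j, c, h⟩ <;> rcases tw45_mem_Q h2 with h' | ⟨j', c', h'⟩ <;>
    rw [h] at h' <;> cases h'

theorem typed_weight (k b : ℕ) (hb : 1 ≤ b) :
    ∀ A ∈ TH k b, ∑ i ∈ A, TV.wt i = 3 * k + 6 + b := by
  intro A hA
  simp only [TH, Finset.mem_union] at hA
  rcases hA with (((hA | hA) | hA) | hA) | hA
  · simp only [TH1, Finset.mem_image, Finset.mem_univ, true_and] at hA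
    obtain ⟨i, rfl⟩ := hA
    rw [Finset.sum_insert (by simp), Finset.sum_insert (by simp), Finset.sum_singleton]
    simp only [TV.wt]
    omega
  · simp only [TH2, Finset.mem_image, Finset.mem_univ, true_and] at hA
    obtain ⟨p, rfl⟩ := hA
    rw [Finset.sum_insert, Finset.sum_union (tw45_disj_Q_Q p.1 p.2), tw45_sum_Q, tw45_sum_Q]
    · simp only [TV.wt]
      omega
    · intro h
      rcases Finset.mem_union.1 h with h | h <;>
        rcases tw45_mem_Q h with h' | ⟨j', c', h'⟩ <;> cases h'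
  · simp only [TH3, Finset.mem_image, Finset.mem_univ, true_and] at hA
    obtain ⟨p, rfl⟩ := hA
    rw [Finset.sum_insert, Finset.sum_union (tw45_disj_pat_Qd _ _ _), tw45_sum_pat, tw45_sum_Qd]
    · simp only [TV.wt]
      omega
    · intro h
      rcases Finset.mem_union.1 h with h | h
      · obtain ⟨i, hi⟩ := tw45_mem_pat.1 h
        cases hi
      · rcases tw45_mem_Qd h with h' | ⟨j', c', h'⟩ <;> cases h'
  · simp only [TH4, Finset.mem_image, Finset.mem_filter, Finset.mem_univ, true_and] at hA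
    obtain ⟨p, hp, rfl⟩ := hA
    rw [Finset.sum_insert, Finset.sum_union (tw45_disj_pat_Qd _ _ _), tw45_sum_pat, tw45_sum_Qd]
    · simp only [TV.wt]
      omega
    · intro h
      rcases Finset.mem_union.1 h with h | h
      · obtain ⟨i, hi⟩ := tw45_mem_pat.1 h
        simp only [TV.s.injEq] at hi
        obtain ⟨h1, h2⟩ := hi
        rw [h1, hp] at h2
        exact Bool.false_ne_true h2
      · rcases tw45_mem_Qd h with h' | ⟨j', c', h'⟩ <;> cases h'
  · simp only [TH5, Finset.mem_image, Finset.mem_univ, true_and] at hA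
    obtain ⟨p, rfl⟩ := hA
    rw [Finset.sum_union, Finset.sum_union (tw45_disj_pat_Qd _ _ _), tw45_sum_pat, tw45_sum_Qd,
      tw45_sum_Q]
    · omega
    · exact Finset.disjoint_union_left.2 ⟨tw45_disj_pat_Q _ _ _, tw45_disj_Qd_Q _ _ _⟩

end Pool.Agent.Lib.MP_87840f_co.Spec
end

section

/-!
# MP_87840f_co, edge spectrum, ES6: the typed step

Substitution into the typed hypergraph: type vertices get 7 (Fano) or 10 edges.
-/

open Finset

namespace Pool.Agent.Lib.MP_87840f_co.Spec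

theorem typed_step (k b : ℕ) (hb : 1 ≤ b) : ∃ R : ℕ, 2 ∣ R ∧
    R ≤ 1100 * 20 ^ k * (k + 1 + b ^ 3) ∧
    ∀ M t : ℕ, Att (3 * k + b) M → t ≤ 2 ^ k →
      Att (3 * k + 6 + b) (M * DD k b + 18 * 10 ^ (k + 1) * t + R) := by
  classical
  obtain ⟨R, hR2, hR, h⟩ := typed_sum k b hb
  refine ⟨R + 420 * 20 ^ k, ?_, ?_, ?_⟩
  · exact Nat.dvd_add hR2 (Dvd.dvd.mul_right (by norm_num) _)
  · have h1 : 420 * 20 ^ k ≤ 500 * 20 ^ k * (k + 1 + b ^ 3) := by
      have : 1 ≤ k + 1 + b ^ 3 := by omega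
      calc 420 * 20 ^ k ≤ 500 * 20 ^ k * 1 := by omega
        _ ≤ _ := Nat.mul_le_mul_left _ this
    calc R + 420 * 20 ^ k ≤ 600 * 20 ^ k * (k + 1 + b ^ 3) + 500 * 20 ^ k * (k + 1 + b ^ 3) :=
          add_le_add hR h1
      _ = _ := by ring
  · intro M t hM ht
    have hcard : t ≤ (univ : Finset (Fin k → Bool)).card := by simpa using ht
    obtain ⟨T, -, hT⟩ := Finset.exists_subset_card_eq hcard
    have hm : ∀ η, Att 3 ((fun η => if η ∈ T then 10 else 7) η) := by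
      intro η
      beta_reduce
      split_ifs
      · exact att_threshold 3 (by norm_num)
      · exact att_fano
    have hsum : ∑ η : Fin k → Bool, (if η ∈ T then 10 else 7) = 7 * 2 ^ k + 3 * t := by
      have : ∀ η : Fin k → Bool, (if η ∈ T then 10 else 7) = 7 + (if η ∈ T then 3 else 0) := by
        intro η
        split_ifs <;> rfl
      simp only [this]
      rw [sum_add_distrib, sum_const, sum_ite_mem, sum_const]
      simp [hT]
      ring
    have h2 := att_subst (TH k b) (typed_outer k b hb) TV.wt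
      (TV.num M (fun η => if η ∈ T then 10 else 7)) _ (typed_weight k b hb) (by
        intro i
        cases i with
        | x => exact hM
        | s _ _ => exact att_threshold 3 (by norm_num)
        | y _ => exact att_threshold 3 (by norm_num)
        | v _ _ _ => exact att_one
        | z η => exact hm η)
    rw [h, hsum] at h2
    have h3 : M * DD k b + 6 * 10 ^ (k + 1) * (7 * 2 ^ k + 3 * t) + R =
        M * DD k b + 18 * 10 ^ (k + 1) * t + (R + 420 * 20 ^ k) := by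
      have : (20 : ℕ) ^ k = 2 ^ k * 10 ^ k := by rw [← mul_pow]; norm_num
      rw [this]
      ring
    rw [h3] at h2
    exact h2


end Pool.Agent.Lib.MP_87840f_co.Spec
end
end
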