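import Mathlib
import Pool.Agent.Lib.MP_87840f_co.Spec.TypedOuter
import Pool.Agent.Lib.MP_87840f_co.Cover
import Pool.Agent.Lib.MP_87840f_co.Spec.TypedStep

section

/-!
# MP_87840f_co, edge spectrum, ES18: growth inequality

(n/c)^n = (n/c)^6 (n/(n-6))^(n-6) ((n-6)/c)^(n-6) and (n/(n-6))^(n-6) = (1 + 6/(n-6))^(n-6) ≤ e^6, so
it is enough that n e/c ≤ n - 18 log2 n - 120, true for large n because e/c < 1.
-/

open Finset

namespace Pool.Agent.Lib.MP_87840f_co.Spec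

private lemma natlog_le (n : ℕ) (hn : 1 ≤ n) : ((Nat.log 2 n : ℕ) : ℝ) ≤ 2 * Real.log n := by
  have h1 : 2 ^ Nat.log 2 n ≤ n := Nat.pow_log_le_self 2 (by omega)
  have h2 : ((2 : ℝ)) ^ Nat.log 2 n ≤ (n : ℝ) := by exact_mod_cast h1
  have h3 : Real.log ((2 : ℝ) ^ Nat.log 2 n) ≤ Real.log n :=
    Real.log_le_log (by positivity) h2
  rw [Real.log_pow] at h3
  have h4 : (1 : ℝ) / 2 < Real.log 2 := by
    have := Real.log_two_gt_d9
    linarith
  have h5 : (0 : ℝ) ≤ (Nat.log 2 n : ℕ) := by positivity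
  nlinarith

private lemma ev_le (δ : ℝ) (hδ : 0 < δ) : ∃ n0 : ℕ, ∀ n ≥ n0,
    18 * ((Nat.log 2 n : ℕ) : ℝ) + 120 ≤ δ * n := by
  have h1 : ∀ᶠ x : ℝ in Filter.atTop, ‖Real.log x‖ ≤ (δ / 72) * ‖x‖ :=
    Real.isLittleO_log_id_atTop.bound (by positivity)
  have h2 : ∀ᶠ n : ℕ in Filter.atTop, ‖Real.log (n : ℝ)‖ ≤ (δ / 72) * ‖(n : ℝ)‖ :=
    (tendsto_natCast_atTop_atTop (R := ℝ)).eventually h1
  have h3 : ∀ᶠ n : ℕ in Filter.atTop, 240 / δ ≤ (n : ℝ) :=
    (tendsto_natCast_atTop_atTop (R := ℝ)).eventually (Filter.eventually_ge_atTop _)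
  obtain ⟨n0, hn0⟩ := Filter.eventually_atTop.1 ((h2.and h3).and (Filter.eventually_ge_atTop 1))
  refine ⟨n0, fun n hn => ?_⟩
  obtain ⟨⟨ha, hb⟩, hc⟩ := hn0 n hn
  have h4 := natlog_le n hc
  have h5 : Real.log (n : ℝ) ≤ (δ / 72) * n := by
    have h6 := le_trans (le_abs_self _) ha
    rwa [Real.norm_eq_abs, abs_of_nonneg (by positivity : (0 : ℝ) ≤ (n : ℝ))] at h6
  have h7 : 240 ≤ (n : ℝ) * δ := (div_le_iff₀ hδ).1 hb
  nlinarith

theorem growth (c : ℝ) (hc : Real.exp 1 < c) : ∃ n3 : ℕ, ∀ n ≥ n3,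
    ((n : ℝ) / c) ^ n ≤ ((n - 18 * Nat.log 2 n - 120 : ℕ) : ℝ) ^ 6 *
      (((n - 6 : ℕ) : ℝ) / c) ^ (n - 6) := by
  have he : 0 < Real.exp 1 := Real.exp_pos 1
  have hc0 : 0 < c := he.trans hc
  have hδ : 0 < 1 - Real.exp 1 / c := by
    have := (div_lt_one hc0).2 hc
    linarith
  obtain ⟨n0, hn0⟩ := ev_le _ hδ
  refine ⟨max n0 7, fun n hn => ?_⟩
  have hn1 : n0 ≤ n := le_trans (le_max_left _ _) hn
  have hn2 : 7 ≤ n := le_trans (le_max_right _ _) hn
  have h1 := hn0 n hn1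
  obtain ⟨N, rfl⟩ : ∃ N, n = N + 6 := ⟨n - 6, by omega⟩
  have hN : 1 ≤ N := by omega
  have hNr : (1 : ℝ) ≤ (N : ℝ) := by exact_mod_cast hN
  have hN0 : (0 : ℝ) < (N : ℝ) := by linarith
  have e1 : N + 6 - 6 = N := by omega
  rw [e1]
  obtain ⟨A, hA⟩ : ∃ A : ℕ, A = N + 6 - 18 * Nat.log 2 (N + 6) - 120 := ⟨_, rfl⟩
  rw [← hA]
  have hAr : (((N + 6 : ℕ) : ℝ)) * (Real.exp 1 / c) ≤ (A : ℝ) := by
    have h2 : N + 6 ≤ A + (18 * Nat.log 2 (N + 6) + 120) := by omega
    have h3 : ((N + 6 : ℕ) : ℝ) ≤ (A : ℝ) + (18 * ((Nat.log 2 (N + 6) : ℕ) : ℝ) + 120) := by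
      exact_mod_cast h2
    have h30 : (1 - Real.exp 1 / c) * ((N + 6 : ℕ) : ℝ)
      = ((N + 6 : ℕ) : ℝ) - ((N + 6 : ℕ) : ℝ) * (Real.exp 1 / c) := by ring
    linarith
  clear hA
  have h4 : (((N + 6 : ℕ) : ℝ) / c) ^ (N + 6)
      = (((N + 6 : ℕ) : ℝ) / c) ^ 6 * ((((N + 6 : ℕ) : ℝ) / N) ^ N * ((N : ℝ) / c) ^ N) := by
    rw [← mul_pow, pow_add, mul_comm]
    congr 2
    field_simp
  have h5 : (((N + 6 : ℕ) : ℝ) / N) ^ N ≤ Real.exp 1 ^ 6 := by
    have h6 : ((N + 6 : ℕ) : ℝ) / N = 6 / N + 1 := by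
      push_cast
      field_simp
      ring
    have h7 : 6 / (N : ℝ) + 1 ≤ Real.exp (6 / N) := Real.add_one_le_exp _
    calc (((N + 6 : ℕ) : ℝ) / N) ^ N ≤ (Real.exp (6 / N)) ^ N := by
          apply pow_le_pow_left₀ (by positivity)
          rw [h6]; exact h7
      _ = Real.exp 1 ^ 6 := by
          rw [← Real.exp_nat_mul, ← Real.exp_nat_mul]
          congr 1
          push_cast
          field_simp
  rw [h4]
  have h8 : (((N + 6 : ℕ) : ℝ) / c) ^ 6 * ((((N + 6 : ℕ) : ℝ) / N) ^ N * ((N : ℝ) / c) ^ N)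
      ≤ (((N + 6 : ℕ) : ℝ) / c) ^ 6 * (Real.exp 1 ^ 6 * ((N : ℝ) / c) ^ N) := by
    gcongr
  have h9 : (((N + 6 : ℕ) : ℝ) / c) ^ 6 * (Real.exp 1 ^ 6 * ((N : ℝ) / c) ^ N)
      = ((((N + 6 : ℕ) : ℝ)) * (Real.exp 1 / c)) ^ 6 * ((N : ℝ) / c) ^ N := by
    rw [← mul_assoc, ← mul_pow]
    congr 2
    ring
  refine h8.trans ?_
  rw [h9]
  gcongr

end Pool.Agent.Lib.MP_87840f_co.Spec
end

section

/-!
# MP_87840f_co, edge spectrum, ES14: binomial estimates for the switch clique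

u = 2n-6-e, j = n-2-e, so u - j = n - 4, u - n = j - 4 (all subtractions are true subtractions).
With C i = C(u,i): C(j+1)/C(j) = (n-4)/(n-1-e) ≤ 6/5 and C(j+2)/C(j+1) = (n-5)/(n-e) ≤ 6/5,
C(j)/C(j-1) = (n-3)/(n-2-e) ≥ 1 and ≤ 6/5, C(j-1)/C(j-2) = (n-2)/(n-3-e) between 1 and 6/5, C increasing below j.
Hence Wp u (j+1) ≤ 6/5 Wp u j, Wp u (j+2) ≤ 36/25 Wp u j, Wp u (j-1) ≤ Wp u j and
Df = Wp(j+2) + 3 Wp(j+1) + 2 Wp(j) + Wp(j-1) ≤ (1.44 + 3.6 + 2 + 1) Wp(j) ≤ 9 Wp(j).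
By symmetry C(n) = C(j-4), C(n-1) = C(j-3), C(n-2) = C(j-2), C(n-3) = C(j-1), C(n-4) = C(j),
C(n-5) = C(j+1), so Wp n ≤ 4C(j), Wp(n-1) ≤ 4C(j), Wp(n-2) ≤ 4C(j), Wp(n-3) ≤ 4.6 C(j) and
Rf ≤ (4 + 12 + 12 + 4.6 + 3 + 1) C(j) ≤ 40 C(j).
2^(n-4-e) ≤ C(u, n-4-e): C(u,i) ≥ C(2i,i) ≥ 2^i because u ≥ 2(n-4-e). (All checked by computer.)
-/

open Finset

namespace Pool.Agent.Lib.MP_87840f_co.Spec

private lemma ratio_le {a b x y : ℕ} (h : a * x = b * y) (hx : 0 < x) (hy : 5 * y ≤ 6 * x) :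
    5 * a ≤ 6 * b := by
  have h1 : 5 * a * x ≤ 6 * b * x := by
    calc 5 * a * x = b * (5 * y) := by rw [mul_assoc, h]; ring
      _ ≤ b * (6 * x) := Nat.mul_le_mul_left _ hy
      _ = 6 * b * x := by ring
  exact Nat.le_of_mul_le_mul_right h1 hx

private lemma ratio_ge {a b x y : ℕ} (h : a * x = b * y) (hx : 0 < x) (hy : x ≤ y) :
    b ≤ a := by
  have h1 : b * x ≤ a * x := by
    rw [h]; exact Nat.mul_le_mul_left _ hy
  exact Nat.le_of_mul_le_mul_right h1 hx

private lemma two_pow_le_central (q : ℕ) : 2 ^ q ≤ (2 * q).choose q := by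
  induction q with
  | zero => simp
  | succ q ih =>
    have h := Nat.succ_mul_centralBinom_succ q
    have h2 : 2 * (2 * q).choose q * (q + 1) ≤ (2 * (q + 1)).choose (q + 1) * (q + 1) := by
      have h3 : (2 * (q + 1)).choose (q + 1) * (q + 1) = 2 * (2 * q + 1) * (2 * q).choose q := by
        rw [mul_comm]; exact h
      rw [h3]
      nlinarith [Nat.zero_le ((2 * q).choose q * q)]
    have h4 := Nat.le_of_mul_le_mul_right h2 (Nat.succ_pos q)
    calc 2 ^ (q + 1) = 2 * 2 ^ q := by ring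
      _ ≤ 2 * (2 * q).choose q := Nat.mul_le_mul_left _ ih
      _ ≤ _ := h4

theorem switch_bounds (n e : ℕ) (he : 1 ≤ e) (hn : 10 * e ≤ n) (h100 : 100 ≤ n) :
    Df n e ≤ 9 * Wp (2 * n - 6 - e) (n - 2 - e) ∧
    Rf n e ≤ 40 * (2 * n - 6 - e).choose (n - 2 - e) ∧
    2 ^ (n - 4 - e) ≤ (2 * n - 6 - e).choose (n - 4 - e) ∧
    (2 * n - 6 - e).choose (n - 4 - e) ≤ (2 * n - 6 - e).choose (n - 2 - e) := by
  obtain ⟨q, rfl⟩ : ∃ q, n = q + 6 + e := ⟨n - 6 - e, by omega⟩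
  -- here q is the `q - 2` of the sketch: positions are shifted by two
  have hq : 5 * e + 20 ≤ q := by omega
  unfold Df Rf Wp
  have hu : 2 * (q + 6 + e) - 6 - e = 2 * q + 6 + e := by omega
  rw [hu]
  rw [show q + 6 + e - e = q + 6 by omega, show q + 6 + e - 1 - e = q + 5 by omega,
    show q + 6 + e - 2 - e = q + 4 by omega, show q + 6 + e - 3 - e = q + 3 by omega,
    show q + 6 + e - 4 - e = q + 2 by omega,
    show q + 6 - 2 = q + 4 by omega, show q + 5 - 2 = q + 3 by omega,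
    show q + 4 - 2 = q + 2 by omega, show q + 3 - 2 = q + 1 by omega]
  have hs : ∀ i j, i + j = 2 * q + 6 + e →
      (2 * q + 6 + e).choose i = (2 * q + 6 + e).choose j := by
    intro i j h
    rw [← Nat.choose_symm (show i ≤ 2 * q + 6 + e by omega)]
    congr 1
    omega
  rw [hs (q + 6 + e) q (by omega), hs (q + 6 + e - 2) (q + 2) (by omega),
    hs (q + 6 + e - 1) (q + 1) (by omega), hs (q + 6 + e - 1 - 2) (q + 3) (by omega),
    hs (q + 6 + e - 2 - 2) (q + 4) (by omega),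
    hs (q + 6 + e - 3) (q + 3) (by omega), hs (q + 6 + e - 3 - 2) (q + 5) (by omega)]
  have r : ∀ i, (2 * q + 6 + e).choose (i + 1) * (i + 1)
      = (2 * q + 6 + e).choose i * (2 * q + 6 + e - i) := fun i => Nat.choose_succ_right_eq _ _
  have r0 := r q
  have r1 := r (q + 1)
  have r2 := r (q + 2)
  have r3 := r (q + 3)
  have r4 := r (q + 4)
  have r5 := r (q + 5)
  have g0 := ratio_ge r0 (by omega) (by omega)
  have g1 := ratio_ge r1 (by omega) (by omega)
  have g2 := ratio_ge r2 (by omega) (by omega)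
  have g3 := ratio_ge r3 (by omega) (by omega)
  have l2 := ratio_le r2 (by omega) (by omega)
  have l3 := ratio_le r3 (by omega) (by omega)
  have l4 := ratio_le r4 (by omega) (by omega)
  have l5 := ratio_le r5 (by omega) (by omega)
  refine ⟨?_, ?_, ?_, ?_⟩
  · simp only [add_assoc, Nat.reduceAdd] at *
    omega
  · simp only [add_assoc, Nat.reduceAdd] at *
    omega
  · calc 2 ^ (q + 2) ≤ (2 * (q + 2)).choose (q + 2) := two_pow_le_central _
      _ ≤ _ := Nat.choose_le_choose _ (by omega)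
  · exact le_trans g2 g3


end Pool.Agent.Lib.MP_87840f_co.Spec
end

section

/-!
# MP_87840f_co, edge spectrum, ES9: counting in the switch clique

Write u = 2n-6-e. A subset A of Bool ⊕ Fin u is S.disjSum A' with S ⊆ Bool, A' ⊆ Fin u; its weight is
(2 if false ∈ S) + (e if true ∈ S) + card A', its product is (3 if false ∈ S) * (M if true ∈ S). So for
i ≥ e + 2: ∑ over wset i of the product = C(u,i) + 3 C(u,i-2) + M C(u,i-e) + 3 M C(u,i-2-e)
= Wp u i + M * Wp u (i-e); this is used for i = n, n-1, n-2, n-3 (n-3 ≥ e+3).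
B: all A ∈ wset (n-2) with inr-part arbitrary and inl true ∉ A (their products sum to Wp u (n-2)),
together with k1 of the C(u,n-2-e) sets {inl true} ∪ A' (product M, complement {inl false} ∪ ...,
product of the complement 3) and k3 of the C(u,n-4-e) sets {inl true, inl false} ∪ A' (product 3M,
product of the complement 1). Then the sum over B is Wp u (n-2) + k1 M + 3 k3 M and the last sum is
3 (C(u,n-2-e) - k1) + (C(u,n-4-e) - k3). Total as claimed (checked by computer):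
M*Df + Rf + k1 (M-3) + k3 (3M-1).
-/

open Finset

namespace Pool.Agent.Lib.MP_87840f_co.Spec

/-- weights on `Bool ⊕ Fin u`: `inl false` has weight 2, `inl true` has weight `e` -/
def sw (e u : ℕ) : Bool ⊕ Fin u → ℕ := Sum.elim (fun c => if c then e else 2) (fun _ => 1)

/-- the numbers on `Bool ⊕ Fin u` -/
def sm (M u : ℕ) : Bool ⊕ Fin u → ℕ := Sum.elim (fun c => if c then M else 3) (fun _ => 1)

private theorem powerset_bool : (univ : Finset (Finset Bool)) = {∅, {false}, {true}, {false, true}} := by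
  decide

private theorem sum_fin (u i k : ℕ) (hk : k ≤ i) (f : Finset (Fin u) → ℕ) :
    (∑ A' : Finset (Fin u), if k + A'.card = i then f A' else 0) =
      ∑ A' ∈ powersetCard (i - k) (univ : Finset (Fin u)), f A' := by
  rw [← Finset.sum_filter]
  refine Finset.sum_congr ?_ fun _ _ => rfl
  ext A'
  simp only [Finset.mem_filter, Finset.mem_univ, true_and, Finset.mem_powersetCard, Finset.subset_univ]
  omega

private theorem sum_wset (e u i : ℕ) (hi : e + 2 ≤ i) (f : Finset (Bool ⊕ Fin u) → ℕ) :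
    ∑ A ∈ wset (sw e u) i, f A =
      (∑ A' ∈ powersetCard i (univ : Finset (Fin u)), f ((∅ : Finset Bool).disjSum A')) +
      (∑ A' ∈ powersetCard (i - 2) (univ : Finset (Fin u)), f (({false} : Finset Bool).disjSum A')) +
      (∑ A' ∈ powersetCard (i - e) (univ : Finset (Fin u)), f (({true} : Finset Bool).disjSum A')) +
      ∑ A' ∈ powersetCard (i - 2 - e) (univ : Finset (Fin u)),
        f (({false, true} : Finset Bool).disjSum A') := by
  have h1 : ∑ A ∈ wset (sw e u) i, f A = ∑ p : Finset Bool × Finset (Fin u),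
      if (∑ c ∈ p.1, (if c then e else 2)) + p.2.card = i then f (p.1.disjSum p.2) else 0 := by
    unfold wset
    rw [Finset.sum_filter]
    refine Fintype.sum_equiv (Finset.sumEquiv (α := Bool) (β := Fin u)).toEquiv _ _ ?_
    intro A
    have hA : A.toLeft.disjSum A.toRight = A := Finset.toLeft_disjSum_toRight
    have hw : ∑ x ∈ A, sw e u x = (∑ c ∈ A.toLeft, (if c then e else 2)) + A.toRight.card := by
      conv_lhs => rw [← hA]
      rw [Finset.sum_disjSum]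
      simp [sw]
    show (if ∑ x ∈ A, sw e u x = i then f A else 0) =
      if (∑ c ∈ A.toLeft, (if c then e else 2)) + A.toRight.card = i then
        f (A.toLeft.disjSum A.toRight) else 0
    rw [hw, hA]
  rw [h1, Fintype.sum_prod_type, powerset_bool, Finset.sum_insert (by decide), Finset.sum_insert (by decide),
    Finset.sum_insert (by decide), Finset.sum_singleton]
  have e0 : (∑ c ∈ (∅ : Finset Bool), (if c then e else 2)) = 0 := by simp
  have e1 : (∑ c ∈ ({false} : Finset Bool), (if c then e else 2)) = 2 := by simp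
  have e2 : (∑ c ∈ ({true} : Finset Bool), (if c then e else 2)) = e := by simp
  have e3 : (∑ c ∈ ({false, true} : Finset Bool), (if c then e else 2)) = 2 + e := by
    rw [Finset.sum_pair (by decide)]
    simp
  simp only [e0, e1, e2, e3]
  rw [sum_fin u i 0 (by omega), sum_fin u i 2 (by omega), sum_fin u i e (by omega),
    sum_fin u i (2 + e) (by omega)]
  rw [show i - 0 = i by omega, show i - (2 + e) = i - 2 - e by omega]
  ring

private theorem prod_sm (M u : ℕ) (S : Finset Bool) (A' : Finset (Fin u)) :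
    ∏ x ∈ S.disjSum A', sm M u x = ∏ c ∈ S, (if c then M else 3) := by
  rw [Finset.prod_disjSum]
  simp [sm]

private theorem compl_disjSum' {u : ℕ} (S : Finset Bool) (A' : Finset (Fin u)) :
    (S.disjSum A')ᶜ = Sᶜ.disjSum A'ᶜ := by
  ext x
  rcases x with x | x <;> simp

private theorem sum_prod_wset (M e u i : ℕ) (hi : e + 2 ≤ i) :
    ∑ A ∈ wset (sw e u) i, ∏ x ∈ A, sm M u x = Wp u i + M * Wp u (i - e) := by
  rw [sum_wset e u i hi]
  simp only [prod_sm, Finset.sum_const, Finset.card_powersetCard, Finset.card_univ, Fintype.card_fin,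
    smul_eq_mul]
  have p0 : (∏ c ∈ (∅ : Finset Bool), (if c then M else 3)) = 1 := by simp
  have p1 : (∏ c ∈ ({false} : Finset Bool), (if c then M else 3)) = 3 := by simp
  have p2 : (∏ c ∈ ({true} : Finset Bool), (if c then M else 3)) = M := by simp
  have p3 : (∏ c ∈ ({false, true} : Finset Bool), (if c then M else 3)) = 3 * M := by
    rw [Finset.prod_pair (by decide)]
    simp
  rw [p0, p1, p2, p3]
  unfold Wp
  rw [show i - 2 - e = i - e - 2 by omega]
  ring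

theorem switch_count (n e M k1 k3 : ℕ) (he : 1 ≤ e) (hn : e + 6 ≤ n) (hM : 3 ≤ M)
    (h1 : k1 ≤ (2 * n - 6 - e).choose (n - 2 - e))
    (h3 : k3 ≤ (2 * n - 6 - e).choose (n - 4 - e)) :
    ∃ B : Finset (Finset (Bool ⊕ Fin (2 * n - 6 - e))),
      B ⊆ wset (sw e (2 * n - 6 - e)) (n - 2) ∧
      (∑ A ∈ wset (sw e (2 * n - 6 - e)) n, ∏ x ∈ A, sm M _ x) +
      3 * (∑ A ∈ wset (sw e (2 * n - 6 - e)) (n - 1), ∏ x ∈ A, sm M _ x) +
      2 * (∑ A ∈ wset (sw e (2 * n - 6 - e)) (n - 2), ∏ x ∈ A, sm M _ x) +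
      (∑ A ∈ wset (sw e (2 * n - 6 - e)) (n - 3), ∏ x ∈ A, sm M _ x) +
      (∑ A ∈ B, ∏ x ∈ A, sm M _ x) +
      ∑ A ∈ wset (sw e (2 * n - 6 - e)) (n - 2) \ B, ∏ x ∈ Aᶜ, sm M _ x =
      M * Df n e + Rf n e + k1 * (M - 3) + k3 * (3 * M - 1) := by
  obtain ⟨u, hu⟩ : ∃ u, u = 2 * n - 6 - e := ⟨_, rfl⟩
  rw [← hu] at h1 h3 ⊢
  have hc1 : k1 ≤ (powersetCard (n - 2 - e) (univ : Finset (Fin u))).card := by
    rw [Finset.card_powersetCard, Finset.card_univ, Fintype.card_fin]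
    exact h1
  have hc3 : k3 ≤ (powersetCard (n - 4 - e) (univ : Finset (Fin u))).card := by
    rw [Finset.card_powersetCard, Finset.card_univ, Fintype.card_fin]
    exact h3
  obtain ⟨K1, hK1, hk1⟩ := Finset.exists_subset_card_eq hc1
  obtain ⟨K3, hK3, hk3⟩ := Finset.exists_subset_card_eq hc3
  obtain ⟨p, hp⟩ : ∃ p : Finset (Bool ⊕ Fin u) → Prop, ∀ A, p A ↔
      (true ∉ A.toLeft ∨ (false ∉ A.toLeft ∧ A.toRight ∈ K1) ∨ (false ∈ A.toLeft ∧ A.toRight ∈ K3)) :=
    ⟨_, fun _ => Iff.rfl⟩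
  have hp0 : ∀ A' : Finset (Fin u), p ((∅ : Finset Bool).disjSum A') := by
    intro A'
    rw [hp]
    left
    simp
  have hp1 : ∀ A' : Finset (Fin u), p (({false} : Finset Bool).disjSum A') := by
    intro A'
    rw [hp]
    left
    simp
  have hp2 : ∀ A' : Finset (Fin u), p (({true} : Finset Bool).disjSum A') ↔ A' ∈ K1 := by
    intro A'
    simp [hp]
  have hp3 : ∀ A' : Finset (Fin u), p (({false, true} : Finset Bool).disjSum A') ↔ A' ∈ K3 := by
    intro A'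
    simp [hp]
  classical
  refine ⟨(wset (sw e u) (n - 2)).filter p, Finset.filter_subset _ _, ?_⟩
  rw [← Finset.filter_not, Finset.sum_filter, Finset.sum_filter, sum_prod_wset M e u n (by omega),
    sum_prod_wset M e u (n - 1) (by omega), sum_prod_wset M e u (n - 2) (by omega),
    sum_prod_wset M e u (n - 3) (by omega), sum_wset e u (n - 2) (by omega),
    sum_wset e u (n - 2) (by omega)]
  have p0 : (∏ c ∈ (∅ : Finset Bool), (if c then M else 3)) = 1 := by simp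
  have p1 : (∏ c ∈ ({false} : Finset Bool), (if c then M else 3)) = 3 := by simp
  have p2 : (∏ c ∈ ({true} : Finset Bool), (if c then M else 3)) = M := by simp
  have p3 : (∏ c ∈ ({false, true} : Finset Bool), (if c then M else 3)) = 3 * M := by
    rw [Finset.prod_pair (by decide)]
    simp
  have c2 : (({true} : Finset Bool)ᶜ) = {false} := by decide
  have c3 : (({false, true} : Finset Bool)ᶜ) = ∅ := by decide
  have cnt : ∀ (i k : ℕ) (K : Finset (Finset (Fin u))) (a : ℕ), K ⊆ powersetCard i (univ : Finset (Fin u)) →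
      K.card = k → (∑ A' ∈ powersetCard i (univ : Finset (Fin u)), if A' ∈ K then a else 0) = k * a := by
    intro i k K a hK hk
    rw [← Finset.sum_filter, Finset.sum_const, smul_eq_mul]
    have : (powersetCard i (univ : Finset (Fin u))).filter (fun A' => A' ∈ K) = K := by
      ext A'
      rw [Finset.mem_filter]
      exact ⟨fun h => h.2, fun h => ⟨hK h, h⟩⟩
    rw [this, hk]
  have cnt' : ∀ (i k : ℕ) (K : Finset (Finset (Fin u))) (a : ℕ), K ⊆ powersetCard i (univ : Finset (Fin u)) →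
      K.card = k → (∑ A' ∈ powersetCard i (univ : Finset (Fin u)), if A' ∉ K then a else 0) =
        (u.choose i - k) * a := by
    intro i k K a hK hk
    rw [← Finset.sum_filter, Finset.sum_const, smul_eq_mul]
    have h5 : (powersetCard i (univ : Finset (Fin u))).filter (fun A' => A' ∉ K) =
        powersetCard i (univ : Finset (Fin u)) \ K := by
      ext A'
      rw [Finset.mem_filter, Finset.mem_sdiff]
    rw [h5, Finset.card_sdiff_of_subset hK, hk, Finset.card_powersetCard, Finset.card_univ, Fintype.card_fin]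
  simp only [hp0, hp1, hp2, hp3, prod_sm, compl_disjSum', c2, c3, p0, p1, p2, p3, if_true,
    if_false, Finset.sum_const, Finset.card_powersetCard, Finset.card_univ, Fintype.card_fin,
    smul_eq_mul, not_true_eq_false]
  have hK3' : K3 ⊆ powersetCard (n - 2 - 2 - e) (univ : Finset (Fin u)) := by
    rw [show n - 2 - 2 - e = n - 4 - e by omega]
    exact hK3
  rw [cnt _ _ K1 M hK1 hk1, cnt _ _ K3 (3 * M) hK3' hk3, cnt' _ _ K1 3 hK1 hk1, cnt' _ _ K3 1 hK3' hk3]
  unfold Df Rf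
  rw [← hu]
  have r1 : n - 1 - e = n - 1 - e := rfl
  obtain ⟨d1, hd1⟩ := Nat.exists_eq_add_of_le h1
  obtain ⟨d3, hd3⟩ := Nat.exists_eq_add_of_le h3
  obtain ⟨M', rfl⟩ := Nat.exists_eq_add_of_le hM
  rw [show n - 2 - 2 - e = n - 4 - e by omega, hd1, hd3]
  rw [show k1 + d1 - k1 = d1 by omega, show k3 + d3 - k3 = d3 by omega,
    show 3 + M' - 3 = M' by omega, show 3 * (3 + M') - 1 = 8 + 3 * M' by omega]
  have hW : Wp u (n - 2) = u.choose (n - 2) + 3 * u.choose (n - 2 - 2) := rfl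
  rw [hW]
  ring


end Pool.Agent.Lib.MP_87840f_co.Spec
end

section

/-!
# MP_87840f_co, edge spectrum, ES8: the sum over the switch hypergraph

SH is a union of images with different first components (pats, {0,1}, {2,3} are nine different
subsets of Fin 4), disjSum is injective in both arguments, and the product over P.disjSum A is the
product over A of m (Finset.prod_disjSum; the left factors are 1). The patterns with 0, 1, 2, 3
elements are 1, 3, 2, 1 in number. (A ↦ Aᶜ is injective.)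
-/

open Finset

namespace Pool.Agent.Lib.MP_87840f_co.Spec

private lemma sum_image_disj {V : Type*} [Fintype V] [DecidableEq V] (m : V → ℕ)
    (P : Finset (Fin 4)) (S : Finset (Finset V)) (g : Finset V → Finset V)
    (hg : Function.Injective g) :
    ∑ E ∈ S.image (fun A => P.disjSum (g A)), ∏ i ∈ E, Sum.elim (fun _ => 1) m i =
      ∑ A ∈ S, ∏ x ∈ g A, m x := by
  rw [Finset.sum_image]
  · refine Finset.sum_congr rfl fun A _ => ?_
    rw [Finset.prod_disjSum]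
    simp
  · intro A _ B _ h
    apply hg
    have := congrArg Finset.toRight h
    simpa using this

private lemma toLeft_of_mem {V : Type*} [Fintype V] [DecidableEq V]
    (P : Finset (Fin 4)) (S : Finset (Finset V)) (g : Finset V → Finset V)
    (E : Finset (Fin 4 ⊕ V)) (h : E ∈ S.image (fun A => P.disjSum (g A))) :
    E.toLeft = P := by
  rw [Finset.mem_image] at h
  obtain ⟨A, _, rfl⟩ := h
  simp

theorem switch_sum {V : Type*} [Fintype V] [DecidableEq V] (w m : V → ℕ) (n : ℕ)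
    (hn : 4 ≤ n) (B : Finset (Finset V)) (hB : B ⊆ wset w (n - 2)) :
    ∑ E ∈ SH w n B, ∏ i ∈ E, Sum.elim (fun _ => 1) m i =
      (∑ A ∈ wset w n, ∏ x ∈ A, m x) + 3 * (∑ A ∈ wset w (n - 1), ∏ x ∈ A, m x) +
      2 * (∑ A ∈ wset w (n - 2), ∏ x ∈ A, m x) + (∑ A ∈ wset w (n - 3), ∏ x ∈ A, m x) +
      (∑ A ∈ B, ∏ x ∈ A, m x) + ∑ A ∈ wset w (n - 2) \ B, ∏ x ∈ Aᶜ, m x := by
  have hL1 : ∀ E ∈ pats.biUnion (fun P => (wset w (n - P.card)).image
      (fun A => P.disjSum A)), E.toLeft ∈ pats := by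
    intro E hE
    rw [Finset.mem_biUnion] at hE
    obtain ⟨P, hP, hE⟩ := hE
    rw [toLeft_of_mem P _ (fun A => A) E hE]
    exact hP
  unfold SH
  rw [Finset.sum_union, Finset.sum_union, Finset.sum_biUnion]
  · have h1 : ∀ P ∈ pats, ∑ E ∈ (wset w (n - P.card)).image (fun A => P.disjSum A),
        ∏ i ∈ E, Sum.elim (fun _ => 1) m i = ∑ A ∈ wset w (n - P.card), ∏ x ∈ A, m x := by
      intro P _
      exact sum_image_disj m P _ (fun A => A) (fun _ _ h => h)
    rw [Finset.sum_congr rfl h1,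
      sum_image_disj m {0, 1} B (fun A => A) (fun _ _ h => h),
      sum_image_disj m {2, 3} _ (fun A => Aᶜ) compl_injective]
    have h2 : ∀ f : Finset (Fin 4) → ℕ, ∑ P ∈ pats, f P =
        f ∅ + f {1} + f {2} + f {3} + f {0, 2} + f {0, 3} + f {1, 2, 3} := by
      intro f
      unfold pats
      rw [Finset.sum_insert (by decide), Finset.sum_insert (by decide),
        Finset.sum_insert (by decide), Finset.sum_insert (by decide),
        Finset.sum_insert (by decide), Finset.sum_insert (by decide), Finset.sum_singleton]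
      ring
    rw [h2]
    have c0 : (∅ : Finset (Fin 4)).card = 0 := rfl
    have c1 : ({1} : Finset (Fin 4)).card = 1 := rfl
    have c2 : ({2} : Finset (Fin 4)).card = 1 := rfl
    have c3 : ({3} : Finset (Fin 4)).card = 1 := rfl
    have c4 : ({0, 2} : Finset (Fin 4)).card = 2 := rfl
    have c5 : ({0, 3} : Finset (Fin 4)).card = 2 := rfl
    have c6 : ({1, 2, 3} : Finset (Fin 4)).card = 3 := rfl
    rw [c0, c1, c2, c3, c4, c5, c6, Nat.sub_zero]
    ring
  · intro P _ Q _ hPQ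
    simp only [Function.onFun]
    rw [Finset.disjoint_left]
    intro E h1 h2
    exact hPQ ((toLeft_of_mem P _ (fun A => A) E h1).symm.trans
      (toLeft_of_mem Q _ (fun A => A) E h2))
  · rw [Finset.disjoint_left]
    intro E h1 h2
    have h3 := hL1 E h1
    rw [toLeft_of_mem {0, 1} _ (fun A => A) E h2] at h3
    revert h3
    decide
  · rw [Finset.disjoint_left]
    intro E h1 h2
    have h4 := toLeft_of_mem {2, 3} _ (fun A => Aᶜ) E h2
    rw [Finset.mem_union] at h1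
    rcases h1 with h1 | h1
    · have h3 := hL1 E h1
      rw [h4] at h3
      revert h3
      decide
    · have h3 := toLeft_of_mem {0, 1} _ (fun A => A) E h1
      rw [h4] at h3
      revert h3
      decide

end Pool.Agent.Lib.MP_87840f_co.Spec
end

section

/-!
# MP_87840f_co, edge spectrum, GS12: classical bounds

att_le (Erdos-Lovasz): F a clique as in Att, n ≥ 1. A set S with fewer than n elements is not a cover (a
cover contains an edge: otherwise colour S by 0 and the rest by 1, cf. theorem cover_contains_edge in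
Cover.lean), so some edge A is disjoint from S, and every edge containing S contains S ∪ {a} for some
a ∈ A. Hence d(S) := card {B ∈ F | S ⊆ B} ≤ n * max d(S ∪ {a}), by downward induction d(S) ≤ n^(n - card S)
for card S ≤ n, and F.card = d(∅) ≤ n^n. le_att: on a finite vertex set with v elements the number of
colourings for which a fixed edge is monochromatic is 2 * 2^(v-n), so if m * 2 * 2^(v-n) < 2^v
there is a proper 2-colouring.
-/

open Finset

namespace Pool.Agent.Lib.MP_87840f_co.Spec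

private theorem att_le_aux {n : ℕ} {F : Finset (Finset ℕ)} (hc : IsUniformClique n F)
    (h2 : ¬ ProperlyColourable 2 F) (k : ℕ) : ∀ S : Finset ℕ, S.card + k = n →
    (F.filter (fun B => S ⊆ B)).card ≤ n ^ k := by
  induction k with
  | zero =>
    intro S hS
    rw [pow_zero, card_le_one]
    intro A hA B hB
    rw [mem_filter] at hA hB
    have h1 : S = A := eq_of_subset_of_card_le hA.2 (by rw [hc.1 A hA.1]; omega)
    have h3 : S = B := eq_of_subset_of_card_le hB.2 (by rw [hc.1 B hB.1]; omega)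
    rw [← h1, ← h3]
  | succ k ih =>
    intro S hS
    have hne : ¬ ∀ B ∈ F, (S ∩ B).Nonempty := by
      intro h
      obtain ⟨B, hB, hBS⟩ := cover_contains_edge hc h2 S h
      have h1 := card_le_card hBS
      rw [hc.1 B hB] at h1
      omega
    push Not at hne
    obtain ⟨A, hA, hSA⟩ := hne
    have hsub : F.filter (fun B => S ⊆ B) ⊆
        A.biUnion (fun a => F.filter (fun B => insert a S ⊆ B)) := by
      intro B hB
      rw [mem_filter] at hB
      obtain ⟨a, haA, haB⟩ := hc.2 A hA B hB.1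
      rw [mem_biUnion]
      exact ⟨a, haA, mem_filter.2 ⟨hB.1, insert_subset haB hB.2⟩⟩
    refine (card_le_card hsub).trans ?_
    have hb : ∀ a ∈ A, (F.filter (fun B => insert a S ⊆ B)).card ≤ n ^ k := by
      intro a ha
      apply ih
      have haS : a ∉ S := by
        intro haS
        have : a ∈ S ∩ A := mem_inter.2 ⟨haS, ha⟩
        rw [hSA] at this
        simp at this
      rw [card_insert_of_notMem haS]
      omega
    refine (card_biUnion_le_card_mul A _ (n ^ k) hb).trans ?_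
    rw [hc.1 A hA, pow_succ']

theorem att_le {n m : ℕ} (h : Att n m) : m ≤ n ^ n := by
  obtain ⟨F, hc, h2, hm⟩ := h
  have h1 := att_le_aux hc h2 n ∅ (by simp)
  rw [filter_true_of_mem (fun B _ => empty_subset B)] at h1
  rw [← hm]
  exact h1

theorem le_att {n m : ℕ} (h : Att n m) : 2 ^ (n - 1) ≤ m := by
  obtain ⟨F, hc, h2, hm⟩ := h
  by_contra hlt
  push Not at hlt
  apply h2
  rcases F.eq_empty_or_nonempty with hF | hF
  · exact ⟨fun _ => 0, by simp [hF]⟩
  obtain ⟨A₀, hA₀⟩ := hF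
  have hn : 1 ≤ n := by
    obtain ⟨x, hx, _⟩ := hc.2 A₀ hA₀ A₀ hA₀
    rw [← hc.1 A₀ hA₀]
    exact card_pos.2 ⟨x, hx⟩
  set V : Finset ℕ := F.biUnion id with hV
  have hAV : ∀ A ∈ F, A ⊆ V := fun A hA => subset_biUnion_of_mem id hA
  have hnv : n ≤ V.card := by
    rw [← hc.1 A₀ hA₀]
    exact card_le_card (hAV A₀ hA₀)
  -- the bad colour classes
  set Bad : Finset (Finset ℕ) := F.biUnion (fun A => Icc A V ∪ (V \ A).powerset) with hBad
  have hcard : Bad.card ≤ m * (2 * 2 ^ (V.card - n)) := by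
    rw [← hm]
    apply card_biUnion_le_card_mul
    intro A hA
    refine (card_union_le _ _).trans ?_
    rw [card_Icc_finset (hAV A hA), card_powerset, card_sdiff_of_subset (hAV A hA), hc.1 A hA]
    omega
  have hlt2 : Bad.card < V.powerset.card := by
    rw [card_powerset]
    calc Bad.card ≤ m * (2 * 2 ^ (V.card - n)) := hcard
      _ < 2 ^ (n - 1) * (2 * 2 ^ (V.card - n)) :=
        Nat.mul_lt_mul_of_pos_right hlt (by positivity)
      _ = 2 ^ V.card := by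
        rw [← mul_assoc, ← pow_succ, ← pow_add]
        congr 1
        omega
  obtain ⟨S, hS, hSB⟩ := exists_mem_notMem_of_card_lt_card hlt2
  rw [mem_powerset] at hS
  refine ⟨fun x => if x ∈ S then 0 else 1, fun A hA => ?_⟩
  rintro ⟨i, hi⟩
  apply hSB
  rw [hBad, mem_biUnion]
  refine ⟨A, hA, ?_⟩
  rw [mem_union]
  by_cases hi0 : i = 0
  · left
    rw [mem_Icc]
    refine ⟨fun x hx => ?_, hS⟩
    by_contra hxS
    have h1 := hi x hx
    beta_reduce at h1
    rw [if_neg hxS, hi0] at h1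
    exact absurd h1 (by decide)
  · right
    rw [mem_powerset]
    intro x hx
    rw [mem_sdiff]
    refine ⟨hS hx, fun hxA => ?_⟩
    have h1 := hi x hxA
    beta_reduce at h1
    rw [if_pos hx] at h1
    exact hi0 h1.symm


end Pool.Agent.Lib.MP_87840f_co.Spec
end

section

/-!
# MP_87840f_co, edge spectrum, GS8: choice of k and b

choose_kb: let k0 = (n-1)/w - 2 and k = k0 - ρ with 0 ≤ ρ < n1 G chosen by the Chinese remainder
theorem: k ≡ 1 - (1+n)^2 mod n1, and (k+2) w ≡ n - 1 mod G (w is invertible mod G). n1 and G are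
coprime because n1 | w. b = n - (k+2) w. coprime_gd: let p be a prime factor of 2 M w d and of
D = GD k b M = k M^2 + (M+b)^2. If p | n1: M ≡ 1, b ≡ n (as n1 | w), D ≡ k + (1+n)^2 ≡ 1 mod p. Otherwise
p | M and p | G: D ≡ b^2 ≡ 1 mod p. Contradiction in both cases.
-/

open Finset

namespace Pool.Agent.Lib.MP_87840f_co.Spec

theorem choose_kb (n1 G w n : ℕ) (h1 : 2 ≤ n1) (hG : 1 ≤ G) (hw : 1 ≤ w) (hn1w : n1 ∣ w)
    (hwG : Nat.Coprime w G) (hn : (n1 * G + 3) * w ≤ n) :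
    ∃ k b : ℕ, n = (k + 2) * w + b ∧ 1 ≤ b ∧ b ≤ (n1 * G + 1) * w ∧
      (k + (1 + n) ^ 2) % n1 = 1 % n1 ∧ b % G = 1 % G := by
  have hco : Nat.Coprime n1 G := Nat.Coprime.coprime_dvd_left hn1w hwG
  have : NeZero G := ⟨by omega⟩
  set m := n1 * G with hm
  have hm1 : 1 ≤ m := Nat.mul_pos (by omega) (by omega)
  -- the residue modulo `G`
  let u := ZMod.unitOfCoprime w hwG
  have hu : ((u : (ZMod G)ˣ) : ZMod G) = (w : ZMod G) := ZMod.coe_unitOfCoprime w hwG
  set r2 : ℕ := (((n : ZMod G) - 1) * ((u⁻¹ : (ZMod G)ˣ) : ZMod G) - 2).val with hr2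
  have hr2' : ((r2 : ℕ) : ZMod G) = ((n : ZMod G) - 1) * ((u⁻¹ : (ZMod G)ˣ) : ZMod G) - 2 := by
    rw [hr2, ZMod.natCast_zmod_val]
  obtain ⟨t, ht1, ht2⟩ := Nat.chineseRemainder hco ((n1 - 1) * (1 + n) ^ 2 + 1) r2
  set q := (n - 1) / w with hq
  have hqm : m + 2 ≤ q := by
    rw [hq, Nat.le_div_iff_mul_le (by omega)]
    have h2 : (m + 3) * w = (m + 2) * w + w := by ring
    omega
  set k0 := q - 2 with hk0
  set ρ := (k0 + (m - 1) * t) % m with hρ
  have hρm : ρ < m := Nat.mod_lt _ (by omega)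
  set k := k0 - ρ with hk
  have hkρ : k + ρ = k0 := by omega
  have hmod : k ≡ t [MOD m] := by
    have e1 : k + (m - 1) * t + ρ ≡ 0 + ρ [MOD m] := by
      have e2 : k0 + (m - 1) * t ≡ ρ [MOD m] := (Nat.mod_modEq _ _).symm
      rw [← hkρ] at e2
      have e3 : k + (m - 1) * t + ρ = k + ρ + (m - 1) * t := by ring
      rw [e3, zero_add]
      exact e2
    have e4 : k + (m - 1) * t ≡ 0 [MOD m] := Nat.ModEq.add_right_cancel' ρ e1
    have e5 : k + (m - 1) * t + t ≡ 0 + t [MOD m] := e4.add_right t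
    have e6 : k + (m - 1) * t + t = k + m * t := by
      obtain ⟨m', hm'⟩ : ∃ m', m = m' + 1 := ⟨m - 1, by omega⟩
      rw [hm']
      simp only [Nat.add_sub_cancel]
      ring
    rw [e6, zero_add] at e5
    have e7 : k + m * t ≡ k [MOD m] := by
      simp [Nat.ModEq]
    exact e7.symm.trans e5
  have hk1 : k ≡ (n1 - 1) * (1 + n) ^ 2 + 1 [MOD n1] :=
    (hmod.of_mul_right G).trans ht1
  have hk2 : k ≡ r2 [MOD G] := (hmod.of_mul_left n1).trans ht2
  have hqw : q * w ≤ n - 1 := Nat.div_mul_le_self _ _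
  have hqw2 : n - 1 < (q + 1) * w := by
    have := Nat.lt_succ_iff.2 (le_refl q)
    rw [hq]
    exact Nat.lt_mul_of_div_lt (by omega) (by omega)
  have hkq : (k + 2) * w ≤ q * w := Nat.mul_le_mul_right _ (by omega)
  have hn1 : 1 ≤ n := by
    have : 1 ≤ (m + 3) * w := Nat.mul_pos (by omega) (by omega)
    omega
  refine ⟨k, n - (k + 2) * w, by omega, by omega, ?_, ?_, ?_⟩
  · have h3 : q * w ≤ (k + 2) * w + (m - 1) * w := by
      rw [← Nat.add_mul]
      exact Nat.mul_le_mul_right _ (by omega)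
    have h4 : (q + 1) * w = q * w + w := by ring
    have h5 : (m + 1) * w = (m - 1) * w + w + w := by
      obtain ⟨m', hm'⟩ : ∃ m', m = m' + 1 := ⟨m - 1, by omega⟩
      rw [hm']
      simp only [Nat.add_sub_cancel]
      ring
    omega
  · have h3 : k + (1 + n) ^ 2 ≡ 1 [MOD n1] := by
      have h4 : k + (1 + n) ^ 2 ≡ (n1 - 1) * (1 + n) ^ 2 + 1 + (1 + n) ^ 2 [MOD n1] :=
        hk1.add_right _
      have h5 : (n1 - 1) * (1 + n) ^ 2 + 1 + (1 + n) ^ 2 = 1 + n1 * (1 + n) ^ 2 := by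
        obtain ⟨m', hm'⟩ : ∃ m', n1 = m' + 1 := ⟨n1 - 1, by omega⟩
        rw [hm']
        simp only [Nat.add_sub_cancel]
        ring
      rw [h5] at h4
      refine h4.trans ?_
      simp [Nat.ModEq]
    exact h3
  · have h3 : ((n - (k + 2) * w : ℕ) : ZMod G) = ((1 : ℕ) : ZMod G) := by
      have h4 : (k + 2) * w ≤ n := by omega
      have h5 : ((k : ℕ) : ZMod G) = ((r2 : ℕ) : ZMod G) :=
        (ZMod.natCast_eq_natCast_iff _ _ _).2 hk2
      rw [Nat.cast_sub h4]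
      push_cast
      rw [h5, hr2', ← hu]
      have h6 : (((n : ZMod G) - 1) * ((u⁻¹ : (ZMod G)ˣ) : ZMod G) - 2 + 2)
          * ((u : (ZMod G)ˣ) : ZMod G) = (n : ZMod G) - 1 := by
        rw [sub_add_cancel, mul_assoc, Units.inv_mul, mul_one]
      rw [h6]
      ring
    exact (ZMod.natCast_eq_natCast_iff _ _ _).1 h3

theorem coprime_gd (n1 G M w d k b n : ℕ) (h1 : 2 ≤ n1) (hM : M % n1 = 1) (hn1w : n1 ∣ w)
    (hn : n = (k + 2) * w + b) (hk : (k + (1 + n) ^ 2) % n1 = 1 % n1) (hb : b % G = 1 % G)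
    (hp : ∀ p : ℕ, p.Prime → p ∣ 2 * M * w * d → p ∣ n1 ∨ (p ∣ G ∧ p ∣ M)) :
    Nat.Coprime (2 * M * w * d) (GD k b M) := by
  by_contra hcon
  obtain ⟨p, hpp, hp1, hp2⟩ := Nat.Prime.not_coprime_iff_dvd.1 hcon
  have : Fact p.Prime := ⟨hpp⟩
  have hgd : ((GD k b M : ℕ) : ZMod p) = 0 := (ZMod.natCast_eq_zero_iff _ _).2 hp2
  rw [GD] at hgd
  push_cast at hgd
  rcases hp p hpp hp1 with h | ⟨hpG, hpM⟩
  · have e1 : ((M : ℕ) : ZMod p) = ((1 : ℕ) : ZMod p) := by
      rw [ZMod.natCast_eq_natCast_iff]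
      refine Nat.ModEq.of_dvd h ?_
      show M % n1 = 1 % n1
      rw [hM, Nat.mod_eq_of_lt (by omega : 1 < n1)]
    have e2 : ((w : ℕ) : ZMod p) = 0 :=
      (ZMod.natCast_eq_zero_iff _ _).2 (h.trans hn1w)
    have e3 : ((k + (1 + n) ^ 2 : ℕ) : ZMod p) = ((1 : ℕ) : ZMod p) := by
      rw [ZMod.natCast_eq_natCast_iff]
      exact Nat.ModEq.of_dvd h hk
    have e4 : ((n : ℕ) : ZMod p) = ((b : ℕ) : ZMod p) := by
      rw [hn]
      push_cast
      rw [e2]
      ring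
    push_cast at e1 e3
    rw [e4] at e3
    rw [e1] at hgd
    have e5 : (1 : ZMod p) = 0 := by
      rw [← e3, ← hgd]
      ring
    exact one_ne_zero e5
  · have e1 : ((M : ℕ) : ZMod p) = 0 := (ZMod.natCast_eq_zero_iff _ _).2 hpM
    have e2 : ((b : ℕ) : ZMod p) = ((1 : ℕ) : ZMod p) := by
      rw [ZMod.natCast_eq_natCast_iff]
      exact Nat.ModEq.of_dvd hpG hb
    push_cast at e2
    rw [e1, e2] at hgd
    have e5 : (1 : ZMod p) = 0 := by
      rw [← hgd]
      ring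
    exact one_ne_zero e5


end Pool.Agent.Lib.MP_87840f_co.Spec
end

section

/-!
# MP_87840f_co, edge spectrum, GS2: weights in the general typed hypergraph

As TypedWeight.lean: all edges have weight (k+2) w + b. pat θ has weight k w, Q β A has weight w,
Qd β f has weight w + b, x has weight k w + b, z has weight w; all unions are disjoint.
-/

open Finset

namespace Pool.Agent.Lib.MP_87840f_co.Spec

private theorem gw11_sum_pat {k w b : ℕ} (θ : Fin k → Bool) :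
    ∑ i ∈ (GV.pat θ : Finset (GV k w b)), GV.wt i = k * w := by
  unfold GV.pat
  rw [Finset.sum_image]
  · simp [GV.wt, Finset.sum_const]
  · intro i _ j _ h
    simp only [GV.s.injEq] at h
    exact h.1

private theorem gw11_sum_Q {k w b : ℕ} (β : Bool) (p : Option (Fin b)) :
    ∑ i ∈ (GV.Q β p : Finset (GV k w b)), GV.wt i = w := by
  cases p with
  | none => simp [GV.Q, GV.wt]
  | some t =>
    unfold GV.Q
    rw [Finset.sum_image]
    · simp [GV.wt]
    · intro i _ j _ h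
      simp only [GV.v.injEq] at h
      exact h.2.2

private theorem gw11_sum_Qd {k w b : ℕ} (β : Bool) (f : Fin b → Fin w) :
    ∑ i ∈ (GV.Qd β f : Finset (GV k w b)), GV.wt i = w + b := by
  unfold GV.Qd
  rw [Finset.sum_insert, Finset.sum_image]
  · simp [GV.wt]
  · intro i _ j _ h
    simp only [GV.v.injEq] at h
    exact h.2.1
  · simp

private theorem gw11_mem_pat {k w b : ℕ} {θ : Fin k → Bool} {u : GV k w b} :
    u ∈ (GV.pat θ : Finset (GV k w b)) ↔ ∃ i, GV.s i (θ i) = u := by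
  simp [GV.pat]

private theorem gw11_mem_Q {k w b : ℕ} {β : Bool} {p : Option (Fin b)} {u : GV k w b}
    (h : u ∈ (GV.Q β p : Finset (GV k w b))) : u = GV.y β ∨ ∃ j c, u = GV.v β j c := by
  cases p with
  | none => left; simpa [GV.Q] using h
  | some t =>
    right
    simp only [GV.Q, Finset.mem_image, Finset.mem_univ, true_and] at h
    obtain ⟨j, hj⟩ := h
    exact ⟨t, j, hj.symm⟩

private theorem gw11_mem_Qd {k w b : ℕ} {β : Bool} {f : Fin b → Fin w} {u : GV k w b}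
    (h : u ∈ (GV.Qd β f : Finset (GV k w b))) : u = GV.y β ∨ ∃ j c, u = GV.v β j c := by
  simp only [GV.Qd, Finset.mem_insert, Finset.mem_image, Finset.mem_univ, true_and] at h
  rcases h with h | ⟨t, ht⟩
  · left; exact h
  · right; exact ⟨t, f t, ht.symm⟩

private theorem gw11_disj_pat_Qd {k w b : ℕ} (θ : Fin k → Bool) (β : Bool) (f : Fin b → Fin w) :
    Disjoint (GV.pat θ : Finset (GV k w b)) (GV.Qd β f) := by
  rw [Finset.disjoint_left]
  intro u h1 h2
  obtain ⟨i, hi⟩ := gw11_mem_pat.1 h1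
  rcases gw11_mem_Qd h2 with h | ⟨j, c, h⟩ <;> · rw [← hi] at h; cases h

private theorem gw11_disj_pat_Q {k w b : ℕ} (θ : Fin k → Bool) (β : Bool)
    (p : Option (Fin b)) :
    Disjoint (GV.pat θ : Finset (GV k w b)) (GV.Q β p) := by
  rw [Finset.disjoint_left]
  intro u h1 h2
  obtain ⟨i, hi⟩ := gw11_mem_pat.1 h1
  rcases gw11_mem_Q h2 with h | ⟨j, c, h⟩ <;> · rw [← hi] at h; cases h

private theorem gw11_disj_Qd_Q {k w b : ℕ} (β : Bool) (f : Fin b → Fin w)
    (p : Option (Fin b)) :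
    Disjoint (GV.Qd β f : Finset (GV k w b)) (GV.Q (!β) p) := by
  rw [Finset.disjoint_left]
  intro u h1 h2
  rcases gw11_mem_Qd h1 with h | ⟨j, c, h⟩ <;> rcases gw11_mem_Q h2 with h' | ⟨j', c', h'⟩ <;>
    rw [h] at h' <;> cases β <;> cases h'

private theorem gw11_disj_Q_Q {k w b : ℕ} (p q : Option (Fin b)) :
    Disjoint (GV.Q false p : Finset (GV k w b)) (GV.Q true q) := by
  rw [Finset.disjoint_left]
  intro u h1 h2
  rcases gw11_mem_Q h1 with h | ⟨j, c, h⟩ <;> rcases gw11_mem_Q h2 with h' | ⟨j', c', h'⟩ <;>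
    rw [h] at h' <;> cases h'

theorem gh_weight (k w b : ℕ) (hw : 1 ≤ w) (hb : 1 ≤ b) :
    ∀ A ∈ GH k w b, ∑ i ∈ A, GV.wt i = (k + 2) * w + b := by
  intro A hA
  rw [add_mul]
  simp only [GH, Finset.mem_union] at hA
  rcases hA with (((hA | hA) | hA) | hA) | hA
  · simp only [GH1, Finset.mem_image, Finset.mem_univ, true_and] at hA
    obtain ⟨i, rfl⟩ := hA
    rw [Finset.sum_insert (by simp), Finset.sum_insert (by simp), Finset.sum_singleton]
    simp only [GV.wt]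
    omega
  · simp only [GH2, Finset.mem_image, Finset.mem_univ, true_and] at hA
    obtain ⟨p, rfl⟩ := hA
    rw [Finset.sum_insert, Finset.sum_union (gw11_disj_Q_Q p.1 p.2), gw11_sum_Q, gw11_sum_Q]
    · simp only [GV.wt]
      omega
    · intro h
      rcases Finset.mem_union.1 h with h | h <;>
        rcases gw11_mem_Q h with h' | ⟨j', c', h'⟩ <;> cases h'
  · simp only [GH3, Finset.mem_image, Finset.mem_univ, true_and] at hA
    obtain ⟨p, rfl⟩ := hA
    rw [Finset.sum_insert, Finset.sum_union (gw11_disj_pat_Qd _ _ _), gw11_sum_pat, gw11_sum_Qd]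
    · simp only [GV.wt]
      omega
    · intro h
      rcases Finset.mem_union.1 h with h | h
      · obtain ⟨i, hi⟩ := gw11_mem_pat.1 h
        cases hi
      · rcases gw11_mem_Qd h with h' | ⟨j', c', h'⟩ <;> cases h'
  · simp only [GH4, Finset.mem_image, Finset.mem_filter, Finset.mem_univ, true_and] at hA
    obtain ⟨p, hp, rfl⟩ := hA
    rw [Finset.sum_insert, Finset.sum_union (gw11_disj_pat_Qd _ _ _), gw11_sum_pat, gw11_sum_Qd]
    · simp only [GV.wt]
      omega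
    · intro h
      rcases Finset.mem_union.1 h with h | h
      · obtain ⟨i, hi⟩ := gw11_mem_pat.1 h
        simp only [GV.s.injEq] at hi
        obtain ⟨h1, h2⟩ := hi
        rw [h1, hp] at h2
        exact Bool.false_ne_true h2
      · rcases gw11_mem_Qd h with h' | ⟨j', c', h'⟩ <;> cases h'
  · simp only [GH5, Finset.mem_image, Finset.mem_univ, true_and] at hA
    obtain ⟨p, rfl⟩ := hA
    rw [Finset.sum_union, Finset.sum_union (gw11_disj_pat_Qd _ _ _), gw11_sum_pat, gw11_sum_Qd,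
      gw11_sum_Q]
    · omega
    · exact Finset.disjoint_union_left.2 ⟨gw11_disj_pat_Q _ _ _, gw11_disj_Qd_Q _ _ _⟩

end Pool.Agent.Lib.MP_87840f_co.Spec
end

section

/-!
# MP_87840f_co, edge spectrum, ES12: dense sets from one number

Let e be large, y in the range. For b with b even, b ≡ e mod 3, 3000 ≤ b ≤ e - 6 put
k = (e - 6 - b)/3 (so 3k + 6 + b = e, 3k + b = e - 6) and f(b) = m * DD k b + R_b, the number given by
typed_step k b with M = m, t = 0. f(b) is attained and even (DD k b is even because b is even: 10 + b^3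
even; R_b even). For large e, R_b ≤ 1100 * 20^k (k+1+b^3) ≤ m / 100, because k ≤ e/3, 20^(1/3) < 2.72 and
m ≥ 3^e. The smallest b, b0 in [3000, 3006), has DD ≤ 34 e + (10+3006^3)^2 ≤ 34 e + 10^21, so f(b0) ≤ y.
The largest b, b1 ≥ e - 11, has DD ≥ b1^6 ≥ (e-11)^6, so f(b1) ≥ (e-12)^6 m ≥ y. Consecutive values:
DD(k-2, b+6) ≤ 1.013 DD(k, b) for b ≥ 3000, so f(b+6) ≤ 1.013 m DD(k,b) + m/100 ≤ 1.02 f(b). Take
the smallest b = b0 + 6i with f(b) ≥ y: either b = b0 and f(b) = y, or f(b-6) < y and f(b) ≤ 1.02 y.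
-/

open Finset

namespace Pool.Agent.Lib.MP_87840f_co.Spec

private theorem aux_b (b : ℕ) (hb : 20 ≤ b) : 330000 * (1 + b ^ 3) ≤ 729 * 3 ^ b := by
  induction b, hb using Nat.le_induction with
  | base => norm_num
  | succ b hb ih =>
    have h1 : 330000 * (1 + (b + 1) ^ 3) ≤ 3 * (330000 * (1 + b ^ 3)) := by
      have : 3 * b ^ 2 + 3 * b ≤ 2 * b ^ 3 := by
        have h2 : b ^ 3 = b * (b * b) := by ring
        have h3 : b ^ 2 = b * b := by ring
        rw [h2, h3]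
        have h4 : 20 * (b * b) ≤ b * (b * b) := Nat.mul_le_mul_right _ hb
        have h5 : 20 * b ≤ b * b := Nat.mul_le_mul_right _ hb
        omega
      have h6 : (b + 1) ^ 3 = b ^ 3 + 3 * b ^ 2 + 3 * b + 1 := by ring
      rw [h6]
      omega
    calc 330000 * (1 + (b + 1) ^ 3) ≤ 3 * (330000 * (1 + b ^ 3)) := h1
      _ ≤ 3 * (729 * 3 ^ b) := Nat.mul_le_mul_left _ ih
      _ = 729 * 3 ^ (b + 1) := by ring

private theorem aux_k (k : ℕ) : (k + 1) * 20 ^ k ≤ 3 * 27 ^ k := by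
  induction k with
  | zero => norm_num
  | succ k ih =>
    by_cases hk : k ≤ 2
    · interval_cases k <;> norm_num
    · have h1 : (k + 1 + 1) * 20 ≤ (k + 1) * 27 := by omega
      calc (k + 1 + 1) * 20 ^ (k + 1) = ((k + 1 + 1) * 20) * 20 ^ k := by ring
        _ ≤ ((k + 1) * 27) * 20 ^ k := Nat.mul_le_mul_right _ h1
        _ = 27 * ((k + 1) * 20 ^ k) := by ring
        _ ≤ 27 * (3 * 27 ^ k) := Nat.mul_le_mul_left _ ih
        _ = 3 * 27 ^ (k + 1) := by ring

private theorem aux_R (k b m R : ℕ) (hb : 20 ≤ b) (hm : 3 ^ (3 * k + 6 + b) ≤ m)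
    (hR : R ≤ 1100 * 20 ^ k * (k + 1 + b ^ 3)) : 100 * R ≤ m := by
  have h1 : k + 1 + b ^ 3 ≤ (k + 1) * (1 + b ^ 3) := by
    have : (k + 1) * (1 + b ^ 3) = k + 1 + b ^ 3 + k * b ^ 3 := by ring
    rw [this]
    exact Nat.le_add_right _ _
  calc 100 * R ≤ 100 * (1100 * 20 ^ k * (k + 1 + b ^ 3)) := Nat.mul_le_mul_left _ hR
    _ ≤ 100 * (1100 * 20 ^ k * ((k + 1) * (1 + b ^ 3))) := by gcongr
    _ = 110000 * (1 + b ^ 3) * ((k + 1) * 20 ^ k) := by ring
    _ ≤ 110000 * (1 + b ^ 3) * (3 * 27 ^ k) := Nat.mul_le_mul_left _ (aux_k k)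
    _ = (330000 * (1 + b ^ 3)) * 27 ^ k := by ring
    _ ≤ (729 * 3 ^ b) * 27 ^ k := Nat.mul_le_mul_right _ (aux_b b hb)
    _ = 3 ^ (3 * k + 6 + b) := by
      rw [pow_add, pow_add, pow_mul]
      norm_num
      ring
    _ ≤ m := hm

private theorem aux_DD (k b : ℕ) (hb : 3000 ≤ b) :
    100 * DD k (b + 6) ≤ 104 * DD (k + 2) b := by
  unfold DD
  have h1 : (b + 6) * 500 ≤ b * 501 := by omega
  have h2 : ((b + 6) * 500) ^ 3 ≤ (b * 501) ^ 3 := Nat.pow_le_pow_left h1 3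
  have h3 : (b + 6) ^ 3 * 125000000 ≤ b ^ 3 * 125751501 := by
    calc (b + 6) ^ 3 * 125000000 = ((b + 6) * 500) ^ 3 := by ring
      _ ≤ (b * 501) ^ 3 := h2
      _ = b ^ 3 * 125751501 := by ring
  have h4 : (10 + (b + 6) ^ 3) * 125000000 ≤ (10 + b ^ 3) * 125751501 := by
    have : (b + 6) ^ 3 * 125000000 + 1250000000 ≤ b ^ 3 * 125751501 + 1257515010 :=
      add_le_add h3 (by norm_num)
    calc (10 + (b + 6) ^ 3) * 125000000 = (b + 6) ^ 3 * 125000000 + 1250000000 := by ring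
      _ ≤ b ^ 3 * 125751501 + 1257515010 := this
      _ = (10 + b ^ 3) * 125751501 := by ring
  have h5 : ((10 + (b + 6) ^ 3) * 125000000) ^ 2 ≤ ((10 + b ^ 3) * 125751501) ^ 2 :=
    Nat.pow_le_pow_left h4 2
  have h6 : 100 * (10 + (b + 6) ^ 3) ^ 2 ≤ 104 * (10 + b ^ 3) ^ 2 := by
    have h7 : (10 + (b + 6) ^ 3) ^ 2 * 125000000 ^ 2 ≤ (10 + b ^ 3) ^ 2 * 125751501 ^ 2 := by
      rw [← mul_pow, ← mul_pow]
      exact h5
    norm_num at h7
    omega
  omega

theorem dense_single : ∃ e0 : ℕ, ∀ e ≥ e0, ∀ m : ℕ, 3 ^ e ≤ m → Att (e - 6) m →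
    MDense e (2 * (100 * e + 10 ^ 22) * m) (((e : ℝ) - 12) ^ 6 * m) := by
  refine ⟨4000, fun e he m hm hA y hy1 hy2 => ?_⟩
  have hm1 : 1 ≤ m := le_trans (Nat.one_le_pow _ _ (by norm_num)) hm
  have hmR : (1 : ℝ) ≤ m := by exact_mod_cast hm1
  have hypos : 0 < y := by
    refine lt_of_lt_of_le ?_ hy1
    positivity
  obtain ⟨b0, k0, hb0, hb0', hev, hbk⟩ : ∃ b0 k0 : ℕ, 3000 ≤ b0 ∧ b0 ≤ 3004 ∧ Even b0 ∧
      3 * k0 + 6 + b0 = e := by
    refine ⟨3000 + (4 * e) % 6, (e - 6 - (3000 + (4 * e) % 6)) / 3, by omega, by omega, ?_, ?_⟩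
    · rw [Nat.even_iff]; omega
    · omega
  choose R hR2 hRle hRatt using fun k => fun b : ℕ => fun hb : 1 ≤ b => typed_step k b hb
  have hbi : ∀ i : ℕ, 1 ≤ b0 + 6 * i := fun i => by omega
  set g : ℕ → ℕ := fun i => m * DD (k0 - 2 * i) (b0 + 6 * i) +
    R (k0 - 2 * i) (b0 + 6 * i) (hbi i) with hg
  have hatt : ∀ i, 2 * i ≤ k0 → Att e (g i) := by
    intro i hi
    have h1 := hRatt (k0 - 2 * i) (b0 + 6 * i) (hbi i) m 0
      (by
        have : 3 * (k0 - 2 * i) + (b0 + 6 * i) = e - 6 := by omega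
        rw [this]; exact hA) (Nat.zero_le _)
    have h2 : 3 * (k0 - 2 * i) + 6 + (b0 + 6 * i) = e := by omega
    rw [h2] at h1
    simpa [hg] using h1
  have hgev : ∀ i, Even (g i) := by
    intro i
    have h1 : Even (b0 + 6 * i) := hev.add (by rw [Nat.even_iff]; omega)
    have h2 : Even (DD (k0 - 2 * i) (b0 + 6 * i)) := by
      unfold DD
      refine Even.add (by rw [Nat.even_iff]; omega) ?_
      refine Even.pow_of_ne_zero ?_ (by norm_num)
      refine Even.add (by decide) ?_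
      exact Even.pow_of_ne_zero h1 (by norm_num)
    exact (h2.mul_left m).add (even_iff_two_dvd.mpr (hR2 _ _ _))
  have hRm : ∀ i, 2 * i ≤ k0 → 100 * R (k0 - 2 * i) (b0 + 6 * i) (hbi i) ≤ m := by
    intro i hi
    refine aux_R (k0 - 2 * i) (b0 + 6 * i) m _ (by omega) ?_ (hRle _ _ _)
    have h2 : 3 * (k0 - 2 * i) + 6 + (b0 + 6 * i) = e := by omega
    rw [h2]
    exact hm
  have hDD1 : ∀ k b, 1 ≤ DD k b := by
    intro k b
    unfold DD
    have : 1 ≤ (10 + b ^ 3) ^ 2 := Nat.one_le_pow _ _ (by omega)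
    omega
  -- the first value
  have hg0 : ((g 0 : ℕ) : ℝ) ≤ y := by
    refine le_trans ?_ hy1
    have h1 := hRm 0 (by omega)
    have h2 : DD (k0 - 2 * 0) (b0 + 6 * 0) ≤ 100 * e + 10 ^ 22 := by
      unfold DD
      have h3 : (10 + (b0 + 6 * 0) ^ 3) ^ 2 ≤ (10 + 3004 ^ 3) ^ 2 := by
        gcongr
        omega
      have h4 : (10 + 3004 ^ 3) ^ 2 ≤ 10 ^ 22 := by norm_num
      have h5 : 100 * (k0 - 2 * 0) ≤ 100 * e := by omega
      exact add_le_add h5 (h3.trans h4)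
    have h6 : g 0 ≤ 2 * (100 * e + 10 ^ 22) * m := by
      have h7 : m * DD (k0 - 2 * 0) (b0 + 6 * 0) ≤ m * (100 * e + 10 ^ 22) :=
        Nat.mul_le_mul_left _ h2
      have h8 : R (k0 - 2 * 0) (b0 + 6 * 0) (hbi 0) ≤ m * (100 * e + 10 ^ 22) := by
        have : m * 1 ≤ m * (100 * e + 10 ^ 22) := Nat.mul_le_mul_left _ (by omega)
        omega
      calc g 0 = m * DD (k0 - 2 * 0) (b0 + 6 * 0) + R (k0 - 2 * 0) (b0 + 6 * 0) (hbi 0) := rfl
        _ ≤ m * (100 * e + 10 ^ 22) + m * (100 * e + 10 ^ 22) := add_le_add h7 h8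
        _ = _ := by ring
    exact_mod_cast h6
  -- the last value
  have hgl : y ≤ ((g (k0 / 2) : ℕ) : ℝ) := by
    refine hy2.trans ?_
    have h1 : ((b0 + 6 * (k0 / 2) : ℕ) : ℝ) ^ 6 ≤
        ((DD (k0 - 2 * (k0 / 2)) (b0 + 6 * (k0 / 2)) : ℕ) : ℝ) := by
      have : (b0 + 6 * (k0 / 2)) ^ 6 ≤ DD (k0 - 2 * (k0 / 2)) (b0 + 6 * (k0 / 2)) := by
        unfold DD
        calc (b0 + 6 * (k0 / 2)) ^ 6 = ((b0 + 6 * (k0 / 2)) ^ 3) ^ 2 := by ring
          _ ≤ (10 + (b0 + 6 * (k0 / 2)) ^ 3) ^ 2 := by gcongr; omega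
          _ ≤ _ := Nat.le_add_left _ _
      exact_mod_cast this
    have h2 : e ≤ b0 + 6 * (k0 / 2) + 12 := by omega
    have h3 : (e : ℝ) - 12 ≤ ((b0 + 6 * (k0 / 2) : ℕ) : ℝ) := by
      have : (e : ℝ) ≤ ((b0 + 6 * (k0 / 2) + 12 : ℕ) : ℝ) := by exact_mod_cast h2
      push_cast at this ⊢
      linarith
    have h4 : (0 : ℝ) ≤ (e : ℝ) - 12 := by
      have : (4000 : ℝ) ≤ e := by exact_mod_cast he
      linarith
    have h5 : ((e : ℝ) - 12) ^ 6 ≤ ((b0 + 6 * (k0 / 2) : ℕ) : ℝ) ^ 6 :=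
      pow_le_pow_left₀ h4 h3 6
    calc ((e : ℝ) - 12) ^ 6 * m
        ≤ ((DD (k0 - 2 * (k0 / 2)) (b0 + 6 * (k0 / 2)) : ℕ) : ℝ) * m := by
          gcongr
          exact h5.trans h1
      _ = ((m * DD (k0 - 2 * (k0 / 2)) (b0 + 6 * (k0 / 2)) : ℕ) : ℝ) := by push_cast; ring
      _ ≤ ((g (k0 / 2) : ℕ) : ℝ) := by
          have : m * DD (k0 - 2 * (k0 / 2)) (b0 + 6 * (k0 / 2)) ≤ g (k0 / 2) :=
            Nat.le_add_right _ _
          exact_mod_cast this
  -- consecutive values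
  have hstep : ∀ i, 2 * (i + 1) ≤ k0 → 20 * g (i + 1) ≤ 21 * g i := by
    intro i hi
    have h1 := hRm (i + 1) hi
    have h2 : 100 * DD (k0 - 2 * (i + 1)) (b0 + 6 * i + 6) ≤
        104 * DD (k0 - 2 * (i + 1) + 2) (b0 + 6 * i) :=
      aux_DD _ _ (by omega)
    have h3 : k0 - 2 * (i + 1) + 2 = k0 - 2 * i := by omega
    have h4 : b0 + 6 * i + 6 = b0 + 6 * (i + 1) := by ring
    rw [h3, h4] at h2
    have h5 : m * (100 * DD (k0 - 2 * (i + 1)) (b0 + 6 * (i + 1))) ≤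
        m * (104 * DD (k0 - 2 * i) (b0 + 6 * i)) := Nat.mul_le_mul_left _ h2
    have h6 : m * 1 ≤ m * DD (k0 - 2 * i) (b0 + 6 * i) := Nat.mul_le_mul_left _ (hDD1 _ _)
    have h7 : 100 * g (i + 1) ≤ 105 * (m * DD (k0 - 2 * i) (b0 + 6 * i)) := by
      calc 100 * g (i + 1) = m * (100 * DD (k0 - 2 * (i + 1)) (b0 + 6 * (i + 1))) +
            100 * R (k0 - 2 * (i + 1)) (b0 + 6 * (i + 1)) (hbi (i + 1)) := by
              simp only [hg]; ring
        _ ≤ m * (104 * DD (k0 - 2 * i) (b0 + 6 * i)) + m * DD (k0 - 2 * i) (b0 + 6 * i) :=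
          add_le_add h5 (by omega)
        _ = _ := by ring
    have h8 : m * DD (k0 - 2 * i) (b0 + 6 * i) ≤ g i := Nat.le_add_right _ _
    omega
  -- the smallest index with value at least y
  have hex : ∃ i, y ≤ ((g i : ℕ) : ℝ) := ⟨_, hgl⟩
  classical
  have hle : Nat.find hex ≤ k0 / 2 := Nat.find_min' hex hgl
  have hspec := Nat.find_spec hex
  refine ⟨g (Nat.find hex), hgev _, hatt _ (by omega), hspec, ?_⟩
  rcases Nat.eq_zero_or_pos (Nat.find hex) with h0 | hpos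
  · rw [h0]
    linarith
  · obtain ⟨j, hj⟩ := Nat.exists_eq_succ_of_ne_zero hpos.ne'
    have h1 : ¬ y ≤ ((g j : ℕ) : ℝ) := Nat.find_min hex (by omega)
    have h2 : 20 * g (j + 1) ≤ 21 * g j := hstep j (by omega)
    have h3 : (20 : ℝ) * ((g (j + 1) : ℕ) : ℝ) ≤ 21 * ((g j : ℕ) : ℝ) := by exact_mod_cast h2
    rw [hj]
    push Not at h1
    have h4 : ((g (Nat.succ j) : ℕ) : ℝ) = ((g (j + 1) : ℕ) : ℝ) := rfl
    rw [h4]
    linarith

end Pool.Agent.Lib.MP_87840f_co.Spec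
end

section

/-!
# MP_87840f_co, edge spectrum, ES17: the high step

L = Nat.log 2 n (2^L ≤ n < 2^(L+1)), k = 6(L+1) + r with r < 30, b = n - 6 - 3k (so 3k+6+b = n and
3k + b = n-6; b ≥ n - 18L - 111 ≥ 1 for large n). Choose r such that b ≡ 1 mod 10 and DD k b ≡ 1 mod 3:
mod 3: DD k b ≡ k + (1+b)^2, b ≡ n, so k ≡ 1 - (1+n)^2 mod 3 is what is needed; mod 10: 3k ≡ n - 7;
by CRT such r < 30 exists. Then DD k b ≡ (10 + 1)^2 ≡ 1 mod 10, so D := DD k b is coprime to 30, hence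
to 18*10^(k+1). D = 100k + (10+b^3)^2 ≤ n^6 for large n (b ≤ n-6), D ≥ b^6, and D ≤ n^6 < 2^(6(L+1)) ≤ 2^k.
R from typed_step. Q = 18*10^(k+1)*D + R ≤ n^40: 10^(k+1) ≤ 10^36 (10^6)^L ≤ 10^36 n^20 (10^6 < 2^20),
20^k ≤ 20^35 (20^6)^L ≤ 20^35 n^26 (20^6 < 2^26). For N ≥ Q there is t < D with
18*10^(k+1) t ≡ N - R mod D (inverse of 18*10^(k+1) modulo D); t ≤ 2^k; M = (N - R - 18*10^(k+1) t)/D.
-/

open Finset

namespace Pool.Agent.Lib.MP_87840f_co.Spec

private lemma hs_crt : ∀ a < 30, ∀ c < 30, ∃ r < 30,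
    (3 * (a + r) + 7) % 10 = c % 10 ∧ (a + r + (1 + c) ^ 2) % 3 = 1 := by
  decide

private lemma hs_lin (L : ℕ) (hL : 19 ≤ L) : 18 * L + 112 ≤ 2 ^ L := by
  induction L, hL using Nat.le_induction with
  | base => norm_num
  | succ m hm ih => rw [pow_succ]; omega

private lemma hs_D {n k b : ℕ} (hn : 1000 ≤ n) (hb : 3 * k + 6 + b = n) : DD k b ≤ n ^ 6 := by
  unfold DD
  have h1 : 10 + b ^ 3 ≤ (n - 1) ^ 3 := by
    have h2 : b + 5 ≤ n - 1 := by omega
    calc 10 + b ^ 3 ≤ (b + 5) ^ 3 := by nlinarith [Nat.zero_le b, Nat.zero_le (b ^ 2)]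
      _ ≤ _ := Nat.pow_le_pow_left h2 3
  obtain ⟨m, rfl⟩ : ∃ m, n = m + 1 := ⟨n - 1, by omega⟩
  have h1' : 10 + b ^ 3 ≤ m ^ 3 := by simpa using h1
  have h3 : (10 + b ^ 3) ^ 2 ≤ (m ^ 3) ^ 2 := Nat.pow_le_pow_left h1' 2
  have h4 : 100 * k ≤ m ^ 5 := by
    have hm : 999 ≤ m := by omega
    have : 100 * k ≤ 999 * m := by omega
    calc 100 * k ≤ 999 * m := this
      _ ≤ m * m := Nat.mul_le_mul_right _ hm
      _ = m ^ 2 := by ring
      _ ≤ m ^ 5 := Nat.pow_le_pow_right (by omega) (by norm_num)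
  calc 100 * k + (10 + b ^ 3) ^ 2 ≤ m ^ 5 + (m ^ 3) ^ 2 := add_le_add h4 h3
    _ = m ^ 5 * (m + 1) := by ring
    _ ≤ (m + 1) ^ 5 * (m + 1) := Nat.mul_le_mul_right _ (Nat.pow_le_pow_left (by omega) 5)
    _ = _ := by ring

private lemma hs_cop {k b : ℕ} (hb : b % 10 = 1) (h3 : (k + (1 + b) ^ 2) % 3 = 1) :
    Nat.Coprime (18 * 10 ^ (k + 1)) (DD k b) := by
  have hD10 : DD k b % 10 = 1 := by
    unfold DD
    have h1 : b ^ 3 % 10 = 1 := by rw [Nat.pow_mod, hb]
    have h2 : (10 + b ^ 3) % 10 = 1 := by omega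
    have h4 : (10 + b ^ 3) ^ 2 % 10 = 1 := by rw [Nat.pow_mod, h2]
    omega
  have hD3 : DD k b % 3 = 1 := by
    unfold DD
    have h1 : b ^ 3 % 3 = b % 3 := by
      rw [Nat.pow_mod]
      have : b % 3 < 3 := Nat.mod_lt _ (by norm_num)
      interval_cases (b % 3) <;> rfl
    have h2 : (10 + b ^ 3) % 3 = (1 + b) % 3 := by omega
    have h4 : (10 + b ^ 3) ^ 2 % 3 = (1 + b) ^ 2 % 3 := by rw [Nat.pow_mod, h2, ← Nat.pow_mod]
    omega
  have c2 : Nat.Coprime 2 (DD k b) := (Nat.Prime.coprime_iff_not_dvd Nat.prime_two).mpr (by omega)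
  have c3 : Nat.Coprime 3 (DD k b) := (Nat.Prime.coprime_iff_not_dvd Nat.prime_three).mpr (by omega)
  have c5 : Nat.Coprime 5 (DD k b) := (Nat.Prime.coprime_iff_not_dvd Nat.prime_five).mpr (by omega)
  have c18 : Nat.Coprime 18 (DD k b) := by
    have := (c2.mul_left c3).mul_left c3
    norm_num at this
    exact this
  have c10 : Nat.Coprime 10 (DD k b) := by
    have := c2.mul_left c5
    norm_num at this
    exact this
  exact c18.mul_left (c10.pow_left _)

theorem high_step : ∃ n1 : ℕ, ∀ n ≥ n1, ∃ D Q : ℕ, (n - 18 * Nat.log 2 n - 120) ^ 6 ≤ D ∧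
    D ≤ n ^ 6 ∧ Q ≤ n ^ 40 ∧ ∀ N ≥ Q, ∃ M : ℕ, D * M ≤ N ∧ N ≤ D * M + Q ∧
      (Att (n - 6) M → Att n N) := by
  refine ⟨10 ^ 6, fun n hn => ?_⟩
  set L := Nat.log 2 n with hL
  have hn0 : n ≠ 0 := by omega
  have hLn : 2 ^ L ≤ n := Nat.pow_log_le_self 2 hn0
  have hnL : n < 2 ^ (L + 1) := Nat.lt_pow_succ_log_self (by norm_num) n
  have hL19 : 19 ≤ L := by
    by_contra h
    have h1 : L + 1 ≤ 19 := by omega
    have h2 : 2 ^ (L + 1) ≤ 2 ^ 19 := Nat.pow_le_pow_right (by norm_num) h1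
    have h3 : (2 : ℕ) ^ 19 = 524288 := by norm_num
    omega
  have hlin := hs_lin L hL19
  obtain ⟨r, hr, hr1, hr2⟩ := hs_crt (6 * (L + 1) % 30) (Nat.mod_lt _ (by norm_num)) (n % 30)
    (Nat.mod_lt _ (by norm_num))
  set k := 6 * (L + 1) + r with hk
  obtain ⟨b, hb⟩ : ∃ b, 3 * k + 6 + b = n := ⟨n - (3 * k + 6), by omega⟩
  have hb1 : 1 ≤ b := by omega
  have hb10 : b % 10 = 1 := by omega
  have hb3 : (k + (1 + b) ^ 2) % 3 = 1 := by
    have h1 : (1 + b) % 3 = (1 + n % 30) % 3 := by omega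
    have h2 : (1 + b) ^ 2 % 3 = (1 + n % 30) ^ 2 % 3 := by rw [Nat.pow_mod, h1, ← Nat.pow_mod]
    omega
  have hcop := hs_cop hb10 hb3
  have hDn := hs_D (by omega) hb
  obtain ⟨R, -, hR, hstep⟩ := typed_step k b hb1
  have hD6 : b ^ 6 ≤ DD k b := by
    unfold DD
    calc b ^ 6 = (b ^ 3) ^ 2 := by ring
      _ ≤ (10 + b ^ 3) ^ 2 := Nat.pow_le_pow_left (by omega) 2
      _ ≤ _ := by omega
  have hD1 : 1 < DD k b := by
    unfold DD
    have : 10 ^ 2 ≤ (10 + b ^ 3) ^ 2 := Nat.pow_le_pow_left (by omega) 2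
    omega
  have hDk : DD k b ≤ 2 ^ k := by
    calc DD k b ≤ n ^ 6 := hDn
      _ ≤ (2 ^ (L + 1)) ^ 6 := Nat.pow_le_pow_left hnL.le 6
      _ = 2 ^ (6 * (L + 1)) := by rw [← pow_mul, mul_comm]
      _ ≤ _ := Nat.pow_le_pow_right (by norm_num) (by omega)
  refine ⟨DD k b, 18 * 10 ^ (k + 1) * DD k b + R, ?_, hDn, ?_, ?_⟩
  · exact le_trans (Nat.pow_le_pow_left (by omega) 6) hD6
  · have e1 : 10 ^ (k + 1) ≤ 10 ^ 36 * n ^ 20 := by
      calc 10 ^ (k + 1) ≤ 10 ^ (36 + 6 * L) := Nat.pow_le_pow_right (by norm_num) (by omega)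
        _ = 10 ^ 36 * (10 ^ 6) ^ L := by rw [pow_add, pow_mul]
        _ ≤ 10 ^ 36 * (2 ^ 20) ^ L :=
            Nat.mul_le_mul_left _ (Nat.pow_le_pow_left (by norm_num) L)
        _ = 10 ^ 36 * (2 ^ L) ^ 20 := by rw [← pow_mul, ← pow_mul, mul_comm 20 L]
        _ ≤ _ := Nat.mul_le_mul_left _ (Nat.pow_le_pow_left hLn 20)
    have e2 : 20 ^ k ≤ 20 ^ 35 * n ^ 26 := by
      calc 20 ^ k ≤ 20 ^ (35 + 6 * L) := Nat.pow_le_pow_right (by norm_num) (by omega)
        _ = 20 ^ 35 * (20 ^ 6) ^ L := by rw [pow_add, pow_mul]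
        _ ≤ 20 ^ 35 * (2 ^ 26) ^ L :=
            Nat.mul_le_mul_left _ (Nat.pow_le_pow_left (by norm_num) L)
        _ = 20 ^ 35 * (2 ^ L) ^ 26 := by rw [← pow_mul, ← pow_mul, mul_comm 26 L]
        _ ≤ _ := Nat.mul_le_mul_left _ (Nat.pow_le_pow_left hLn 26)
    have e3 : k + 1 + b ^ 3 ≤ n ^ 3 := by
      obtain ⟨m, rfl⟩ : ∃ m, n = m + 1 := ⟨n - 1, by omega⟩
      have h1 : b ≤ m := by omega
      have h2 : b ^ 3 ≤ m ^ 3 := Nat.pow_le_pow_left h1 3
      have h3 : k + 1 ≤ m := by omega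
      nlinarith [Nat.zero_le (m ^ 2), Nat.zero_le m]
    have hn11 : (10 ^ 6) ^ 11 ≤ n ^ 11 := Nat.pow_le_pow_left hn 11
    have hn14 : (10 ^ 6) ^ 14 ≤ n ^ 14 := Nat.pow_le_pow_left hn 14
    have q1 : 18 * 10 ^ (k + 1) * DD k b ≤ 18 * (10 ^ 36 * n ^ 20) * n ^ 6 :=
      Nat.mul_le_mul (Nat.mul_le_mul_left _ e1) hDn
    have q2 : R ≤ 1100 * (20 ^ 35 * n ^ 26) * n ^ 3 :=
      le_trans hR (Nat.mul_le_mul (Nat.mul_le_mul_left _ e2) e3)
    have q3 : 2 * (18 * (10 ^ 36 * n ^ 20) * n ^ 6) ≤ n ^ 40 := by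
      calc 2 * (18 * (10 ^ 36 * n ^ 20) * n ^ 6) = (36 * 10 ^ 36) * n ^ 26 := by ring
        _ ≤ (10 ^ 6) ^ 14 * n ^ 26 := Nat.mul_le_mul_right _ (by norm_num)
        _ ≤ n ^ 14 * n ^ 26 := Nat.mul_le_mul_right _ hn14
        _ = _ := by ring
    have q4 : 2 * (1100 * (20 ^ 35 * n ^ 26) * n ^ 3) ≤ n ^ 40 := by
      calc 2 * (1100 * (20 ^ 35 * n ^ 26) * n ^ 3) = (2200 * 20 ^ 35) * n ^ 29 := by ring
        _ ≤ (10 ^ 6) ^ 11 * n ^ 29 := Nat.mul_le_mul_right _ (by norm_num)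
        _ ≤ n ^ 11 * n ^ 29 := Nat.mul_le_mul_right _ hn11
        _ = _ := by ring
    omega
  · intro N hN
    set A := 18 * 10 ^ (k + 1) with hA
    set D := DD k b with hD
    obtain ⟨u, -, hu⟩ := Nat.exists_mul_mod_eq_one_of_coprime hcop hD1
    have htD : (u * (N - R)) % D < D := Nat.mod_lt _ (by omega)
    set t := (u * (N - R)) % D with ht
    have hAt : A * t ≤ A * D := Nat.mul_le_mul_left _ htD.le
    have hle : A * t ≤ N - R := by omega
    have hmod : A * t ≡ N - R [MOD D] := by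
      have h1 : A * t ≡ A * (u * (N - R)) [MOD D] := (Nat.mod_modEq _ _).mul_left _
      have h2 : A * u ≡ 1 [MOD D] := by
        unfold Nat.ModEq
        rw [hu, Nat.mod_eq_of_lt hD1]
      have h3 : A * (u * (N - R)) ≡ 1 * (N - R) [MOD D] := by
        rw [← mul_assoc]; exact h2.mul_right _
      simpa using h1.trans h3
    have hdvd : D ∣ (N - R) - A * t := (Nat.modEq_iff_dvd' hle).mp hmod
    obtain ⟨M, hM⟩ := hdvd
    refine ⟨M, by omega, by omega, fun hatt => ?_⟩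
    have h6 : n - 6 = 3 * k + b := by omega
    rw [h6] at hatt
    have := hstep M t hatt (by omega)
    rw [hb] at this
    have hNN : M * D + A * t + R = N := by
      rw [mul_comm M D]; omega
    rwa [hNN] at this

end Pool.Agent.Lib.MP_87840f_co.Spec
end

section

/-!
# MP_87840f_co, edge spectrum, ES11: representation lemma

Let c = M - 3, which is odd, and 3M - 1 = 3c + 8, so gcd(c, 3M-1) = gcd(c, 8) = 1. Choose r < c with
r * (3M-1) ≡ y mod c. Since r (3M-1) ≤ (c-1)(3M-1) ≤ 3M^2 ≤ y, y - r(3M-1) = c q. Put S = (K3 - c) / c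
(floor; note c ≤ M ≤ K3), so r + c S ≤ K3 - 1 + ... ≤ K3. Since K1 ≥ 3M ≥ 3M - 1, q can be written as
k1 + (3M-1) s with k1 ≤ K1, s ≤ S as soon as q ≤ K1 + (3M-1) S: take s = min(S, q / (3M-1)).
q ≤ K1 + (3M-1) S holds because c q ≤ y ≤ c (K1 + 3 K3) - 6M^2 ≤ c K1 + (3M-1) K3 - 2c(3M-1) ≤
c (K1 + (3M-1) S), using c S ≥ K3 - 2c. Then y = k1 c + (r + c s)(3M-1).
-/

open Finset

namespace Pool.Agent.Lib.MP_87840f_co.Spec

theorem rep_lemma (M K1 K3 y : ℕ) (hM : Even M) (h4 : 4 ≤ M) (hK1 : 3 * M ≤ K1)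
    (hK3 : M ≤ K3) (hy1 : 3 * M ^ 2 ≤ y) (hy2 : y + 6 * M ^ 2 ≤ (M - 3) * (K1 + 3 * K3)) :
    ∃ k1 k3 : ℕ, k1 ≤ K1 ∧ k3 ≤ K3 ∧ y = k1 * (M - 3) + k3 * (3 * M - 1) := by
  obtain ⟨c, rfl⟩ : ∃ c, M = c + 3 := ⟨M - 3, by omega⟩
  have hc1 : 1 ≤ c := by omega
  have hodd : Odd c := by
    rcases Nat.even_or_odd c with h | h
    · exfalso
      rcases h with ⟨a, ha⟩
      rcases hM with ⟨b, hb⟩
      omega
    · exact h
  have e1 : c + 3 - 3 = c := by omega
  have e2 : 3 * (c + 3) - 1 = 3 * c + 8 := by omega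
  rw [e1] at hy2
  rw [e1, e2]
  have hcop : Nat.Coprime (3 * c + 8) c := by
    have h2 : Nat.Coprime 2 c := (Nat.coprime_two_left).2 hodd
    have h8 : Nat.Coprime (2 ^ 3) c := Nat.Coprime.pow_left 3 h2
    have h8' : Nat.Coprime (8 + 3 * c) c := by
      rw [Nat.coprime_add_mul_right_left]
      simpa using h8
    rw [add_comm]
    exact h8'
  obtain ⟨r, hr, hrmod⟩ : ∃ r, r < c ∧ r * (3 * c + 8) ≡ y [MOD c] := by
    obtain ⟨k, hk0, hky⟩ := Nat.chineseRemainder hcop 0 y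
    have hdvd : (3 * c + 8) ∣ k := (Nat.modEq_zero_iff_dvd).1 hk0
    obtain ⟨t, rfl⟩ := hdvd
    refine ⟨t % c, Nat.mod_lt _ hc1, ?_⟩
    have h1 : t % c * (3 * c + 8) ≡ t * (3 * c + 8) [MOD c] := (Nat.mod_modEq t c).mul_right _
    refine h1.trans ?_
    rw [mul_comm]
    exact hky
  have hrp : r * (3 * c + 8) ≤ y := by
    have : r * (3 * c + 8) ≤ c * (3 * c + 8) := Nat.mul_le_mul_right _ hr.le
    nlinarith
  obtain ⟨q, hq⟩ : c ∣ y - r * (3 * c + 8) := (Nat.modEq_iff_dvd' hrp).1 hrmod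
  have hyq : y = c * q + r * (3 * c + 8) := by omega
  have hcK : c ≤ K3 := by omega
  obtain ⟨K, rfl⟩ : ∃ K, K3 = c + K := ⟨K3 - c, by omega⟩
  set S := K / c with hS
  have hS1 : c * S ≤ K := Nat.mul_div_le K c
  have hS2 : K < c * S + c := by
    have := Nat.div_add_mod K c
    have h2 := Nat.mod_lt K hc1
    rw [← hS] at this
    omega
  have hqb : q ≤ K1 + (3 * c + 8) * S := by
    have : c * q ≤ c * (K1 + (3 * c + 8) * S) := by
      have h3 : (3 * c + 8) * K ≤ (3 * c + 8) * (c * S + c) := Nat.mul_le_mul_left _ hS2.le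
      nlinarith
    exact Nat.le_of_mul_le_mul_left this hc1
  rcases le_total S (q / (3 * c + 8)) with h | h
  · have h5 : (3 * c + 8) * S ≤ q := by
      calc (3 * c + 8) * S ≤ (3 * c + 8) * (q / (3 * c + 8)) := Nat.mul_le_mul_left _ h
        _ ≤ q := Nat.mul_div_le _ _
    obtain ⟨k1, rfl⟩ : ∃ k1, q = (3 * c + 8) * S + k1 := ⟨q - (3 * c + 8) * S, by omega⟩
    refine ⟨k1, r + c * S, by omega, by omega, ?_⟩
    rw [hyq]
    ring
  · have h5 := Nat.div_add_mod q (3 * c + 8)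
    have h6 := Nat.mod_lt q (show 3 * c + 8 > 0 by omega)
    refine ⟨q % (3 * c + 8), r + c * (q / (3 * c + 8)), by omega, ?_, ?_⟩
    · have : c * (q / (3 * c + 8)) ≤ c * S := Nat.mul_le_mul_left _ h
      omega
    · rw [hyq]
      conv_lhs => rw [← h5]
      ring

end Pool.Agent.Lib.MP_87840f_co.Spec
end
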