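import Mathlib
import Pool.Agent.Lib.MP_87840f_co.Spec.TypedOuter

section

/-!
# MP_87840f_co, edge spectrum, GS1: the general typed hypergraph is intersecting and not 2-colourable

Copy of TypedOuter.lean (theorem typed_outer, helper48) with the two kinds of sets of the big
component exchanged: Q β A meets Qd β f (A = none: y β; A = some i: v β i (f i)), and for a colouring
and a colour r: if no Q β A is monochromatic of colour r, then y β has colour r' = !r (A = none) and
for every i some v β i j has colour r' (choose f i := j), so Qd β f is monochromatic of colour r' for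
some f. Everything else is literally the same. (Checked by computer for small k, w, b.)
-/

open Finset

namespace Pool.Agent.Lib.MP_87840f_co.Spec

/-- cover sets -/
private def GCov {k w b : ℕ} (C : Finset (GV k w b)) : Prop :=
  (∀ i : Fin k, ∃ β : Bool, GV.s i β ∈ C) ∧ ∃ (β : Bool) (f : Fin b → Fin w), GV.Qd β f ⊆ C

private theorem g_mem_pat {k w b : ℕ} (θ : Fin k → Bool) (i : Fin k) :
    (GV.s i (θ i) : GV k w b) ∈ GV.pat (w := w) (b := b) θ :=
  Finset.mem_image.2 ⟨i, Finset.mem_univ _, rfl⟩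

private theorem g_y_mem {k w b : ℕ} (β : Bool) (f : Fin b → Fin w) :
    (GV.y β : GV k w b) ∈ GV.Qd (k := k) β f := Finset.mem_insert_self _ _

private theorem g_fact {k w b : ℕ} (β : Bool) (A : Option (Fin b)) (f : Fin b → Fin w) :
    ∃ x : GV k w b, x ∈ GV.Q β A ∧ x ∈ GV.Qd β f := by
  cases A with
  | none => exact ⟨GV.y β, Finset.mem_singleton_self _, g_y_mem β f⟩
  | some i =>
    exact ⟨GV.v β i (f i), Finset.mem_image.2 ⟨f i, Finset.mem_univ _, rfl⟩,
      Finset.mem_insert_of_mem (Finset.mem_image.2 ⟨i, Finset.mem_univ _, rfl⟩)⟩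

private theorem g_cov {k w b : ℕ} (θ : Fin k → Bool) (β : Bool) (f : Fin b → Fin w)
    (C : Finset (GV k w b)) (hC : GV.pat θ ∪ GV.Qd β f ⊆ C) : GCov C :=
  ⟨fun i => ⟨θ i, hC (Finset.mem_union_left _ (g_mem_pat θ i))⟩, β, f,
    fun _ hx => hC (Finset.mem_union_right _ hx)⟩

/-- a set that contains both sides of a small component meets every cover set -/
private theorem g_hit_s {k w b : ℕ} (E : Finset (GV k w b)) (i : Fin k)
    (h0 : GV.s i false ∈ E) (h1 : GV.s i true ∈ E) (C : Finset (GV k w b)) (hC : GCov C) :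
    ∃ x, x ∈ E ∧ x ∈ C := by
  obtain ⟨β, hβ⟩ := hC.1 i
  cases β with
  | false => exact ⟨_, h0, hβ⟩
  | true => exact ⟨_, h1, hβ⟩

/-- a set that for both sides contains a light or a heavy set meets every cover set -/
private theorem g_hit_q {k w b : ℕ} (E : Finset (GV k w b))
    (h : ∀ β : Bool, ∀ f : Fin b → Fin w, ∃ x, x ∈ E ∧ x ∈ GV.Qd β f)
    (C : Finset (GV k w b)) (hC : GCov C) : ∃ x, x ∈ E ∧ x ∈ C := by
  obtain ⟨β, f, hf⟩ := hC.2
  obtain ⟨x, hx, hx'⟩ := h β f
  exact ⟨x, hx, hf hx'⟩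

private theorem g_bool {c r : Bool} (h : c ≠ r) : c = !r := by
  cases c <;> cases r <;> simp_all

theorem gh_outer (k w b : ℕ) (hw : 1 ≤ w) (hb : 1 ≤ b) : IsOuter (GH k w b) := by
  classical
  have _ := hw
  have _ := hb
  constructor
  · -- intersecting
    have key : ∀ E ∈ GH k w b, (GV.x ∈ E ∧ ∀ C, GCov C → ∃ x, x ∈ E ∧ x ∈ C) ∨
        (GCov E ∧ ∀ C, GCov C → ∃ x, x ∈ E ∧ x ∈ C) ∨ (E ∈ GH3 k w b) := by
      intro E hE
      simp only [GH, Finset.mem_union] at hE
      rcases hE with (((hE | hE) | hE) | hE) | hE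
      · left
        obtain ⟨i, -, rfl⟩ := Finset.mem_image.1 hE
        exact ⟨by simp, fun C hC => g_hit_s _ i (by simp) (by simp) C hC⟩
      · left
        obtain ⟨p, -, rfl⟩ := Finset.mem_image.1 hE
        refine ⟨by simp, fun C hC => g_hit_q _ (fun β f => ?_) C hC⟩
        cases β with
        | false =>
          obtain ⟨x, hx, hx'⟩ := g_fact (k := k) false p.1 f
          exact ⟨x, Finset.mem_insert_of_mem (Finset.mem_union_left _ hx), hx'⟩
        | true =>
          obtain ⟨x, hx, hx'⟩ := g_fact (k := k) true p.2 f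
          exact ⟨x, Finset.mem_insert_of_mem (Finset.mem_union_right _ hx), hx'⟩
      · right; right; exact hE
      · right; left
        obtain ⟨p, hp, rfl⟩ := Finset.mem_image.1 hE
        rw [Finset.mem_filter] at hp
        refine ⟨g_cov p.1.2 p.2.1 p.2.2 _ (Finset.subset_insert _ _), fun C hC =>
          g_hit_s _ p.1.1 ?_ (Finset.mem_insert_self _ _) C hC⟩
        have := g_mem_pat (w := w) (b := b) p.1.2 p.1.1
        rw [hp.2] at this
        exact Finset.mem_insert_of_mem (Finset.mem_union_left _ this)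
      · right; left
        obtain ⟨p, -, rfl⟩ := Finset.mem_image.1 hE
        refine ⟨g_cov p.1.1 p.2.1 p.2.2 _ Finset.subset_union_left, fun C hC =>
          g_hit_q _ (fun β f => ?_) C hC⟩
        by_cases hβ : β = p.2.1
        · subst hβ
          exact ⟨GV.y p.2.1, Finset.mem_union_left _ (Finset.mem_union_right _ (g_y_mem _ _)),
            g_y_mem _ _⟩
        · rw [g_bool hβ]
          obtain ⟨x, hx, hx'⟩ := g_fact (k := k) (!p.2.1) p.1.2 f
          exact ⟨x, Finset.mem_union_right _ hx, hx'⟩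
    have h3 : ∀ E ∈ GH3 k w b, GCov E := by
      intro E hE
      obtain ⟨p, -, rfl⟩ := Finset.mem_image.1 hE
      exact g_cov p.1 p.2.1 p.2.2 _ (Finset.subset_insert _ _)
    intro A hA B hB
    rcases key A hA with ⟨hA1, hA2⟩ | ⟨hA1, hA2⟩ | hA3 <;>
      rcases key B hB with ⟨hB1, hB2⟩ | ⟨hB1, hB2⟩ | hB3
    · exact ⟨_, hA1, hB1⟩
    · exact hA2 B hB1
    · exact hA2 B (h3 B hB3)
    · obtain ⟨x, h, h'⟩ := hB2 A hA1
      exact ⟨x, h', h⟩
    · exact hA2 B hB1
    · exact hA2 B (h3 B hB3)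
    · obtain ⟨x, h, h'⟩ := hB2 A (h3 A hA3)
      exact ⟨x, h', h⟩
    · obtain ⟨x, h, h'⟩ := hB2 A (h3 A hA3)
      exact ⟨x, h', h⟩
    · obtain ⟨p, -, rfl⟩ := Finset.mem_image.1 hA3
      obtain ⟨q, -, rfl⟩ := Finset.mem_image.1 hB3
      by_cases hβ : q.2.1 = p.2.1
      · refine ⟨GV.y p.2.1, Finset.mem_insert_of_mem (Finset.mem_union_right _ (g_y_mem _ _)), ?_⟩
        rw [← hβ]
        exact Finset.mem_insert_of_mem (Finset.mem_union_right _ (g_y_mem _ _))
      · by_cases hθ : ∃ i, q.1 i = p.1 i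
        · obtain ⟨i, hi⟩ := hθ
          refine ⟨GV.s i (p.1 i), Finset.mem_insert_of_mem
            (Finset.mem_union_left _ (g_mem_pat _ _)), ?_⟩
          rw [← hi]
          exact Finset.mem_insert_of_mem (Finset.mem_union_left _ (g_mem_pat _ _))
        · push Not at hθ
          have hz : (fun i => xor (p.1 i) p.2.1) = (fun i => xor (q.1 i) q.2.1) := by
            funext i
            rw [g_bool (hθ i), g_bool hβ]
            simp
          refine ⟨GV.z (fun i => xor (p.1 i) p.2.1), Finset.mem_insert_self _ _, ?_⟩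
          rw [hz]
          exact Finset.mem_insert_self _ _
  · -- colourings
    intro c
    by_contra hno
    push Not at hno
    set r := c GV.x with hr
    -- (1)
    have h1 : ∀ i : Fin k, ∃ β : Bool, c (GV.s i β) = !r := by
      intro i
      by_contra hc
      push Not at hc
      have hE : ({GV.x, GV.s i false, GV.s i true} : Finset (GV k w b)) ∈ GH k w b := by
        simp only [GH, Finset.mem_union]
        exact Or.inl (Or.inl (Or.inl (Or.inl (Finset.mem_image.2 ⟨i, Finset.mem_univ _, rfl⟩))))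
      obtain ⟨x, hx, hx'⟩ := hno _ hE r
      simp only [Finset.mem_insert, Finset.mem_singleton] at hx
      have e : ∀ β, c (GV.s i β) = r := fun β => by
        have := g_bool (hc β)
        simpa using this
      rcases hx with rfl | rfl | rfl
      · exact hx' rfl
      · exact hx' (e false)
      · exact hx' (e true)
    -- general choice
    have h2 : ∀ (β t : Bool), (∀ A : Option (Fin b), ∃ x, x ∈ GV.Q (k := k) (w := w) β A ∧
        c x ≠ t) → ∃ f : Fin b → Fin w, ∀ x ∈ GV.Qd (k := k) β f, c x = !t := by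
      intro β t h
      have hy : c (GV.y β) = !t := by
        obtain ⟨x, hx, hx'⟩ := h none
        rw [GV.Q, Finset.mem_singleton] at hx
        rw [hx] at hx'
        exact g_bool hx'
      have hv : ∀ i : Fin b, ∃ j : Fin w, c (GV.v β i j) = !t := by
        intro i
        obtain ⟨x, hx, hx'⟩ := h (some i)
        rw [GV.Q, Finset.mem_image] at hx
        obtain ⟨j, -, rfl⟩ := hx
        exact ⟨j, g_bool hx'⟩
      choose f hf using hv
      refine ⟨f, fun x hx => ?_⟩
      rw [GV.Qd, Finset.mem_insert, Finset.mem_image] at hx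
      rcases hx with rfl | ⟨i, -, rfl⟩
      · exact hy
      · exact hf i
    -- (2)
    have h3 : ∃ β : Bool, ∀ A : Option (Fin b), ∃ x, x ∈ GV.Q (k := k) (w := w) β A ∧ c x ≠ r := by
      by_contra hc
      push Not at hc
      obtain ⟨A, hA⟩ := hc false
      obtain ⟨B, hB⟩ := hc true
      have hE : (insert GV.x (GV.Q false A ∪ GV.Q true B) : Finset (GV k w b)) ∈ GH k w b := by
        simp only [GH, Finset.mem_union]
        exact Or.inl (Or.inl (Or.inl (Or.inr (Finset.mem_image.2 ⟨(A, B), Finset.mem_univ _,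
          rfl⟩))))
      obtain ⟨x, hx, hx'⟩ := hno _ hE r
      rw [Finset.mem_insert, Finset.mem_union] at hx
      rcases hx with rfl | hx | hx
      · exact hx' rfl
      · exact hx' (hA x hx)
      · exact hx' (hB x hx)
    obtain ⟨β, hβ⟩ := h3
    obtain ⟨f, hf⟩ := h2 β r hβ
    choose θ hθ using h1
    -- (3)
    have h4 : ∀ i : Fin k, c (GV.s i (!(θ i))) = r := by
      intro i
      by_contra hc
      have hc' := g_bool hc
      set θ' : Fin k → Bool := Function.update θ i false with hθ'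
      have hboth : ∀ t : Bool, c (GV.s i t) = !r := by
        intro t
        by_cases ht : t = θ i
        · rw [ht]; exact hθ i
        · rw [g_bool ht]; exact hc'
      have hθ'c : ∀ l, c (GV.s l (θ' l)) = !r := by
        intro l
        by_cases hl : l = i
        · subst hl; exact hboth _
        · rw [hθ', Function.update_of_ne hl]; exact hθ l
      have hE : (insert (GV.s i true) (GV.pat θ' ∪ GV.Qd β f) : Finset (GV k w b)) ∈
          GH k w b := by
        simp only [GH, Finset.mem_union]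
        refine Or.inl (Or.inr (Finset.mem_image.2 ⟨((i, θ'), β, f), ?_, rfl⟩))
        rw [Finset.mem_filter]
        exact ⟨Finset.mem_univ _, by simp [hθ']⟩
      obtain ⟨x, hx, hx'⟩ := hno _ hE (!r)
      rw [Finset.mem_insert, Finset.mem_union] at hx
      rcases hx with rfl | hx | hx
      · exact hx' (hboth true)
      · rw [GV.pat, Finset.mem_image] at hx
        obtain ⟨l, -, rfl⟩ := hx
        exact hx' (hθ'c l)
      · exact hx' (hf x hx)
    -- (4)
    have h5 : ∀ A : Option (Fin b), ∃ x, x ∈ GV.Q (k := k) (w := w) (!β) A ∧ c x ≠ !r := by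
      intro A
      by_contra hc
      push Not at hc
      have hE : (GV.pat θ ∪ GV.Qd β f ∪ GV.Q (!β) A : Finset (GV k w b)) ∈ GH k w b := by
        simp only [GH, Finset.mem_union]
        exact Or.inr (Finset.mem_image.2 ⟨((θ, A), β, f), Finset.mem_univ _, rfl⟩)
      obtain ⟨x, hx, hx'⟩ := hno _ hE (!r)
      rw [Finset.mem_union, Finset.mem_union] at hx
      rcases hx with (hx | hx) | hx
      · rw [GV.pat, Finset.mem_image] at hx
        obtain ⟨l, -, rfl⟩ := hx
        exact hx' (hθ l)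
      · exact hx' (hf x hx)
      · exact hx' (hc x hx)
    obtain ⟨g, hg⟩ := h2 (!β) (!r) h5
    have hz1 : c (GV.z (fun i => xor (θ i) β)) ≠ !r := by
      intro hz
      have hE : (insert (GV.z (fun i => xor (θ i) β)) (GV.pat θ ∪ GV.Qd β f) :
          Finset (GV k w b)) ∈ GH k w b := by
        simp only [GH, Finset.mem_union]
        exact Or.inl (Or.inl (Or.inr (Finset.mem_image.2 ⟨(θ, β, f), Finset.mem_univ _, rfl⟩)))
      obtain ⟨x, hx, hx'⟩ := hno _ hE (!r)
      rw [Finset.mem_insert, Finset.mem_union] at hx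
      rcases hx with rfl | hx | hx
      · exact hx' hz
      · rw [GV.pat, Finset.mem_image] at hx
        obtain ⟨l, -, rfl⟩ := hx
        exact hx' (hθ l)
      · exact hx' (hf x hx)
    have hz2 : c (GV.z (fun i => xor (θ i) β)) ≠ r := by
      intro hz
      have hE : (insert (GV.z (fun i => xor (!(θ i)) (!β)))
          (GV.pat (fun i => !(θ i)) ∪ GV.Qd (!β) g) : Finset (GV k w b)) ∈ GH k w b := by
        simp only [GH, Finset.mem_union]
        exact Or.inl (Or.inl (Or.inr (Finset.mem_image.2 ⟨((fun i => !(θ i)), !β, g),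
          Finset.mem_univ _, rfl⟩)))
      obtain ⟨x, hx, hx'⟩ := hno _ hE r
      rw [Finset.mem_insert, Finset.mem_union] at hx
      rcases hx with rfl | hx | hx
      · apply hx'
        have : (fun i => xor (!(θ i)) (!β)) = (fun i => xor (θ i) β) := by
          funext i; simp
        rw [this]
        exact hz
      · rw [GV.pat, Finset.mem_image] at hx
        obtain ⟨l, -, rfl⟩ := hx
        exact hx' (h4 l)
      · have := hg x hx
        rw [Bool.not_not] at this
        exact hx' this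
    exact hz1 (g_bool hz2)

end Pool.Agent.Lib.MP_87840f_co.Spec
end

section

/-!
# MP_87840f_co, edge spectrum, GS3: counting the general typed clique

As TypedSum.lean (theorem typed_sum, helper76), exact formula (checked by computer). GH1: k mx M^2.
GH2: mx (M+b)^2 (the sum over A of the product over Q β A is M + b). GH3: for every (β, f) a bijection
θ ↦ η, product m η * M^k * M: 2 w^b M^(k+1) ∑ η, m η. GH4: k 2^(k-1) * 2 * w^b products M^(k+2).
GH5: 2^k * 2 * w^b * M^(k+1) * (M+b).
-/

open Finset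

namespace Pool.Agent.Lib.MP_87840f_co.Spec

section

variable {k w b : ℕ}

private theorem mem_pat {θ : Fin k → Bool} {a : GV k w b} :
    a ∈ (GV.pat θ : Finset (GV k w b)) ↔ ∃ i, GV.s i (θ i) = a := by
  simp [GV.pat]

private theorem mem_Qd {β : Bool} {f : Fin b → Fin w} {a : GV k w b} :
    a ∈ (GV.Qd β f : Finset (GV k w b)) ↔ a = GV.y β ∨ ∃ t, GV.v β t (f t) = a := by
  simp [GV.Qd]

private theorem mem_Q {β : Bool} {o : Option (Fin b)} {a : GV k w b} :
    a ∈ (GV.Q β o : Finset (GV k w b)) ↔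
      (o = none ∧ a = GV.y β) ∨ ∃ t, o = some t ∧ ∃ j, GV.v β t j = a := by
  cases o <;> simp [GV.Q]

private theorem prod_pat (M mx : ℕ) (m : (Fin k → Bool) → ℕ) (θ : Fin k → Bool) :
    ∏ i ∈ (GV.pat θ : Finset (GV k w b)), GV.num M mx m i = M ^ k := by
  rw [GV.pat, Finset.prod_image]
  · simp [GV.num]
  · intro i _ j _ h
    exact (GV.s.inj h).1

private theorem prod_Qd (M mx : ℕ) (m : (Fin k → Bool) → ℕ) (β : Bool) (f : Fin b → Fin w) :
    ∏ i ∈ (GV.Qd β f : Finset (GV k w b)), GV.num M mx m i = M := by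
  rw [GV.Qd, Finset.prod_insert (by simp), Finset.prod_eq_one, mul_one]
  · rfl
  · intro a ha
    obtain ⟨t, _, rfl⟩ := mem_image.1 ha
    rfl

private theorem prod_Q (M mx : ℕ) (m : (Fin k → Bool) → ℕ) (β : Bool) (o : Option (Fin b)) :
    ∏ i ∈ (GV.Q β o : Finset (GV k w b)), GV.num M mx m i = o.elim M (fun _ => 1) := by
  cases o with
  | none => simp [GV.Q, GV.num]
  | some t =>
    rw [GV.Q]
    refine Finset.prod_eq_one fun a ha => ?_
    obtain ⟨j, _, rfl⟩ := mem_image.1 ha
    rfl

private theorem sum_elim (M : ℕ) :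
    ∑ o : Option (Fin b), o.elim M (fun _ => 1) = M + b := by
  rw [Fintype.sum_option]
  simp

private theorem dis_pat_Qd (θ : Fin k → Bool) (β : Bool) (f : Fin b → Fin w) :
    Disjoint (GV.pat θ : Finset (GV k w b)) (GV.Qd β f) := by
  rw [Finset.disjoint_left]
  intro a h1 h2
  obtain ⟨i, rfl⟩ := mem_pat.1 h1
  rcases mem_Qd.1 h2 with h | ⟨t, h⟩ <;> cases h

private theorem dis_Q (o o' : Option (Fin b)) :
    Disjoint (GV.Q false o : Finset (GV k w b)) (GV.Q true o') := by
  rw [Finset.disjoint_left]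
  intro a h1 h2
  rcases mem_Q.1 h1 with ⟨_, rfl⟩ | ⟨t, _, j, rfl⟩ <;>
    rcases mem_Q.1 h2 with ⟨_, h⟩ | ⟨t, _, j, h⟩ <;> cases h

private theorem dis_5 (θ : Fin k → Bool) (β : Bool) (f : Fin b → Fin w) (o : Option (Fin b)) :
    Disjoint (GV.pat θ ∪ GV.Qd β f : Finset (GV k w b)) (GV.Q (!β) o) := by
  rw [Finset.disjoint_left]
  intro a h1 h2
  rcases mem_union.1 h1 with h1 | h1
  · obtain ⟨i, rfl⟩ := mem_pat.1 h1
    rcases mem_Q.1 h2 with ⟨_, h⟩ | ⟨t, _, j, h⟩ <;> cases h
  · rcases mem_Qd.1 h1 with rfl | ⟨t', rfl⟩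
    · rcases mem_Q.1 h2 with ⟨_, h⟩ | ⟨t, _, j, h⟩
      · have := GV.y.inj h
        cases β <;> simp at this
      · cases h
    · rcases mem_Q.1 h2 with ⟨_, h⟩ | ⟨t, _, j, h⟩
      · cases h
      · have := (GV.v.inj h).1
        cases β <;> simp at this

private theorem Q_inj (hw : 1 ≤ w) {β : Bool} {o o' : Option (Fin b)}
    (h : ∀ a, a ∈ (GV.Q β o : Finset (GV k w b)) → a ∈ (GV.Q β o' : Finset (GV k w b))) :
    o = o' := by
  cases o with
  | none =>
    rcases mem_Q.1 (h (GV.y β) (mem_Q.2 (Or.inl ⟨rfl, rfl⟩))) with ⟨h1, _⟩ | ⟨t, _, j, h1⟩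
    · exact h1.symm
    · cases h1
  | some t =>
    have h0 := h (GV.v β t ⟨0, hw⟩) (mem_Q.2 (Or.inr ⟨t, rfl, _, rfl⟩))
    rcases mem_Q.1 h0 with ⟨_, h1⟩ | ⟨t', ht', j, h1⟩
    · cases h1
    · rw [ht', (GV.v.inj h1).2.1]

private theorem prod_GH4 (M mx : ℕ) (m : (Fin k → Bool) → ℕ) (i : Fin k) (θ : Fin k → Bool)
    (h : θ i = false) (β : Bool) (f : Fin b → Fin w) :
    ∏ a ∈ insert (GV.s i true) (GV.pat θ ∪ GV.Qd β f : Finset (GV k w b)), GV.num M mx m a =
      M ^ (k + 2) := by
  rw [Finset.prod_insert, Finset.prod_union (dis_pat_Qd θ β f), prod_pat, prod_Qd]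
  · show M * (M ^ k * M) = M ^ (k + 2)
    ring
  · intro h1
    rcases mem_union.1 h1 with h1 | h1
    · obtain ⟨i', h2⟩ := mem_pat.1 h1
      have e := GV.s.inj h2
      rw [e.1, h] at e
      exact absurd e.2 (by simp)
    · rcases mem_Qd.1 h1 with h2 | ⟨t, h2⟩ <;> cases h2

private theorem prod_GH5 (M mx : ℕ) (m : (Fin k → Bool) → ℕ) (θ : Fin k → Bool)
    (o : Option (Fin b)) (β : Bool) (f : Fin b → Fin w) :
    ∏ a ∈ (GV.pat θ ∪ GV.Qd β f ∪ GV.Q (!β) o : Finset (GV k w b)), GV.num M mx m a =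
      M ^ (k + 1) * o.elim M (fun _ => 1) := by
  rw [Finset.prod_union (dis_5 θ β f o), Finset.prod_union (dis_pat_Qd θ β f), prod_pat, prod_Qd,
    prod_Q, pow_succ]

private theorem prod_GH3 (M mx : ℕ) (m : (Fin k → Bool) → ℕ) (η θ : Fin k → Bool)
    (β : Bool) (f : Fin b → Fin w) :
    ∏ a ∈ insert (GV.z η) (GV.pat θ ∪ GV.Qd β f : Finset (GV k w b)), GV.num M mx m a =
      M ^ (k + 1) * m η := by
  rw [Finset.prod_insert, Finset.prod_union (dis_pat_Qd θ β f), prod_pat, prod_Qd]
  · show m η * (M ^ k * M) = M ^ (k + 1) * m η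
    ring
  · intro h1
    rcases mem_union.1 h1 with h1 | h1
    · obtain ⟨i', h2⟩ := mem_pat.1 h1
      cases h2
    · rcases mem_Qd.1 h1 with h2 | ⟨t, h2⟩ <;> cases h2

private theorem prod_GH2 (M mx : ℕ) (m : (Fin k → Bool) → ℕ) (o o' : Option (Fin b)) :
    ∏ a ∈ insert GV.x (GV.Q false o ∪ GV.Q true o' : Finset (GV k w b)), GV.num M mx m a =
      mx * (o.elim M (fun _ => 1) * o'.elim M (fun _ => 1)) := by
  rw [Finset.prod_insert, Finset.prod_union (dis_Q o o'), prod_Q, prod_Q]
  · rfl
  · intro h1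
    rcases mem_union.1 h1 with h1 | h1 <;>
      rcases mem_Q.1 h1 with ⟨_, h⟩ | ⟨t, _, j, h⟩ <;> cases h

private theorem sum_GH1 (M mx : ℕ) (m : (Fin k → Bool) → ℕ) :
    ∑ A ∈ GH1 k w b, ∏ i ∈ A, GV.num M mx m i = k * (mx * M ^ 2) := by
  rw [GH1, Finset.sum_image]
  · have : ∀ i : Fin k, ∏ a ∈ ({GV.x, GV.s i false, GV.s i true} : Finset (GV k w b)),
        GV.num M mx m a = mx * M ^ 2 := by
      intro i
      rw [Finset.prod_insert (by simp), Finset.prod_insert (by simp), Finset.prod_singleton]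
      show mx * (M * M) = mx * M ^ 2
      ring
    simp_rw [this]
    simp
  · intro i _ j _ h
    have h1 : (GV.s i false : GV k w b) ∈
        ({GV.x, GV.s j false, GV.s j true} : Finset (GV k w b)) := by
      have h2 : ({GV.x, GV.s i false, GV.s i true} : Finset (GV k w b)) =
        {GV.x, GV.s j false, GV.s j true} := h
      rw [← h2]
      simp
    simpa using h1

private theorem sum_GH2 (hw : 1 ≤ w) (M mx : ℕ) (m : (Fin k → Bool) → ℕ) :
    ∑ A ∈ GH2 k w b, ∏ i ∈ A, GV.num M mx m i = mx * (M + b) ^ 2 := by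
  rw [GH2, Finset.sum_image]
  · simp_rw [prod_GH2]
    rw [← Finset.mul_sum, Fintype.sum_prod_type]
    simp_rw [← Finset.mul_sum]
    rw [← Finset.sum_mul, sum_elim, sq]
  · rintro ⟨o, o'⟩ _ ⟨u, u'⟩ _ h
    have h2 : (insert GV.x (GV.Q false o ∪ GV.Q true o') : Finset (GV k w b)) =
      insert GV.x (GV.Q false u ∪ GV.Q true u') := h
    have e1 : o = u := by
      refine Q_inj (k := k) (β := false) hw fun a ha => ?_
      have h3 : a ∈ (insert GV.x (GV.Q false u ∪ GV.Q true u') : Finset (GV k w b)) := by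
        rw [← h2]
        exact mem_insert_of_mem (mem_union_left _ ha)
      rcases mem_insert.1 h3 with h4 | h4
      · subst h4
        rcases mem_Q.1 ha with ⟨_, h⟩ | ⟨t, _, j, h⟩ <;> cases h
      · rcases mem_union.1 h4 with h5 | h5
        · exact h5
        · exfalso
          rcases mem_Q.1 ha with ⟨_, rfl⟩ | ⟨t, _, j, rfl⟩ <;>
            rcases mem_Q.1 h5 with ⟨_, h⟩ | ⟨t, _, j, h⟩ <;> cases h
    have e2 : o' = u' := by
      refine Q_inj (k := k) (β := true) hw fun a ha => ?_
      have h3 : a ∈ (insert GV.x (GV.Q false u ∪ GV.Q true u') : Finset (GV k w b)) := by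
        rw [← h2]
        exact mem_insert_of_mem (mem_union_right _ ha)
      rcases mem_insert.1 h3 with h4 | h4
      · subst h4
        rcases mem_Q.1 ha with ⟨_, h⟩ | ⟨t, _, j, h⟩ <;> cases h
      · rcases mem_union.1 h4 with h5 | h5
        · exfalso
          rcases mem_Q.1 ha with ⟨_, rfl⟩ | ⟨t, _, j, rfl⟩ <;>
            rcases mem_Q.1 h5 with ⟨_, h⟩ | ⟨t, _, j, h⟩ <;> cases h
        · exact h5
    rw [e1, e2]

private theorem sum_xor (m : (Fin k → Bool) → ℕ) (β : Bool) :
    ∑ θ : Fin k → Bool, m (fun i => xor (θ i) β) = ∑ η, m η := by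
  have hinv : Function.Involutive (fun θ : Fin k → Bool => fun i => xor (θ i) β) := by
    intro θ
    funext i
    show xor (xor (θ i) β) β = θ i
    cases θ i <;> cases β <;> rfl
  exact Equiv.sum_comp hinv.toPerm m

private theorem sum_GH3 (hb : 1 ≤ b) (M mx : ℕ) (m : (Fin k → Bool) → ℕ) :
    ∑ A ∈ GH3 k w b, ∏ i ∈ A, GV.num M mx m i = 2 * w ^ b * M ^ (k + 1) * ∑ η, m η := by
  rw [GH3, Finset.sum_image]
  · simp_rw [prod_GH3]
    rw [← Finset.mul_sum, Fintype.sum_prod_type_right]
    have : ∀ y : Bool × (Fin b → Fin w),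
        ∑ θ : Fin k → Bool, m (fun i => xor (θ i) y.1) = ∑ η, m η :=
      fun y => sum_xor m y.1
    rw [Finset.sum_congr rfl (fun y _ => this y)]
    simp only [Finset.sum_const, Finset.card_univ, Fintype.card_prod, Fintype.card_bool,
      Fintype.card_fin, Fintype.card_pi, Finset.prod_const, smul_eq_mul]
    ring
  · rintro ⟨θ, β, f⟩ _ ⟨θ', β', f'⟩ _ h
    have h2 : (insert (GV.z (fun i => xor (θ i) β)) (GV.pat θ ∪ GV.Qd β f) : Finset (GV k w b)) =
      insert (GV.z (fun i => xor (θ' i) β')) (GV.pat θ' ∪ GV.Qd β' f') := h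
    have key : ∀ a : GV k w b, a ∈ (GV.pat θ ∪ GV.Qd β f : Finset (GV k w b)) →
        (a ∈ (GV.pat θ' : Finset (GV k w b)) ∨ a ∈ (GV.Qd β' f' : Finset (GV k w b))) := by
      intro a ha
      have h3 : a ∈ (insert (GV.z (fun i => xor (θ' i) β')) (GV.pat θ' ∪ GV.Qd β' f') :
          Finset (GV k w b)) := by
        rw [← h2]
        exact mem_insert_of_mem ha
      rcases mem_insert.1 h3 with h4 | h4
      · subst h4
        exfalso
        rcases mem_union.1 ha with h5 | h5
        · obtain ⟨i, h6⟩ := mem_pat.1 h5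
          cases h6
        · rcases mem_Qd.1 h5 with h6 | ⟨t, h6⟩
          · cases h6
          · cases h6
      · exact mem_union.1 h4
    have eβ : β = β' := by
      rcases key (GV.y β) (mem_union_right _ (mem_Qd.2 (Or.inl rfl))) with h5 | h5
      · obtain ⟨i, h6⟩ := mem_pat.1 h5
        cases h6
      · rcases mem_Qd.1 h5 with h6 | ⟨t, h6⟩
        · exact GV.y.inj h6
        · cases h6
    have ef : f = f' := by
      funext t
      rcases key (GV.v β t (f t)) (mem_union_right _ (mem_Qd.2 (Or.inr ⟨_, rfl⟩))) with h5 | h5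
      · obtain ⟨i, h6⟩ := mem_pat.1 h5
        cases h6
      · rcases mem_Qd.1 h5 with h6 | ⟨t', h6⟩
        · cases h6
        · have e := GV.v.inj h6
          rw [← e.2.2, e.2.1]
    have eθ : θ = θ' := by
      funext i
      rcases key (GV.s i (θ i)) (mem_union_left _ (mem_pat.2 ⟨i, rfl⟩)) with h5 | h5
      · obtain ⟨i', h6⟩ := mem_pat.1 h5
        have e := GV.s.inj h6
        rw [← e.2, e.1]
      · rcases mem_Qd.1 h5 with h6 | ⟨t, h6⟩ <;> cases h6
    rw [eβ, ef, eθ]

private theorem card4 : (univ.filter (fun p : (Fin k × (Fin k → Bool)) × Bool × (Fin b → Fin w) =>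
    p.1.2 p.1.1 = false)).card = k * 2 ^ k * w ^ b := by
  classical
  have h1 : ∀ c : Bool, (univ.filter (fun p : (Fin k × (Fin k → Bool)) × Bool × (Fin b → Fin w) =>
      p.1.2 p.1.1 = c)).card = (univ.filter (fun p : (Fin k × (Fin k → Bool)) × Bool ×
        (Fin b → Fin w) => p.1.2 p.1.1 = !c)).card := by
    intro c
    refine Finset.card_bij'
      (fun p _ => ((p.1.1, fun i => !(p.1.2 i)), p.2))
      (fun p _ => ((p.1.1, fun i => !(p.1.2 i)), p.2)) ?_ ?_ ?_ ?_
    · intro p hp
      rw [mem_filter] at hp ⊢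
      exact ⟨mem_univ _, by simp [hp.2]⟩
    · intro p hp
      rw [mem_filter] at hp ⊢
      exact ⟨mem_univ _, by simp [hp.2]⟩
    · rintro ⟨⟨i, θ⟩, q⟩ _
      simp
    · rintro ⟨⟨i, θ⟩, q⟩ _
      simp
  have h2 := h1 false
  have h3 : (univ.filter (fun p : (Fin k × (Fin k → Bool)) × Bool × (Fin b → Fin w) =>
      p.1.2 p.1.1 = false)).card + (univ.filter (fun p : (Fin k × (Fin k → Bool)) × Bool ×
        (Fin b → Fin w) => ¬ p.1.2 p.1.1 = false)).card = k * 2 ^ k * (2 * w ^ b) := by
    rw [Finset.card_filter_add_card_filter_not]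
    simp
  have h4 : (univ.filter (fun p : (Fin k × (Fin k → Bool)) × Bool × (Fin b → Fin w) =>
      ¬ p.1.2 p.1.1 = false)) = (univ.filter (fun p : (Fin k × (Fin k → Bool)) × Bool ×
        (Fin b → Fin w) => p.1.2 p.1.1 = !false)) := by
    refine Finset.filter_congr fun p _ => ?_
    simp
  rw [h4, ← h2] at h3
  have h5 : k * 2 ^ k * (2 * w ^ b) = 2 * (k * 2 ^ k * w ^ b) := by ring
  omega

private theorem sum_GH4 (M mx : ℕ) (m : (Fin k → Bool) → ℕ) :
    ∑ A ∈ GH4 k w b, ∏ i ∈ A, GV.num M mx m i = k * 2 ^ k * w ^ b * M ^ (k + 2) := by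
  rw [GH4, Finset.sum_image]
  · have h1 : ∀ p ∈ (univ.filter (fun p : (Fin k × (Fin k → Bool)) × Bool × (Fin b → Fin w) =>
        p.1.2 p.1.1 = false)), ∏ a ∈ insert (GV.s p.1.1 true)
          (GV.pat p.1.2 ∪ GV.Qd p.2.1 p.2.2 : Finset (GV k w b)), GV.num M mx m a =
            M ^ (k + 2) := by
      intro p hp
      rw [mem_filter] at hp
      exact prod_GH4 M mx m p.1.1 p.1.2 hp.2 p.2.1 p.2.2
    rw [Finset.sum_congr rfl h1, Finset.sum_const, card4, smul_eq_mul]
  · rintro ⟨⟨i, θ⟩, β, f⟩ hp ⟨⟨i', θ'⟩, β', f'⟩ hp' h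
    have hi : θ i = false := by simpa using hp
    have hi' : θ' i' = false := by simpa using hp'
    have h2 : (insert (GV.s i true) (GV.pat θ ∪ GV.Qd β f) : Finset (GV k w b)) =
      insert (GV.s i' true) (GV.pat θ' ∪ GV.Qd β' f') := h
    have ms : ∀ (i : Fin k) (θ : Fin k → Bool) (β : Bool) (f : Fin b → Fin w) (j : Fin k)
        (c : Bool), GV.s j c ∈ (insert (GV.s i true) (GV.pat θ ∪ GV.Qd β f) :
          Finset (GV k w b)) ↔ (j = i ∧ c = true) ∨ c = θ j := by
      intro i θ β f j c
      constructor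
      · intro h3
        rcases mem_insert.1 h3 with h4 | h4
        · exact Or.inl ⟨(GV.s.inj h4).1, (GV.s.inj h4).2⟩
        · rcases mem_union.1 h4 with h5 | h5
          · obtain ⟨l, h6⟩ := mem_pat.1 h5
            have e := GV.s.inj h6
            right
            rw [← e.2, e.1]
          · rcases mem_Qd.1 h5 with h6 | ⟨t, h6⟩ <;> cases h6
      · rintro (⟨rfl, rfl⟩ | rfl)
        · exact mem_insert_self _ _
        · exact mem_insert_of_mem (mem_union_left _ (mem_pat.2 ⟨j, rfl⟩))
    have key : ∀ a : GV k w b, a ∈ (GV.Qd β f : Finset (GV k w b)) →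
        a ∈ (GV.Qd β' f' : Finset (GV k w b)) := by
      intro a ha
      have h3 : a ∈ (insert (GV.s i' true) (GV.pat θ' ∪ GV.Qd β' f') : Finset (GV k w b)) := by
        rw [← h2]
        exact mem_insert_of_mem (mem_union_right _ ha)
      rcases mem_insert.1 h3 with h4 | h4
      · subst h4
        rcases mem_Qd.1 ha with h6 | ⟨t, h6⟩
        · cases h6
        · cases h6
      · rcases mem_union.1 h4 with h5 | h5
        · obtain ⟨l, rfl⟩ := mem_pat.1 h5
          rcases mem_Qd.1 ha with h6 | ⟨t, h6⟩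
          · cases h6
          · cases h6
        · exact h5
    have eβ : β = β' := by
      rcases mem_Qd.1 (key (GV.y β) (mem_Qd.2 (Or.inl rfl))) with h6 | ⟨t, h6⟩
      · exact GV.y.inj h6
      · cases h6
    have ef : f = f' := by
      funext t
      rcases mem_Qd.1 (key (GV.v β t (f t)) (mem_Qd.2 (Or.inr ⟨_, rfl⟩))) with h6 | ⟨t', h6⟩
      · cases h6
      · have e := GV.v.inj h6
        rw [← e.2.2, e.2.1]
    have ei : i = i' := by
      by_contra hne
      have h3 := (ms i θ β f i false).2 (Or.inr hi.symm)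
      have h4 := (ms i θ β f i true).2 (Or.inl ⟨rfl, rfl⟩)
      rw [h2] at h3 h4
      have h5 := (ms i' θ' β' f' i false).1 h3
      have h6 := (ms i' θ' β' f' i true).1 h4
      rcases h5 with h5 | h5
      · exact hne h5.1
      · rcases h6 with h6 | h6
        · exact hne h6.1
        · rw [← h5] at h6
          cases h6
    subst ei
    have eθ : θ = θ' := by
      funext j
      by_cases hj : j = i
      · subst hj
        rw [hi, hi']
      · have h3 := (ms i θ β f j (θ j)).2 (Or.inr rfl)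
        rw [h2] at h3
        rcases (ms i θ' β' f' j (θ j)).1 h3 with h5 | h5
        · exact absurd h5.1 hj
        · exact h5
    rw [eβ, ef, eθ]

private theorem sum_GH5 (hw : 1 ≤ w) (hb : 1 ≤ b) (M mx : ℕ) (m : (Fin k → Bool) → ℕ) :
    ∑ A ∈ GH5 k w b, ∏ i ∈ A, GV.num M mx m i =
      2 ^ (k + 1) * w ^ b * M ^ (k + 1) * (M + b) := by
  rw [GH5, Finset.sum_image]
  · simp_rw [prod_GH5]
    rw [← Finset.mul_sum, Fintype.sum_prod_type_right]
    simp_rw [Fintype.sum_prod_type, sum_elim]
    simp only [Finset.sum_const, Finset.card_univ, Fintype.card_bool,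
      Fintype.card_fin, Fintype.card_pi, Finset.prod_const, smul_eq_mul]
    ring
  · rintro ⟨⟨θ, o⟩, β, f⟩ _ ⟨⟨θ', o'⟩, β', f'⟩ _ h
    have h2 : (GV.pat θ ∪ GV.Qd β f ∪ GV.Q (!β) o : Finset (GV k w b)) =
      GV.pat θ' ∪ GV.Qd β' f' ∪ GV.Q (!β') o' := h
    -- membership of the different kinds of vertices
    have ms : ∀ (θ : Fin k → Bool) (o : Option (Fin b)) (β : Bool) (f : Fin b → Fin w) (j : Fin k)
        (c : Bool), GV.s j c ∈ (GV.pat θ ∪ GV.Qd β f ∪ GV.Q (!β) o : Finset (GV k w b)) ↔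
          c = θ j := by
      intro θ o β f j c
      constructor
      · intro h3
        rcases mem_union.1 h3 with h4 | h4
        · rcases mem_union.1 h4 with h5 | h5
          · obtain ⟨l, h6⟩ := mem_pat.1 h5
            have e := GV.s.inj h6
            rw [← e.2, e.1]
          · rcases mem_Qd.1 h5 with h6 | ⟨t, h6⟩ <;> cases h6
        · rcases mem_Q.1 h4 with ⟨_, h6⟩ | ⟨t, _, j', h6⟩ <;> cases h6
      · rintro rfl
        exact mem_union_left _ (mem_union_left _ (mem_pat.2 ⟨j, rfl⟩))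
    have my : ∀ (θ : Fin k → Bool) (o : Option (Fin b)) (β : Bool) (f : Fin b → Fin w)
        (c : Bool), GV.y c ∈ (GV.pat θ ∪ GV.Qd β f ∪ GV.Q (!β) o : Finset (GV k w b)) ↔
          c = β ∨ o = none := by
      intro θ o β f c
      constructor
      · intro h3
        rcases mem_union.1 h3 with h4 | h4
        · rcases mem_union.1 h4 with h5 | h5
          · obtain ⟨l, h6⟩ := mem_pat.1 h5
            cases h6
          · rcases mem_Qd.1 h5 with h6 | ⟨t, h6⟩
            · exact Or.inl (GV.y.inj h6)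
            · cases h6
        · rcases mem_Q.1 h4 with ⟨h5, _⟩ | ⟨t, _, j', h6⟩
          · exact Or.inr h5
          · cases h6
      · rintro (rfl | rfl)
        · exact mem_union_left _ (mem_union_right _ (mem_Qd.2 (Or.inl rfl)))
        · by_cases hc : c = β
          · subst hc
            exact mem_union_left _ (mem_union_right _ (mem_Qd.2 (Or.inl rfl)))
          · have hc' : c = !β := by
              cases c <;> cases β <;> simp_all
            subst hc'
            exact mem_union_right _ (mem_Q.2 (Or.inl ⟨rfl, rfl⟩))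
    have mv : ∀ (θ : Fin k → Bool) (o : Option (Fin b)) (β : Bool) (f : Fin b → Fin w)
        (c : Bool) (t : Fin b) (j : Fin w),
        GV.v c t j ∈ (GV.pat θ ∪ GV.Qd β f ∪ GV.Q (!β) o : Finset (GV k w b)) ↔
          (c = β ∧ j = f t) ∨ (c = !β ∧ o = some t) := by
      intro θ o β f c t j
      constructor
      · intro h3
        rcases mem_union.1 h3 with h4 | h4
        · rcases mem_union.1 h4 with h5 | h5
          · obtain ⟨l, h6⟩ := mem_pat.1 h5
            cases h6
          · rcases mem_Qd.1 h5 with h6 | ⟨t', h6⟩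
            · cases h6
            · have e := GV.v.inj h6
              left
              refine ⟨e.1.symm, ?_⟩
              rw [← e.2.2, e.2.1]
        · rcases mem_Q.1 h4 with ⟨_, h6⟩ | ⟨t', h5, j', h6⟩
          · cases h6
          · have e := GV.v.inj h6
            right
            refine ⟨e.1.symm, ?_⟩
            rw [h5, e.2.1]
      · rintro (⟨rfl, rfl⟩ | ⟨rfl, rfl⟩)
        · exact mem_union_left _ (mem_union_right _ (mem_Qd.2 (Or.inr ⟨t, rfl⟩)))
        · exact mem_union_right _ (mem_Q.2 (Or.inr ⟨t, rfl, j, rfl⟩))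
    have eθ : θ = θ' := by
      funext j
      have h3 := (ms θ o β f j (θ j)).2 rfl
      rw [h2] at h3
      exact (ms θ' o' β' f' j (θ j)).1 h3
    have hno : o = none ↔ o' = none := by
      constructor
      · intro ho
        have h3 := (my θ o β f (!β')).2 (Or.inr ho)
        rw [h2] at h3
        rcases (my θ' o' β' f' (!β')).1 h3 with h4 | h4
        · cases β' <;> simp at h4
        · exact h4
      · intro ho
        have h3 := (my θ' o' β' f' (!β)).2 (Or.inr ho)
        rw [← h2] at h3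
        rcases (my θ o β f (!β)).1 h3 with h4 | h4
        · cases β <;> simp at h4
        · exact h4
    have eβ : β = β' := by
      by_cases ho : o = none
      · have ho' := hno.1 ho
        have h3 := (mv θ o β f β ⟨0, hb⟩ (f ⟨0, hb⟩)).2 (Or.inl ⟨rfl, rfl⟩)
        rw [h2] at h3
        rcases (mv θ' o' β' f' β ⟨0, hb⟩ (f ⟨0, hb⟩)).1 h3 with h4 | h4
        · exact h4.1
        · rw [ho'] at h4
          cases h4.2
      · have ho' : ¬ o' = none := fun h => ho (hno.2 h)
        have h3 := (my θ o β f β).2 (Or.inl rfl)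
        rw [h2] at h3
        rcases (my θ' o' β' f' β).1 h3 with h4 | h4
        · exact h4
        · exact absurd h4 ho'
    subst eβ
    have ef : f = f' := by
      funext t
      have h3 := (mv θ o β f β t (f t)).2 (Or.inl ⟨rfl, rfl⟩)
      rw [h2] at h3
      rcases (mv θ' o' β f' β t (f t)).1 h3 with h4 | h4
      · exact h4.2
      · have := h4.1
        cases β <;> simp at this
    have eo : o = o' := by
      cases o with
      | none => exact (hno.1 rfl).symm
      | some t =>
        have h3 := (mv θ (some t) β f (!β) t ⟨0, hw⟩).2 (Or.inr ⟨rfl, rfl⟩)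
        rw [h2] at h3
        rcases (mv θ' o' β f' (!β) t ⟨0, hw⟩).1 h3 with h4 | h4
        · have := h4.1
          cases β <;> simp at this
        · exact h4.2.symm
    rw [ef, eo, eθ]

private theorem x_mem12 {A : Finset (GV k w b)} (h : A ∈ GH1 k w b ∪ GH2 k w b) : GV.x ∈ A := by
  rcases mem_union.1 h with h | h
  · rw [GH1, mem_image] at h
    obtain ⟨i, _, rfl⟩ := h
    exact mem_insert_self _ _
  · rw [GH2, mem_image] at h
    obtain ⟨p, _, rfl⟩ := h
    exact mem_insert_self _ _

private theorem x_notMem3 {A : Finset (GV k w b)} (h : A ∈ GH3 k w b) : GV.x ∉ A := by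
  rw [GH3, mem_image] at h
  obtain ⟨p, _, rfl⟩ := h
  intro h1
  rcases mem_insert.1 h1 with h2 | h2
  · cases h2
  · rcases mem_union.1 h2 with h3 | h3
    · obtain ⟨i, h4⟩ := mem_pat.1 h3
      cases h4
    · rcases mem_Qd.1 h3 with h4 | ⟨t, h4⟩ <;> cases h4

private theorem z_mem3 {A : Finset (GV k w b)} (h : A ∈ GH3 k w b) : ∃ η, GV.z η ∈ A := by
  rw [GH3, mem_image] at h
  obtain ⟨p, _, rfl⟩ := h
  exact ⟨_, mem_insert_self _ _⟩

private theorem xz_notMem4 {A : Finset (GV k w b)} (h : A ∈ GH4 k w b) :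
    (GV.x ∉ A ∧ ∀ η, GV.z η ∉ A) ∧ ∃ i, GV.s i false ∈ A ∧ GV.s i true ∈ A := by
  rw [GH4, mem_image] at h
  obtain ⟨p, hp, rfl⟩ := h
  rw [mem_filter] at hp
  have key : ∀ a : GV k w b, a ∈ insert (GV.s p.1.1 true) (GV.pat p.1.2 ∪ GV.Qd p.2.1 p.2.2) →
      a ≠ GV.x ∧ ∀ η, a ≠ GV.z η := by
    intro a h1
    rcases mem_insert.1 h1 with h2 | h2
    · subst h2
      simp
    · rcases mem_union.1 h2 with h3 | h3
      · obtain ⟨i, rfl⟩ := mem_pat.1 h3
        simp
      · rcases mem_Qd.1 h3 with rfl | ⟨t, rfl⟩ <;> simp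
  refine ⟨⟨fun h1 => (key _ h1).1 rfl, fun η h1 => (key _ h1).2 η rfl⟩, p.1.1, ?_, ?_⟩
  · exact mem_insert_of_mem (mem_union_left _ (mem_pat.2 ⟨p.1.1, by rw [hp.2]⟩))
  · exact mem_insert_self _ _

private theorem xz_notMem5 {A : Finset (GV k w b)} (h : A ∈ GH5 k w b) :
    (GV.x ∉ A ∧ ∀ η, GV.z η ∉ A) ∧ ∀ i, ¬ (GV.s i false ∈ A ∧ GV.s i true ∈ A) := by
  rw [GH5, mem_image] at h
  obtain ⟨p, _, rfl⟩ := h
  have key : ∀ a : GV k w b, a ∈ GV.pat p.1.1 ∪ GV.Qd p.2.1 p.2.2 ∪ GV.Q (!p.2.1) p.1.2 →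
      (a ≠ GV.x ∧ ∀ η, a ≠ GV.z η) ∧ ∀ i c, a = GV.s i c → c = p.1.1 i := by
    intro a h1
    rcases mem_union.1 h1 with h2 | h2
    · rcases mem_union.1 h2 with h3 | h3
      · obtain ⟨i, rfl⟩ := mem_pat.1 h3
        refine ⟨by simp, fun i' c h => ?_⟩
        have e := GV.s.inj h
        rw [← e.2, e.1]
      · rcases mem_Qd.1 h3 with rfl | ⟨t, rfl⟩
        · exact ⟨by simp, fun i' c h => by cases h⟩
        · exact ⟨by simp, fun i' c h => by cases h⟩
    · rcases mem_Q.1 h2 with ⟨_, rfl⟩ | ⟨t, _, j, rfl⟩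
      · exact ⟨by simp, fun i' c h => by cases h⟩
      · exact ⟨by simp, fun i' c h => by cases h⟩
  refine ⟨⟨fun h1 => (key _ h1).1.1 rfl, fun η h1 => (key _ h1).1.2 η rfl⟩, fun i hi => ?_⟩
  have h1 := (key _ hi.1).2 i false rfl
  have h2 := (key _ hi.2).2 i true rfl
  rw [← h1] at h2
  cases h2

private theorem dis12 : Disjoint (GH1 k w b) (GH2 k w b) := by
  rw [Finset.disjoint_left]
  intro A h1 h2
  rw [GH1, mem_image] at h1
  obtain ⟨i, _, rfl⟩ := h1
  rw [GH2, mem_image] at h2
  obtain ⟨p, _, hp⟩ := h2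
  have h3 : GV.s i false ∈ (insert GV.x (GV.Q false p.1 ∪ GV.Q true p.2) : Finset (GV k w b)) := by
    rw [hp]
    simp
  rcases mem_insert.1 h3 with h4 | h4
  · cases h4
  · rcases mem_union.1 h4 with h5 | h5 <;>
      rcases mem_Q.1 h5 with ⟨_, h⟩ | ⟨t, _, j, h⟩ <;> cases h

end

theorem gh_sum (k w b M : ℕ) (hw : 1 ≤ w) (hb : 1 ≤ b) :
    ∀ (mx : ℕ) (m : (Fin k → Bool) → ℕ),
      ∑ A ∈ GH k w b, ∏ i ∈ A, GV.num M mx m i =
        mx * GD k b M + 2 * M ^ (k + 1) * w ^ b * ∑ η, m η +
          (k * 2 ^ k * w ^ b * M ^ (k + 2) + 2 ^ (k + 1) * w ^ b * M ^ (k + 1) * (M + b)) := by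
  intro mx m
  have d3 : Disjoint (GH1 k w b ∪ GH2 k w b) (GH3 k w b) := by
    rw [Finset.disjoint_left]
    intro A h1 h2
    exact x_notMem3 h2 (x_mem12 h1)
  have d4 : Disjoint (GH1 k w b ∪ GH2 k w b ∪ GH3 k w b) (GH4 k w b) := by
    rw [Finset.disjoint_left]
    intro A h1 h2
    have h3 := (xz_notMem4 h2).1
    rcases mem_union.1 h1 with h4 | h4
    · exact h3.1 (x_mem12 h4)
    · obtain ⟨η, hη⟩ := z_mem3 h4
      exact h3.2 η hη
  have d5 : Disjoint (GH1 k w b ∪ GH2 k w b ∪ GH3 k w b ∪ GH4 k w b) (GH5 k w b) := by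
    rw [Finset.disjoint_left]
    intro A h1 h2
    have h3 := xz_notMem5 h2
    rcases mem_union.1 h1 with h4 | h4
    · rcases mem_union.1 h4 with h4 | h4
      · exact h3.1.1 (x_mem12 h4)
      · obtain ⟨η, hη⟩ := z_mem3 h4
        exact h3.1.2 η hη
    · obtain ⟨i, hi⟩ := (xz_notMem4 h4).2
      exact h3.2 i hi
  rw [GH, Finset.sum_union d5, Finset.sum_union d4, Finset.sum_union d3, Finset.sum_union dis12,
    sum_GH1, sum_GH2 hw, sum_GH3 hb, sum_GH4, sum_GH5 hw hb, GD]
  ring

end Pool.Agent.Lib.MP_87840f_co.Spec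
end

section

/-!
# MP_87840f_co, edge spectrum, GS5: products, powers, Erdos-Lovasz step

att_mul: restrict the first clique F to the finite type of its vertices (for example
V = {x // x ∈ F.biUnion id}, H = F.image of the restriction, or Fin N) and use att_subst with
w = b, m = mb constant; the sum is ma * mb^a because every edge has a elements. att_succ: att_subst for
the outer hypergraph on Option (Fin (n+1)) with edges {none, some i} and the set of all some i;
weight n (number m) on none and weight 1 on the others; the n+1 edges {none, some i} give m each, the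
last one gives 1. att_pow: induction on r with att_mul (n1^(r+1) = n1^r * n1 or n1 * n1^r) and
att_one.
-/

open Finset

namespace Pool.Agent.Lib.MP_87840f_co.Spec

private theorem fin2_ite_inj {x y : Bool}
    (h : (if x = true then (1 : Fin 2) else 0) = if y = true then (1 : Fin 2) else 0) : x = y := by
  revert h
  revert x y
  decide

theorem att_mul {a ma b mb : ℕ} (h1 : Att a ma) (h2 : Att b mb) : Att (a * b) (ma * mb ^ a) := by
  classical
  obtain ⟨F, hF, hF2, hFc⟩ := h1
  let N : ℕ := (F.biUnion id).sup id + 1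
  have hN : ∀ A ∈ F, ∀ x ∈ A, x < N := by
    intro A hA x hx
    have h3 : x ∈ F.biUnion id := mem_biUnion.2 ⟨A, hA, hx⟩
    have h4 : x ≤ (F.biUnion id).sup id := Finset.le_sup (f := id) h3
    exact Nat.lt_succ_of_le h4
  let r : Finset ℕ → Finset (Fin N) := fun A => univ.filter (fun i : Fin N => (i : ℕ) ∈ A)
  have hr : ∀ (A : Finset ℕ) (i : Fin N), i ∈ r A ↔ (i : ℕ) ∈ A := by
    intro A i
    simp [r]
  have hcard : ∀ A ∈ F, (r A).card = a := by
    intro A hA
    rw [← hF.1 A hA]
    refine Finset.card_nbij (fun i : Fin N => (i : ℕ)) ?_ ?_ ?_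
    · intro i hi
      exact (hr A i).1 hi
    · intro i _ j _ hij
      exact Fin.ext hij
    · intro x hx
      exact ⟨⟨x, hN A hA x hx⟩, (hr A _).2 hx, rfl⟩
  have hinj : Set.InjOn r (F : Set (Finset ℕ)) := by
    intro A hA B hB hAB
    ext x
    constructor
    · intro hx
      have h3 : (⟨x, hN A hA x hx⟩ : Fin N) ∈ r A := (hr A _).2 hx
      rw [hAB] at h3
      exact (hr B _).1 h3
    · intro hx
      have h3 : (⟨x, hN B hB x hx⟩ : Fin N) ∈ r B := (hr B _).2 hx
      rw [← hAB] at h3
      exact (hr A _).1 h3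
  have hO : IsOuter (F.image r) := by
    refine ⟨?_, ?_⟩
    · intro A' hA' B' hB'
      obtain ⟨A, hA, rfl⟩ := mem_image.1 hA'
      obtain ⟨B, hB, rfl⟩ := mem_image.1 hB'
      obtain ⟨x, hx, hx'⟩ := hF.2 A hA B hB
      exact ⟨⟨x, hN A hA x hx⟩, (hr A _).2 hx, (hr B _).2 hx'⟩
    · intro c
      by_contra hcon
      apply hF2
      refine ⟨fun x => if h : x < N then (if c ⟨x, h⟩ = true then 1 else 0) else 0, ?_⟩
      rintro A hA ⟨i, hi⟩
      apply hcon
      refine ⟨r A, mem_image_of_mem r hA, ?_⟩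
      obtain ⟨x0, hx0, -⟩ := hF.2 A hA A hA
      refine ⟨c ⟨x0, hN A hA x0 hx0⟩, ?_⟩
      intro y hy
      have hyA := (hr A y).1 hy
      have e1 := hi x0 hx0
      have e2 := hi y hyA
      beta_reduce at e1 e2
      rw [dif_pos (hN A hA x0 hx0)] at e1
      rw [dif_pos y.2, ← e1] at e2
      exact fin2_ite_inj e2
  have key := att_subst (F.image r) hO (fun _ => b) (fun _ => mb) (a * b) ?_ (fun _ => h2)
  · have hs : ∑ A ∈ F.image r, ∏ _i ∈ A, mb = ma * mb ^ a := by
      rw [Finset.sum_image hinj]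
      have h3 : ∀ A ∈ F, ∏ _i ∈ r A, mb = mb ^ a := by
        intro A hA
        rw [Finset.prod_const, hcard A hA]
      rw [Finset.sum_congr rfl h3, Finset.sum_const, hFc, smul_eq_mul]
    rw [hs] at key
    exact key
  · intro A' hA'
    obtain ⟨A, hA, rfl⟩ := mem_image.1 hA'
    rw [Finset.sum_const, hcard A hA, smul_eq_mul]

theorem att_succ {n m : ℕ} (h : Att n m) : Att (n + 1) ((n + 1) * m + 1) := by
  classical
  let e : Fin (n + 1) → Finset (Option (Fin (n + 1))) := fun i => {none, some i}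
  let S : Finset (Option (Fin (n + 1))) := univ.image some
  have heinj : Function.Injective e := by
    intro i j hij
    have h1 : some i ∈ e j := by
      rw [← hij]
      simp [e]
    simpa [e] using h1
  have hS : S ∉ univ.image e := by
    intro hS
    obtain ⟨i, -, hi⟩ := mem_image.1 hS
    have h1 : (none : Option (Fin (n + 1))) ∈ S := by
      rw [← hi]
      simp [e]
    simp [S] at h1
  let w : Option (Fin (n + 1)) → ℕ := fun o => match o with
    | none => n
    | some _ => 1
  let mm : Option (Fin (n + 1)) → ℕ := fun o => match o with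
    | none => m
    | some _ => 1
  have hmem : ∀ i : Fin (n + 1), some i ∈ S := fun i => mem_image_of_mem _ (mem_univ i)
  have hO : IsOuter (insert S (univ.image e)) := by
    refine ⟨?_, ?_⟩
    · intro A hA B hB
      rcases mem_insert.1 hA with rfl | hA
      · rcases mem_insert.1 hB with rfl | hB
        · exact ⟨some 0, hmem 0, hmem 0⟩
        · obtain ⟨j, -, rfl⟩ := mem_image.1 hB
          exact ⟨some j, hmem j, by simp [e]⟩
      · obtain ⟨i, -, rfl⟩ := mem_image.1 hA
        rcases mem_insert.1 hB with rfl | hB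
        · exact ⟨some i, by simp [e], hmem i⟩
        · obtain ⟨j, -, rfl⟩ := mem_image.1 hB
          exact ⟨none, by simp [e], by simp [e]⟩
    · intro c
      by_cases hc : ∃ i : Fin (n + 1), c (some i) = c none
      · obtain ⟨i, hi⟩ := hc
        refine ⟨e i, mem_insert_of_mem (mem_image_of_mem _ (mem_univ i)), c none, ?_⟩
        intro x hx
        have hx' : x = none ∨ x = some i := by simpa [e] using hx
        rcases hx' with rfl | rfl
        · rfl
        · exact hi
      · refine ⟨S, mem_insert_self _ _, !c none, ?_⟩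
        intro x hx
        obtain ⟨i, -, rfl⟩ := mem_image.1 hx
        have h1 : c (some i) ≠ c none := fun h => hc ⟨i, h⟩
        revert h1
        cases c (some i) <;> cases c none <;> simp
  have key := att_subst (insert S (univ.image e)) hO w mm (n + 1) ?_ ?_
  · have hs : ∑ A ∈ insert S (univ.image e), ∏ i ∈ A, mm i = (n + 1) * m + 1 := by
      rw [Finset.sum_insert hS, Finset.sum_image (fun i _ j _ h => heinj h)]
      have h1 : ∏ i ∈ S, mm i = 1 := by
        refine Finset.prod_eq_one ?_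
        intro x hx
        obtain ⟨i, -, rfl⟩ := mem_image.1 hx
        rfl
      have h2 : ∀ i ∈ (univ : Finset (Fin (n + 1))), ∏ x ∈ e i, mm x = m := by
        intro i _
        show ∏ x ∈ ({none, some i} : Finset (Option (Fin (n + 1)))), mm x = m
        rw [Finset.prod_pair (by simp)]
        simp [mm]
      rw [h1, Finset.sum_congr rfl h2, Finset.sum_const, card_univ, Fintype.card_fin, smul_eq_mul]
      ring
    rw [hs] at key
    exact key
  · intro A hA
    rcases mem_insert.1 hA with rfl | hA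
    · rw [Finset.sum_image (fun i _ j _ h => Option.some_injective _ h)]
      simp [w]
    · obtain ⟨i, -, rfl⟩ := mem_image.1 hA
      show ∑ x ∈ ({none, some i} : Finset (Option (Fin (n + 1)))), w x = n + 1
      rw [Finset.sum_pair (by simp)]
  · intro o
    match o with
    | none => exact h
    | some _ => exact att_one

theorem att_pow (n1 m1 : ℕ) (h : Att n1 m1) (r : ℕ) :
    Att (n1 ^ r) (m1 ^ (∑ i ∈ range r, n1 ^ i)) := by
  induction r with
  | zero => simpa using att_one
  | succ r ih =>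
    have h1 := att_mul ih h
    rw [← pow_succ, ← pow_add, ← Finset.sum_range_succ] at h1
    exact h1


end Pool.Agent.Lib.MP_87840f_co.Spec
end

section

/-!
# MP_87840f_co, edge spectrum, GS6: normalization of the base clique

m1 ≥ 1 since a family without edges is 2-colourable. Put θ = m1^(1/(n1-1)) < C (real power), θ ≥ 1. For r
large n2 = n1^r + 1 and m2 = n2 * m1^(g r) + 1, g r = ∑ i < r, n1^i = (n1^r - 1)/(n1 - 1), are attained
(att_pow, att_succ); m2 ≡ 1 mod n2; m2 ≤ 2 n2 θ^(n1^r) < C^(n1^r) = C^(n2-1) for r large as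
(C/θ)^(n1^r) grows faster than 2(n1^r+1). If n1 is odd, n2 is even: done. If n1 is even, n2 is odd: apply
the construction once more to (n2, m2).
-/

open Finset

namespace Pool.Agent.Lib.MP_87840f_co.Spec

private lemma normal_step (C : ℝ) (hC : 1 < C) (n m : ℕ) (hn : 2 ≤ n) (h : Att n m)
    (hlt : (m : ℝ) < C ^ (n - 1)) :
    ∃ r m' : ℕ, 1 ≤ r ∧ Att (n ^ r + 1) m' ∧ m' % (n ^ r + 1) = 1 ∧
      (m' : ℝ) < C ^ (n ^ r) := by
  obtain ⟨x, rfl⟩ : ∃ x, n = x + 1 := ⟨n - 1, by omega⟩
  have hx : 1 ≤ x := by omega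
  rw [Nat.add_sub_cancel] at hlt
  have hCx : 0 < C ^ x := by positivity
  set q : ℝ := (m : ℝ) / C ^ x with hq
  have hq0 : 0 ≤ q := by positivity
  have hq1 : q < 1 := by rwa [hq, div_lt_one hCx]
  have hmq : (m : ℝ) = q * C ^ x := by
    rw [hq]
    field_simp
  have ht := tendsto_self_mul_const_pow_of_lt_one hq0 hq1
  have hpos : (0 : ℝ) < (C - 1) / (x + 2) := by
    apply div_pos
    · linarith
    · positivity
  have hev := ht.eventually_lt_const hpos
  obtain ⟨N, hN⟩ := Filter.eventually_atTop.mp hev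
  set g : ℕ := ∑ i ∈ range (N + 1), (x + 1) ^ i with hg
  have hgN : N + 1 ≤ g := by
    have h1 : ∑ i ∈ range (N + 1), 1 ≤ g := by
      apply Finset.sum_le_sum
      intro i _
      exact Nat.one_le_pow _ _ (by omega)
    simpa using h1
  have hgeo : g * x + 1 = (x + 1) ^ (N + 1) := geom_sum_mul_add x (N + 1)
  refine ⟨N + 1, ((x + 1) ^ (N + 1) + 1) * m ^ g + 1, by omega,
    att_succ (att_pow (x + 1) m h (N + 1)), ?_, ?_⟩
  · rw [Nat.mul_add_mod]
    apply Nat.mod_eq_of_lt
    have : 1 ≤ (x + 1) ^ (N + 1) := Nat.one_le_pow _ _ (by omega)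
    omega
  · have h2 := hN g (by omega)
    have hg1 : (1 : ℝ) ≤ (g : ℝ) := by
      have : 1 ≤ g := by omega
      exact_mod_cast this
    set X : ℝ := C ^ (g * x) with hX
    have hX1 : 1 < X := one_lt_pow₀ hC (by
      have : 1 ≤ g * x := Nat.mul_pos (by omega) hx
      omega)
    have hmg : (m : ℝ) ^ g = q ^ g * X := by
      rw [hmq, mul_pow, hX, mul_comm g x, pow_mul]
    rw [← hgeo, pow_succ, ← hX]
    push_cast
    rw [hmg]
    have hx2 : (0 : ℝ) < (x : ℝ) + 2 := by positivity
    have h3 : ((x : ℝ) + 2) * ((g : ℝ) * q ^ g) < C - 1 := by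
      rw [lt_div_iff₀ hx2] at h2
      linarith
    have hqg : 0 ≤ q ^ g := by positivity
    have h4 : ((g : ℝ) * x + 1 + 1) * q ^ g ≤ ((x : ℝ) + 2) * ((g : ℝ) * q ^ g) := by
      have : ((g : ℝ) * x + 1 + 1) ≤ ((x : ℝ) + 2) * g := by nlinarith
      calc ((g : ℝ) * x + 1 + 1) * q ^ g ≤ (((x : ℝ) + 2) * g) * q ^ g :=
            mul_le_mul_of_nonneg_right this hqg
        _ = ((x : ℝ) + 2) * ((g : ℝ) * q ^ g) := by ring
    have h5 : ((g : ℝ) * x + 1 + 1) * (q ^ g * X) ≤ (C - 1) * X := by
      rw [← mul_assoc]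
      exact mul_le_mul_of_nonneg_right (by linarith) (by linarith)
    nlinarith

theorem normalize (C : ℝ) (hC : 1 < C) (n1 m1 : ℕ) (h2 : 2 ≤ n1) (h : Att n1 m1)
    (hlt : (m1 : ℝ) < C ^ (n1 - 1)) :
    ∃ n2 m2 : ℕ, 2 ≤ n2 ∧ Even n2 ∧ m2 % n2 = 1 ∧ Att n2 m2 ∧ (m2 : ℝ) < C ^ (n2 - 1) := by
  obtain ⟨r, m2, hr, ha, hmod, hlt2⟩ := normal_step C hC n1 m1 h2 h hlt
  have hpow : 1 ≤ n1 ^ r := Nat.one_le_pow _ _ (by omega)
  rcases Nat.even_or_odd n1 with he | ho
  · have hodd : Odd (n1 ^ r + 1) := by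
      apply Even.add_one
      exact (Nat.even_pow.mpr ⟨he, by omega⟩)
    obtain ⟨r', m3, hr', ha', hmod', hlt3⟩ :=
      normal_step C hC (n1 ^ r + 1) m2 (by omega) ha (by simpa using hlt2)
    have hpow' : 1 ≤ (n1 ^ r + 1) ^ r' := Nat.one_le_pow _ _ (by omega)
    exact ⟨(n1 ^ r + 1) ^ r' + 1, m3, by omega, (hodd.pow).add_one, hmod', ha', by
      simpa using hlt3⟩
  · exact ⟨n1 ^ r + 1, m2, by omega, (ho.pow).add_one, hmod, ha, by simpa using hlt2⟩


end Pool.Agent.Lib.MP_87840f_co.Spec
end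

section

/-!
# MP_87840f_co, edge spectrum, ES7: the switch hypergraph

Weights: the weight of an element of Fin 4 ⊕ V is 1 on the left and w on the right; the total weight
is 2n. Every edge of SH has weight n: P.disjSum A has weight P.card + ∑ A w; for A in wset w (n-2) the
complement has weight (2n-4) - (n-2) = n-2.
Intersecting: if two edges E = P.disjSum A, E' = P'.disjSum A' have no common element then, as both
have weight n, the total weight is 2n and all weights are ≥ 1, E' is the complement of E: P' = Pᶜ and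
A' = Aᶜ. But no two complementary patterns are both in pats (decide), {0,1} and {2,3} are not
in pats, and if P = {0,1}, P' = {2,3} then A ∈ B and A' = A₀ᶜ with A₀ ∉ B, A' = Aᶜ, so A₀ = A, contradiction.
Colourings: let c be given; for a colour r let P r ⊆ Fin 4, U r ⊆ V be the elements of colour r. The
total weight is 2n. Case 1: some colour r has weight ≥ n+1, i.e. card (P r) + ∑ (U r) w ≥ n+1. For every
P ⊆ Fin 4 there is P' ∈ pats with P' ⊆ P and card P ≤ card P' + 1 (decide: 16 cases). By hsub with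
i = n - card P' (card P' ≤ 3) there is A ⊆ U r of weight n - card P'; the edge P'.disjSum A has
colour r. Case 2: both colours have weight exactly n. For each P ⊆ Fin 4: P ∈ pats, or Pᶜ ∈ pats, or
P = {0,1} or P = {2,3} (decide). If P r ∈ pats take (P r).disjSum (U r). If P (true) = {0,1}: U true has
weight n-2, either in B, then {0,1}.disjSum (U true) is an edge of colour true, or not, then
{2,3}.disjSum (U true)ᶜ is an edge of colour false.
-/

open Finset

namespace Pool.Agent.Lib.MP_87840f_co.Spec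

private theorem pats_card : ∀ P ∈ pats, P.card ≤ 3 := by decide

private theorem pats_sub : ∀ P : Finset (Fin 4), ∃ P' ∈ pats, P' ⊆ P ∧ P.card ≤ P'.card + 1 := by
  decide

private theorem pats_compl : ∀ P ∈ pats, Pᶜ ∉ pats ∧ Pᶜ ≠ {0, 1} ∧ Pᶜ ≠ {2, 3} := by decide

private theorem pats_all : ∀ P : Finset (Fin 4),
    P ∈ pats ∨ Pᶜ ∈ pats ∨ P = {0, 1} ∨ Pᶜ = {0, 1} := by decide

private theorem pats_01 : ({0, 1} : Finset (Fin 4))ᶜ ∉ pats ∧
    ({0, 1} : Finset (Fin 4))ᶜ ≠ {0, 1} ∧ ({2, 3} : Finset (Fin 4))ᶜ ∉ pats ∧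
    ({2, 3} : Finset (Fin 4))ᶜ ≠ {2, 3} := by decide

section

variable {V : Type*} [Fintype V] [DecidableEq V]

private theorem mem_SH (w : V → ℕ) (n : ℕ) (B : Finset (Finset V)) (E : Finset (Fin 4 ⊕ V)) :
    E ∈ SH w n B ↔ (∃ P ∈ pats, ∃ A, ∑ x ∈ A, w x = n - P.card ∧ P.disjSum A = E) ∨
      (∃ A ∈ B, ({0, 1} : Finset (Fin 4)).disjSum A = E) ∨
      (∃ A, ∑ x ∈ A, w x = n - 2 ∧ A ∉ B ∧ ({2, 3} : Finset (Fin 4)).disjSum Aᶜ = E) := by
  simp only [SH, wset, mem_union, mem_biUnion, mem_image, mem_filter, mem_univ, true_and,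
    mem_sdiff, and_assoc, or_assoc]

omit [Fintype V] [DecidableEq V] in
private theorem wt_disjSum (w : V → ℕ) (P : Finset (Fin 4)) (A : Finset V) :
    ∑ i ∈ P.disjSum A, Sum.elim (fun _ => 1) w i = P.card + ∑ x ∈ A, w x := by
  rw [Finset.sum_disjSum]
  simp

private theorem compl_of_disj (w : V → ℕ) (n : ℕ) (hw : ∀ x, 1 ≤ w x)
    (htot : ∑ x, w x + 4 = 2 * n) {P P' : Finset (Fin 4)} {A A' : Finset V}
    (h1 : P.card + ∑ x ∈ A, w x = n) (h2 : P'.card + ∑ x ∈ A', w x = n)
    (hd : ¬ ∃ x, x ∈ P.disjSum A ∧ x ∈ P'.disjSum A') : P' = Pᶜ ∧ A' = Aᶜ := by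
  have dP : Disjoint P P' := by
    rw [Finset.disjoint_left]
    intro a ha hb
    exact hd ⟨Sum.inl a, by simpa using ha, by simpa using hb⟩
  have dA : Disjoint A A' := by
    rw [Finset.disjoint_left]
    intro a ha hb
    exact hd ⟨Sum.inr a, by simpa using ha, by simpa using hb⟩
  have e1 : (P ∪ P').card = P.card + P'.card := Finset.card_union_of_disjoint dP
  have e2 : ∑ x ∈ A ∪ A', w x = ∑ x ∈ A, w x + ∑ x ∈ A', w x := Finset.sum_union dA
  have l1 : (P ∪ P').card ≤ 4 := by
    have := Finset.card_le_univ (P ∪ P')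
    simpa using this
  have l2 : ∑ x ∈ (A ∪ A')ᶜ, w x + ∑ x ∈ A ∪ A', w x = ∑ x, w x :=
    Finset.sum_compl_add_sum _ _
  have u1 : P ∪ P' = univ := by
    rw [← Finset.card_eq_iff_eq_univ]
    simp only [Fintype.card_fin]
    omega
  have z : ∑ x ∈ (A ∪ A')ᶜ, w x = 0 := by omega
  have u2 : A ∪ A' = univ := by
    rw [← Finset.compl_eq_empty_iff, Finset.eq_empty_iff_forall_notMem]
    intro x hx
    have := (Finset.sum_eq_zero_iff.1 z) x hx
    have := hw x
    omega
  constructor
  · ext i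
    have a1 : i ∈ P ∪ P' := u1 ▸ mem_univ i
    rw [mem_compl]
    constructor
    · intro hi hi'
      exact (Finset.disjoint_left.1 dP) hi' hi
    · intro hi
      rcases mem_union.1 a1 with h | h
      · exact absurd h hi
      · exact h
  · ext i
    have a1 : i ∈ A ∪ A' := u2 ▸ mem_univ i
    rw [mem_compl]
    constructor
    · intro hi hi'
      exact (Finset.disjoint_left.1 dA) hi' hi
    · intro hi
      rcases mem_union.1 a1 with h | h
      · exact absurd h hi
      · exact h

omit [Fintype V] [DecidableEq V] in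
private theorem mono_disjSum {c : Fin 4 ⊕ V → Bool} {r : Bool} {P : Finset (Fin 4)} {A : Finset V}
    (hP : ∀ i ∈ P, c (Sum.inl i) = r) (hA : ∀ i ∈ A, c (Sum.inr i) = r) :
    ∀ x ∈ P.disjSum A, c x = r := by
  rintro (i | v) hx
  · exact hP i (by simpa using hx)
  · exact hA v (by simpa using hx)

end

theorem switch_outer {V : Type*} [Fintype V] [DecidableEq V] (w : V → ℕ) (n : ℕ)
    (hn : 4 ≤ n) (hw : ∀ x, 1 ≤ w x) (htot : ∑ x, w x + 4 = 2 * n)
    (hsub : ∀ (U : Finset V) (i : ℕ), n - 3 ≤ i → i ≤ n → i ≤ ∑ x ∈ U, w x →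
      ∃ A ⊆ U, ∑ x ∈ A, w x = i)
    (B : Finset (Finset V)) (hB : B ⊆ wset w (n - 2)) : IsOuter (SH w n B) ∧
    ∀ E ∈ SH w n B, ∑ i ∈ E, Sum.elim (fun _ => 1) w i = n := by
  have hB' : ∀ A ∈ B, ∑ x ∈ A, w x = n - 2 := fun A hA => (mem_filter.1 (hB hA)).2
  have hc : ∀ A : Finset V, ∑ x ∈ Aᶜ, w x + ∑ x ∈ A, w x = ∑ x, w x :=
    fun A => Finset.sum_compl_add_sum _ _
  have c01 : ({0, 1} : Finset (Fin 4)).card = 2 := by decide
  have c23 : ({2, 3} : Finset (Fin 4)).card = 2 := by decide
  refine ⟨⟨?_, ?_⟩, ?_⟩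
  · intro E hE E' hE'
    by_contra hd
    rw [mem_SH] at hE hE'
    rcases hE with ⟨P, hP, A, hA, rfl⟩ | ⟨A, hA, rfl⟩ | ⟨A, hA, hAB, rfl⟩
    · have k1 := pats_card P hP
      rcases hE' with ⟨P', hP', A', hA', rfl⟩ | ⟨A', hA', rfl⟩ | ⟨A', hA', hAB', rfl⟩
      · have k2 := pats_card P' hP'
        have h := compl_of_disj w n hw htot (by omega) (by omega) hd
        exact (pats_compl P hP).1 (h.1 ▸ hP')
      · have k2 := hB' A' hA'
        have h := compl_of_disj w n hw htot (by omega) (by omega) hd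
        exact (pats_compl P hP).2.1 h.1.symm
      · have k2 := hc A'
        have h := compl_of_disj w n hw htot (by omega) (by omega) hd
        exact (pats_compl P hP).2.2 h.1.symm
    · have k1 := hB' A hA
      rcases hE' with ⟨P', hP', A', hA', rfl⟩ | ⟨A', hA', rfl⟩ | ⟨A', hA', hAB', rfl⟩
      · have k2 := pats_card P' hP'
        have h := compl_of_disj w n hw htot (by omega) (by omega) hd
        exact pats_01.1 (h.1 ▸ hP')
      · have k2 := hB' A' hA'
        have h := compl_of_disj w n hw htot (by omega) (by omega) hd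
        exact pats_01.2.1 h.1.symm
      · have k2 := hc A'
        have h := compl_of_disj w n hw htot (by omega) (by omega) hd
        exact hAB' (by rw [compl_injective h.2]; exact hA)
    · have k1 := hc A
      rcases hE' with ⟨P', hP', A', hA', rfl⟩ | ⟨A', hA', rfl⟩ | ⟨A', hA', hAB', rfl⟩
      · have k2 := pats_card P' hP'
        have h := compl_of_disj w n hw htot (by omega) (by omega) hd
        exact pats_01.2.2.1 (h.1 ▸ hP')
      · have k2 := hB' A' hA'
        have h := compl_of_disj w n hw htot (by omega) (by omega) hd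
        have h2 := h.2
        rw [compl_compl] at h2
        exact hAB (h2 ▸ hA')
      · have k2 := hc A'
        have h := compl_of_disj w n hw htot (by omega) (by omega) hd
        exact pats_01.2.2.2 h.1.symm
  · intro c
    set P : Bool → Finset (Fin 4) := fun r => univ.filter (fun i => c (Sum.inl i) = r) with hPdef
    set U : Bool → Finset V := fun r => univ.filter (fun i => c (Sum.inr i) = r) with hUdef
    have hPm : ∀ r i, i ∈ P r → c (Sum.inl i) = r := fun r i hi => (mem_filter.1 hi).2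
    have hUm : ∀ r i, i ∈ U r → c (Sum.inr i) = r := fun r i hi => (mem_filter.1 hi).2
    have hPc : ∀ r, P (!r) = (P r)ᶜ := by
      intro r
      ext i
      simp only [hPdef, mem_filter, mem_univ, true_and, mem_compl]
      cases r <;> cases c (Sum.inl i) <;> simp
    have hUc : ∀ r, U (!r) = (U r)ᶜ := by
      intro r
      ext i
      simp only [hUdef, mem_filter, mem_univ, true_and, mem_compl]
      cases r <;> cases c (Sum.inr i) <;> simp
    have htP : ∀ r, (P (!r)).card + (P r).card = 4 := by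
      intro r
      rw [hPc, add_comm]
      have := Finset.card_add_card_compl (P r)
      simpa using this
    have htU : ∀ r, ∑ x ∈ U (!r), w x + ∑ x ∈ U r, w x = ∑ x, w x := by
      intro r
      rw [hUc]
      exact hc _
    by_cases hbig : ∃ r, n + 1 ≤ (P r).card + ∑ x ∈ U r, w x
    · obtain ⟨r, hr⟩ := hbig
      obtain ⟨P', hP', hsubP, hcard⟩ := pats_sub (P r)
      have k1 := pats_card P' hP'
      obtain ⟨A, hAU, hA⟩ := hsub (U r) (n - P'.card) (by omega) (by omega) (by omega)
      refine ⟨P'.disjSum A, ?_, r, mono_disjSum (fun i hi => hPm r i (hsubP hi))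
        (fun i hi => hUm r i (hAU hi))⟩
      rw [mem_SH]
      exact Or.inl ⟨P', hP', A, hA, rfl⟩
    · push Not at hbig
      have hex : ∀ r, (P r).card + ∑ x ∈ U r, w x = n := by
        intro r
        have a1 := hbig r
        have a2 := hbig (!r)
        have a3 := htP r
        have a4 := htU r
        omega
      have hpat : ∀ r, P r ∈ pats → ∃ A ∈ SH w n B, ∃ b : Bool, ∀ x ∈ A, c x = b := by
        intro r hr
        refine ⟨(P r).disjSum (U r), ?_, r, mono_disjSum (hPm r) (hUm r)⟩
        rw [mem_SH]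
        have := hex r
        exact Or.inl ⟨P r, hr, U r, by omega, rfl⟩
      have h01 : ∀ r, P r = {0, 1} → ∃ A ∈ SH w n B, ∃ b : Bool, ∀ x ∈ A, c x = b := by
        intro r hr
        have h1 := hex r
        rw [hr, c01] at h1
        by_cases hUB : U r ∈ B
        · refine ⟨({0, 1} : Finset (Fin 4)).disjSum (U r), ?_, r,
            mono_disjSum (fun i hi => hPm r i (hr ▸ hi)) (hUm r)⟩
          rw [mem_SH]
          exact Or.inr (Or.inl ⟨U r, hUB, rfl⟩)
        · have hr2 : P (!r) = {2, 3} := by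
            rw [hPc, hr]
            decide
          refine ⟨({2, 3} : Finset (Fin 4)).disjSum (U r)ᶜ, ?_, !r,
            mono_disjSum (fun i hi => hPm (!r) i (hr2 ▸ hi))
              (fun i hi => hUm (!r) i (by rw [hUc]; exact hi))⟩
          rw [mem_SH]
          exact Or.inr (Or.inr ⟨U r, by omega, hUB, rfl⟩)
      rcases pats_all (P true) with h | h | h | h
      · exact hpat true h
      · exact hpat false (by rw [show (false : Bool) = !true from rfl, hPc]; exact h)
      · exact h01 true h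
      · exact h01 false (by rw [show (false : Bool) = !true from rfl, hPc]; exact h)
  · intro E hE
    rw [mem_SH] at hE
    rcases hE with ⟨P, hP, A, hA, rfl⟩ | ⟨A, hA, rfl⟩ | ⟨A, hA, hAB, rfl⟩
    · have k1 := pats_card P hP
      rw [wt_disjSum]
      omega
    · have k1 := hB' A hA
      rw [wt_disjSum, c01]
      omega
    · have k1 := hc A
      rw [wt_disjSum, c23]
      omega


end Pool.Agent.Lib.MP_87840f_co.Spec
end
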