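import Mathlib
import Pool.Agent.Lib.MP_87840f_co.Spec.TypedOuter
import Pool.Agent.Lib.MP_87840f_co.Spec.SwitchOuter
import Pool.Agent.Lib.MP_87840f_co.Spec.Rep
import Pool.Agent.Lib.MP_87840f_co.Spec.TypedStep

section

/-!
# MP_87840f_co, edge spectrum, ES10: the switch clique

Combine switch_count (B), switch_outer, switch_sum and att_subst on Fin 4 ⊕ (Bool ⊕ Fin u) with
weights Sum.elim 1 (sw e u) and numbers Sum.elim 1 (sm M u): Att 1 1, Att 2 3 (att_threshold 2),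
Att e M. Total weight: 4 + 2 + e + (2n-6-e) = 2n. hsub: given U and n-3 ≤ i ≤ n with i ≤ weight of U;
keep all elements inl of U (their weight is at most e + 2 ≤ n - 4 ≤ i) and i minus their weight units
of U (there are enough units because the weight of U is at least i).
-/

open Finset

namespace Pool.Agent.Lib.MP_87840f_co.Spec

private lemma sw_pos (e u : ℕ) (he : 1 ≤ e) (x : Bool ⊕ Fin u) : 1 ≤ sw e u x := by
  rcases x with (_ | _) | x
  · simp [sw]
  · simpa [sw] using he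
  · simp [sw]

private lemma sw_total (e u : ℕ) : ∑ x, sw e u x = e + 2 + u := by
  simp [sw, Fintype.sum_sum_type]

private lemma sw_sub (n e u : ℕ) (hn : e + 6 ≤ n) (U : Finset (Bool ⊕ Fin u)) (i : ℕ)
    (hi : n - 3 ≤ i) (hU : i ≤ ∑ x ∈ U, sw e u x) :
    ∃ A ⊆ U, ∑ x ∈ A, sw e u x = i := by
  classical
  have hsplit : ∑ x ∈ U.filter (fun x => x.isLeft = true), sw e u x +
      ∑ x ∈ U.filter (fun x => ¬ x.isLeft = true), sw e u x = ∑ x ∈ U, sw e u x :=
    Finset.sum_filter_add_sum_filter_not U _ _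
  have hR : ∀ T : Finset (Bool ⊕ Fin u), (∀ x ∈ T, ¬ x.isLeft = true) →
      ∑ x ∈ T, sw e u x = T.card := by
    intro T hT
    rw [Finset.card_eq_sum_ones]
    refine Finset.sum_congr rfl (fun x hx => ?_)
    have := hT x hx
    rcases x with x | x
    · simp at this
    · simp [sw]
  have hL : ∑ x ∈ U.filter (fun x => x.isLeft = true), sw e u x ≤ e + 2 := by
    have h1 : ∑ x ∈ U.filter (fun x => x.isLeft = true), sw e u x ≤
        ∑ x ∈ (univ : Finset (Bool ⊕ Fin u)).filter (fun x => x.isLeft = true), sw e u x :=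
      Finset.sum_le_sum_of_subset (Finset.filter_subset_filter _ (Finset.subset_univ _))
    have h2 : ∑ x ∈ (univ : Finset (Bool ⊕ Fin u)).filter (fun x => x.isLeft = true), sw e u x
        = e + 2 := by
      rw [Finset.sum_filter, Fintype.sum_sum_type]
      simp [sw]
    omega
  have hRc := hR (U.filter (fun x => ¬ x.isLeft = true)) (fun x hx => (Finset.mem_filter.1 hx).2)
  obtain ⟨T, hT, hTc⟩ := Finset.exists_subset_card_eq
    (s := U.filter (fun x => ¬ x.isLeft = true))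
    (n := i - ∑ x ∈ U.filter (fun x => x.isLeft = true), sw e u x) (by omega)
  have hTR : ∀ x ∈ T, ¬ x.isLeft = true := fun x hx => (Finset.mem_filter.1 (hT hx)).2
  refine ⟨U.filter (fun x => x.isLeft = true) ∪ T, ?_, ?_⟩
  · exact Finset.union_subset (Finset.filter_subset _ _) (hT.trans (Finset.filter_subset _ _))
  · rw [Finset.sum_union, hR T hTR, hTc]
    · omega
    · rw [Finset.disjoint_left]
      intro x hx hx'
      exact hTR x hx' (Finset.mem_filter.1 hx).2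

theorem att_switch (n e M k1 k3 : ℕ) (he : 1 ≤ e) (hn : e + 6 ≤ n) (hM : 3 ≤ M)
    (hA : Att e M) (h1 : k1 ≤ (2 * n - 6 - e).choose (n - 2 - e))
    (h3 : k3 ≤ (2 * n - 6 - e).choose (n - 4 - e)) :
    Att n (M * Df n e + Rf n e + k1 * (M - 3) + k3 * (3 * M - 1)) := by
  classical
  obtain ⟨B, hB, hsum⟩ := switch_count n e M k1 k3 he hn hM h1 h3
  have hout := switch_outer (sw e (2 * n - 6 - e)) n (by omega) (sw_pos e _ he)
    (by rw [sw_total]; omega)
    (fun U i hi _ hU => sw_sub n e _ hn U i hi hU) B hB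
  have h := att_subst (SH (sw e (2 * n - 6 - e)) n B) hout.1
    (Sum.elim (fun _ => 1) (sw e (2 * n - 6 - e))) (Sum.elim (fun _ => 1) (sm M (2 * n - 6 - e))) n
    hout.2 (by
      intro i
      rcases i with i | ((_ | _) | i)
      · simpa using att_one
      · have h2 := att_threshold 2 (by norm_num)
        simpa [sw, sm, Nat.choose] using h2
      · simpa [sw, sm] using hA
      · simpa [sw, sm] using att_one)
  rw [switch_sum (sw e (2 * n - 6 - e)) (sm M (2 * n - 6 - e)) n (by omega) B hB, hsum] at h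
  exact h


end Pool.Agent.Lib.MP_87840f_co.Spec
end

section

/-!
# MP_87840f_co, edge spectrum, GS4: the general typed step

Substitution into the general typed hypergraph: type vertices get M or M + d edges.
-/

open Finset

namespace Pool.Agent.Lib.MP_87840f_co.Spec

theorem g_step (k w b M d : ℕ) (hw : 1 ≤ w) (hb : 1 ≤ b) (h1 : Att w M) (h2 : Att w (M + d)) :
    ∀ mx t : ℕ, Att (k * w + b) mx → t ≤ 2 ^ k →
      Att ((k + 2) * w + b) (mx * GD k b M + 2 * M ^ (k + 1) * w ^ b * d * t +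
        2 ^ k * w ^ b * M ^ (k + 1) * ((k + 4) * M + 2 * b)) := by
  classical
  intro mx t hM ht
  have hcard : t ≤ (univ : Finset (Fin k → Bool)).card := by simpa using ht
  obtain ⟨T, -, hT⟩ := Finset.exists_subset_card_eq hcard
  have hm : ∀ η, Att w ((fun η => if η ∈ T then M + d else M) η) := by
    intro η
    beta_reduce
    split_ifs
    · exact h2
    · exact h1
  have hsum : ∑ η : Fin k → Bool, (if η ∈ T then M + d else M) = M * 2 ^ k + d * t := by
    have : ∀ η : Fin k → Bool,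
        (if η ∈ T then M + d else M) = M + (if η ∈ T then d else 0) := by
      intro η
      split_ifs <;> rfl
    simp only [this]
    rw [sum_add_distrib, sum_const, sum_ite_mem, sum_const]
    simp [hT]
    ring
  have h3 := att_subst (GH k w b) (gh_outer k w b hw hb) GV.wt
    (GV.num M mx (fun η => if η ∈ T then M + d else M)) _ (gh_weight k w b hw hb) (by
      intro i
      cases i with
      | x => exact hM
      | s _ _ => exact h1
      | y _ => exact h1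
      | v _ _ _ => exact att_one
      | z η => exact hm η)
  rw [gh_sum k w b M hw hb, hsum] at h3
  have h4 : mx * GD k b M + 2 * M ^ (k + 1) * w ^ b * (M * 2 ^ k + d * t) +
      (k * 2 ^ k * w ^ b * M ^ (k + 2) + 2 ^ (k + 1) * w ^ b * M ^ (k + 1) * (M + b)) =
      mx * GD k b M + 2 * M ^ (k + 1) * w ^ b * d * t +
        2 ^ k * w ^ b * M ^ (k + 1) * ((k + 4) * M + 2 * b) := by ring
  rw [h4] at h3
  exact h3


end Pool.Agent.Lib.MP_87840f_co.Spec
end

section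

/-!
# MP_87840f_co, edge spectrum, ES13: dense sets from dense sets

For y put y0 = max(α, y/(e-12)^6) ≤ β, take m in [y0, 21/20 y0] and apply dense_single.
-/

open Finset

namespace Pool.Agent.Lib.MP_87840f_co.Spec

private theorem aux_pow (e : ℕ) (he : 10 ^ 23 ≤ e) :
    3 * (100 * (e : ℝ) + 10 ^ 22) ≤ ((e : ℝ) - 12) ^ 6 := by
  have h1 : (10 : ℝ) ^ 23 ≤ e := by exact_mod_cast he
  have h2 : (10 : ℝ) ^ 3 ≤ (e : ℝ) - 12 := by linarith [show (10 : ℝ) ^ 3 + 12 ≤ 10 ^ 23 by norm_num]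
  have h3 : (e : ℝ) / 2 ≤ (e : ℝ) - 12 := by linarith
  calc 3 * (100 * (e : ℝ) + 10 ^ 22) ≤ 1000 * (e / 2) := by linarith
    _ ≤ ((e : ℝ) - 12) ^ 5 * ((e : ℝ) - 12) := by
        apply mul_le_mul _ h3 (by positivity) (by positivity)
        calc (1000 : ℝ) ≤ 10 ^ 3 := by norm_num
          _ ≤ (10 ^ 3) ^ 5 := by norm_num
          _ ≤ _ := pow_le_pow_left₀ (by positivity) h2 5
    _ = _ := by ring

theorem dense_step : ∃ e0 : ℕ, ∀ e ≥ e0, ∀ α β : ℝ, (3 : ℝ) ^ e ≤ α → α ≤ β →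
    MDense (e - 6) α β →
    MDense e (3 * (100 * e + 10 ^ 22) * α) (((e : ℝ) - 12) ^ 6 * β) := by
  obtain ⟨e1, h1⟩ := dense_single
  refine ⟨max e1 (10 ^ 23), fun e he α β hα hαβ hd y hy1 hy2 => ?_⟩
  have he1 : e1 ≤ e := le_trans (le_max_left _ _) he
  have he2 : 10 ^ 23 ≤ e := le_trans (le_max_right _ _) he
  have hp := aux_pow e he2
  set P : ℝ := ((e : ℝ) - 12) ^ 6 with hP
  have hα0 : 0 < α := lt_of_lt_of_le (by positivity) hα
  have hd0 : (0 : ℝ) < 100 * (e : ℝ) + 10 ^ 22 := by positivity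
  have hP0 : 0 < P := by linarith
  obtain ⟨m, -, hm, hm1, hm2⟩ := hd (max α (y / P)) (le_max_left _ _)
    (max_le hαβ (by rw [div_le_iff₀ hP0]; linarith))
  have hmα : α ≤ m := le_trans (le_max_left _ _) hm1
  have hmy : y / P ≤ m := le_trans (le_max_right _ _) hm1
  have h3 : 3 ^ e ≤ m := by
    have : ((3 ^ e : ℕ) : ℝ) ≤ m := by push_cast; linarith
    exact_mod_cast this
  refine h1 e he1 m h3 hm y ?_ ?_
  · rcases le_total α (y / P) with h | h
    · rw [max_eq_right h] at hm2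
      have h4 : 2 * (100 * (e : ℝ) + 10 ^ 22) * m ≤
          2 * (100 * (e : ℝ) + 10 ^ 22) * (21 / 20 * (y / P)) :=
        mul_le_mul_of_nonneg_left hm2 (by positivity)
      have hy0 : 0 ≤ y / P := le_trans hα0.le h
      have h5 : 2 * (100 * (e : ℝ) + 10 ^ 22) * (21 / 20 * (y / P)) ≤ P * (y / P) := by
        have : 2 * (100 * (e : ℝ) + 10 ^ 22) * (21 / 20) ≤ P := by linarith
        calc 2 * (100 * (e : ℝ) + 10 ^ 22) * (21 / 20 * (y / P))
            = 2 * (100 * (e : ℝ) + 10 ^ 22) * (21 / 20) * (y / P) := by ring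
          _ ≤ _ := mul_le_mul_of_nonneg_right this hy0
      have h6 : P * (y / P) = y := by field_simp
      linarith
    · rw [max_eq_left h] at hm2
      have h4 : 2 * (100 * (e : ℝ) + 10 ^ 22) * m ≤
          2 * (100 * (e : ℝ) + 10 ^ 22) * (21 / 20 * α) :=
        mul_le_mul_of_nonneg_left hm2 (by positivity)
      have h5 : 2 * (100 * (e : ℝ) + 10 ^ 22) * (21 / 20 * α) ≤
          3 * (100 * (e : ℝ) + 10 ^ 22) * α := by nlinarith
      linarith
  · rw [div_le_iff₀ hP0] at hmy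
    linarith

end Pool.Agent.Lib.MP_87840f_co.Spec
end

section

/-!
# MP_87840f_co, edge spectrum, GS7: residues in the low step

D = GD k b M ≥ 1, coprime to c = 2 M^(k+1) w^b d (its prime factors divide 2 M w d). For
N ≥ c D + R there is t < D with c t ≡ N - R mod D; t ≤ 2^k; mx = (N - R - c t)/D; g_step.
-/

open Finset

namespace Pool.Agent.Lib.MP_87840f_co.Spec

theorem low_core (k w b M d : ℕ) (hw : 1 ≤ w) (hb : 1 ≤ b) (h1 : Att w M) (h2 : Att w (M + d))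
    (hcop : Nat.Coprime (2 * M * w * d) (GD k b M)) (hD : GD k b M ≤ 2 ^ k) :
    ∀ N : ℕ, 2 * M ^ (k + 1) * w ^ b * d * GD k b M +
        2 ^ k * w ^ b * M ^ (k + 1) * ((k + 4) * M + 2 * b) ≤ N →
      ∃ mx : ℕ, GD k b M * mx ≤ N ∧
        N ≤ GD k b M * mx + (2 * M ^ (k + 1) * w ^ b * d * GD k b M +
          2 ^ k * w ^ b * M ^ (k + 1) * ((k + 4) * M + 2 * b)) ∧
        (Att (k * w + b) mx → Att ((k + 2) * w + b) N) := by
  intro N hN
  have hstep := g_step k w b M d hw hb h1 h2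
  have hDpos : 1 ≤ GD k b M := by
    unfold GD
    have : 1 ≤ (M + b) ^ 2 := Nat.one_le_pow _ _ (by omega)
    omega
  have hc : Nat.Coprime (2 * M ^ (k + 1) * w ^ b * d) (GD k b M) := by
    simp only [Nat.coprime_mul_iff_left] at hcop ⊢
    obtain ⟨⟨⟨h2', hM'⟩, hw'⟩, hd'⟩ := hcop
    exact ⟨⟨⟨h2', Nat.Coprime.pow_left _ hM'⟩, Nat.Coprime.pow_left _ hw'⟩, hd'⟩
  generalize GD k b M = D at *
  generalize 2 * M ^ (k + 1) * w ^ b * d = c at *
  generalize 2 ^ k * w ^ b * M ^ (k + 1) * ((k + 4) * M + 2 * b) = R at *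
  obtain ⟨t, ht, htmod⟩ : ∃ t, t < D ∧ c * t ≡ N - R [MOD D] := by
    obtain ⟨K, hK0, hKy⟩ := Nat.chineseRemainder hc 0 (N - R)
    have hdvd : c ∣ K := (Nat.modEq_zero_iff_dvd).1 hK0
    obtain ⟨t, rfl⟩ := hdvd
    refine ⟨t % D, Nat.mod_lt _ hDpos, ?_⟩
    exact ((Nat.mod_modEq t D).mul_left _).trans hKy
  have hct : c * t ≤ c * D := Nat.mul_le_mul_left _ ht.le
  have hle : c * t ≤ N - R := by omega
  obtain ⟨q, hq⟩ : D ∣ (N - R) - c * t := (Nat.modEq_iff_dvd' hle).1 htmod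
  have hNq : N = D * q + c * t + R := by omega
  refine ⟨q, by omega, by omega, ?_⟩
  intro ha
  have h3 := hstep q t ha (by omega)
  have h4 : q * D + c * t + R = N := by rw [hNq, mul_comm q D]
  rw [h4] at h3
  exact h3

end Pool.Agent.Lib.MP_87840f_co.Spec
end

section

/-!
# MP_87840f_co, edge spectrum, ES15: all integers in an interval

Let C = C(u,j), K3 = C(u,j-2), W = Wp u j = C + 3 K3, D = Df n e, R = Rf n e (u = 2n-6-e, j = n-2-e);
by switch_bounds D ≤ 9W, R ≤ 40C, 1000β ≤ 2^(n-4-e) ≤ K3 ≤ C, and C ≤ W ≤ 4C, 2C ≤ D.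
Put ρ = N - R ≥ 0 and y = ρ / (D + W/2). Then y ≥ α since N ≥ 40αC ≥ 40C + α(36C + 2C), and y ≤ β since
N ≤ βC ≤ β(D + W/2). Take M even, attained at e, y ≤ M ≤ 21/20 y (hd). M ≤ 1.05β ≤ K3/952, M ≥ 1000.
(a) M D + 3M^2 ≤ ρ: M D ≤ 1.05 ρ D/(D+W/2) ≤ 1.05 * 18/19 ρ ≤ 0.9948 ρ, and
3M^2 ≤ 0.0052 ρ because ρ = y(D+W/2) ≥ (M/1.05)(2C + C/2) ≥ 2.38 M C and M ≤ C/952.
(b) (ρ - M D) + 6M^2 ≤ (M-3) W: M(D+W) ≥ y(D + W/2) + M W/2 = ρ + MW/2 and MW/2 ≥ 3W + 6M^2.
Apply rep_lemma with K1 = C, K3 and y := N - R - M D, then att_switch.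
-/

open Finset

namespace Pool.Agent.Lib.MP_87840f_co.Spec

theorem switch_interval (n e : ℕ) (he : 1 ≤ e) (hn : 10 * e ≤ n) (h100 : 100 ≤ n) (α β : ℝ)
    (hα : 1000 ≤ α) (hβ : 1000 * β ≤ 2 ^ (n - 4 - e)) (hd : MDense e α β) (N : ℕ)
    (h1 : 40 * α * (2 * n - 6 - e).choose (n - 2 - e) ≤ N)
    (h2 : (N : ℝ) ≤ β * (2 * n - 6 - e).choose (n - 2 - e)) : Att n N := by
  obtain ⟨hD9, hR40, hpow, hKC⟩ := switch_bounds n e he hn h100
  have hW : Wp (2 * n - 6 - e) (n - 2 - e) =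
      (2 * n - 6 - e).choose (n - 2 - e) + 3 * (2 * n - 6 - e).choose (n - 4 - e) := by
    unfold Wp
    rw [show n - 2 - e - 2 = n - 4 - e by omega]
  have hD2 : 2 * Wp (2 * n - 6 - e) (n - 2 - e) ≤ Df n e := by
    unfold Df
    omega
  have hsw := att_switch n e
  rw [hW] at hD9 hD2
  generalize (2 * n - 6 - e).choose (n - 2 - e) = C at *
  generalize (2 * n - 6 - e).choose (n - 4 - e) = K at *
  generalize Df n e = D at *
  generalize Rf n e = R at *
  have hpowR : (2 : ℝ) ^ (n - 4 - e) ≤ (K : ℝ) := by exact_mod_cast hpow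
  have hKCR : (K : ℝ) ≤ (C : ℝ) := by exact_mod_cast hKC
  have hD9R : (D : ℝ) ≤ 9 * ((C : ℝ) + 3 * K) := by exact_mod_cast hD9
  have hD2R : 2 * ((C : ℝ) + 3 * K) ≤ (D : ℝ) := by exact_mod_cast hD2
  have hRR : (R : ℝ) ≤ 40 * (C : ℝ) := by exact_mod_cast hR40
  have hKpos : (1 : ℝ) ≤ K := le_trans (one_le_pow₀ (by norm_num)) hpowR
  have hCpos : (1 : ℝ) ≤ C := le_trans hKpos hKCR
  have hR0 : (0 : ℝ) ≤ R := Nat.cast_nonneg _
  have hβpos : 0 < β := by
    by_contra hcon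
    push Not at hcon
    have h3 : (0 : ℝ) < 40 * α * C := by positivity
    have h4 : β * (C : ℝ) ≤ 0 := mul_nonpos_of_nonpos_of_nonneg hcon (by linarith)
    linarith
  set W : ℝ := (C : ℝ) + 3 * K with hWdef
  have hE : 0 < (D : ℝ) + W / 2 := by linarith
  obtain ⟨M, hMe, hMA, hyM, hMy⟩ := hd (((N : ℝ) - R) / (D + W / 2)) (by
      rw [le_div_iff₀ hE]
      have h3 : α * ((D : ℝ) + W / 2) ≤ α * (38 * C) :=
        mul_le_mul_of_nonneg_left (by linarith) (by linarith)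
      have h4 : 1000 * (C : ℝ) ≤ α * C := mul_le_mul_of_nonneg_right hα (by linarith)
      nlinarith) (by
      rw [div_le_iff₀ hE]
      have h3 : β * (C : ℝ) ≤ β * ((D : ℝ) + W / 2) :=
        mul_le_mul_of_nonneg_left (by linarith) hβpos.le
      linarith)
  have hy1 : α ≤ ((N : ℝ) - R) / (D + W / 2) := by
    rw [le_div_iff₀ hE]
    have h3 : α * ((D : ℝ) + W / 2) ≤ α * (38 * C) :=
      mul_le_mul_of_nonneg_left (by linarith) (by linarith)
    have h4 : 1000 * (C : ℝ) ≤ α * C := mul_le_mul_of_nonneg_right hα (by linarith)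
    nlinarith
  have hy2 : ((N : ℝ) - R) / (D + W / 2) ≤ β := by
    rw [div_le_iff₀ hE]
    have h3 : β * (C : ℝ) ≤ β * ((D : ℝ) + W / 2) :=
      mul_le_mul_of_nonneg_left (by linarith) hβpos.le
    linarith
  have hρ : ((N : ℝ) - R) / (D + W / 2) * (D + W / 2) = (N : ℝ) - R := div_mul_cancel₀ _ hE.ne'
  generalize ((N : ℝ) - R) / (D + W / 2) = y at *
  have hM1000 : (1000 : ℝ) ≤ M := by linarith
  have hMK : 900 * (M : ℝ) ≤ K := by linarith
  have hM0 : (0 : ℝ) < M := by linarith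
  have hWM : 3600 * (M : ℝ) ≤ W := by linarith
  -- (a)
  have ha : (M : ℝ) * D + 3 * (M : ℝ) ^ 2 ≤ (N : ℝ) - R := by
    rw [← hρ]
    have h3 : 20 / 21 * (M : ℝ) * (D + W / 2) ≤ y * (D + W / 2) :=
      mul_le_mul_of_nonneg_right (by linarith) hE.le
    have h4 : (M : ℝ) * (1.05 * D + 3.15 * M) ≤ M * (D + W / 2) :=
      mul_le_mul_of_nonneg_left (by linarith) hM0.le
    nlinarith
  -- (b)
  have hb : (N : ℝ) - R - M * D + 6 * (M : ℝ) ^ 2 ≤ ((M : ℝ) - 3) * W := by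
    rw [← hρ]
    have h3 : y * (D + W / 2) ≤ M * (D + W / 2) := mul_le_mul_of_nonneg_right hyM hE.le
    have h4 : (M : ℝ) * (3600 * M) ≤ M * W := mul_le_mul_of_nonneg_left hWM hM0.le
    have h5 : 1000 * W ≤ M * W := mul_le_mul_of_nonneg_right hM1000 (by linarith)
    nlinarith
  have hM4 : 1000 ≤ M := by exact_mod_cast hM1000
  have haN : M * D + 3 * M ^ 2 + R ≤ N := by
    have : ((M * D + 3 * M ^ 2 + R : ℕ) : ℝ) ≤ (N : ℝ) := by
      push_cast
      linarith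
    exact_mod_cast this
  obtain ⟨k1, k3, hk1, hk3, hy⟩ := rep_lemma M C K (N - R - M * D) hMe (by omega)
    (by
      have : ((3 * M : ℕ) : ℝ) ≤ (C : ℝ) := by
        push_cast
        linarith
      exact_mod_cast this)
    (by
      have : (M : ℝ) ≤ (K : ℝ) := by linarith
      exact_mod_cast this)
    (by omega)
    (by
      have h5 : ((N - R - M * D : ℕ) : ℝ) = (N : ℝ) - R - M * D := by
        rw [Nat.cast_sub (by omega), Nat.cast_sub (by omega)]
        push_cast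
        ring
      have : ((N - R - M * D + 6 * M ^ 2 : ℕ) : ℝ) ≤ (((M - 3) * (C + 3 * K) : ℕ) : ℝ) := by
        have h6 : (((M - 3 : ℕ)) : ℝ) = (M : ℝ) - 3 := by
          rw [Nat.cast_sub (by omega)]
          push_cast
          ring
        rw [Nat.cast_add, h5, Nat.cast_mul (M - 3), h6]
        push_cast
        exact hb
      exact_mod_cast this)
  have hfin := hsw M k1 k3 he (by omega) (by omega) hMA hk1 hk3
  have hN : M * D + R + k1 * (M - 3) + k3 * (3 * M - 1) = N := by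
    have h6 : N = M * D + R + (N - R - M * D) := by omega
    omega
  rw [hN] at hfin
  exact hfin


end Pool.Agent.Lib.MP_87840f_co.Spec
end

section

/-!
# MP_87840f_co, edge spectrum, ES16: the low regime

e = n/q (so 10e ≤ n), m0 = C(2(e-12)-1, e-12) (att_threshold; m0 ≥ 3^e for large e, as
4^a < a * centralBinom a, centralBinom a = 2 C(2a-1,a)), d = 100e + 10^22, C = C(2n-6-e, n-2-e),
l n = 240 * d^2 * m0 * C. dense_single at e-6 with m0 gives MDense (e-6) α1 β1 with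
α1 = 2(100(e-6)+10^22) m0, β1 = ((e-6)-12)^6 m0; dense_step gives MDense e α β, α = 3 d α1 ≤ 6 d^2 m0,
β = (e-12)^6 β1. switch_interval: 40 α C ≤ l n ≤ N and N ≤ n^7 l n ≤ β C for large n (degree 9 against
degree 12 in n); 1000 β ≤ 1000 n^12 4^e ≤ 2^(n-4-e) since e ≤ n/10.
l (n-6) ≤ l n: e' = (n-6)/q is e or e-1; d and m0 are monotone in e; C(u',j') ≤ C(u,j) because
(u',j') = (u-12, j-6) or (u-11, j-5) (use C(a,b) ≤ C(a+1,b), C(a,b) ≤ C(a+1,b+1)).
n^40 ≤ l n: C ≥ 2^(n-4-e) by switch_bounds. l n ≤ n^2 2^(2n+e): d ≤ 11n, m0 ≤ 2^(2e-25),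
C ≤ 2^(2n-6-e), 240*121 ≤ 2^15.
-/

open Finset

namespace Pool.Agent.Lib.MP_87840f_co.Spec

/-- the threshold clique size -/
private def thr (e : ℕ) : ℕ := (2 * (e - 12) - 1).choose (e - 12)

private lemma pow_growth (a : ℕ) (ha : 48 ≤ a) : 1458 * a * 3 ^ a ≤ 4 ^ a := by
  induction a, ha using Nat.le_induction with
  | base => norm_num
  | succ a ha ih =>
    calc 1458 * (a + 1) * 3 ^ (a + 1) = (3 * (a + 1)) * (1458 * 3 ^ a) := by ring
      _ ≤ (4 * a) * (1458 * 3 ^ a) := Nat.mul_le_mul_right _ (by omega)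
      _ = 4 * (1458 * a * 3 ^ a) := by ring
      _ ≤ 4 * 4 ^ a := Nat.mul_le_mul_left _ ih
      _ = 4 ^ (a + 1) := by ring

private lemma central_eq (a : ℕ) (ha : 1 ≤ a) : Nat.centralBinom a = 2 * (2 * a - 1).choose a := by
  obtain ⟨b, rfl⟩ : ∃ b, a = b + 1 := ⟨a - 1, by omega⟩
  have h1 : 2 * (b + 1) = (2 * b + 1) + 1 := by ring
  have h2 : 2 * (b + 1) - 1 = 2 * b + 1 := by omega
  rw [Nat.centralBinom, h2, h1, Nat.choose_succ_succ, Nat.choose_symm_half]
  ring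

private lemma thr_ge (e : ℕ) (he : 60 ≤ e) : 3 ^ (e - 6) ≤ thr e := by
  obtain ⟨a, rfl⟩ : ∃ a, e = a + 12 := ⟨e - 12, by omega⟩
  have ha : 48 ≤ a := by omega
  have h1 := pow_growth a ha
  have h2 := Nat.four_pow_lt_mul_centralBinom a (by omega)
  rw [central_eq a (by omega)] at h2
  have h3 : thr (a + 12) = (2 * a - 1).choose a := by simp [thr]
  rw [h3]
  have h4 : a + 12 - 6 = a + 6 := by omega
  rw [h4]
  have h5 : (2 * a) * 3 ^ (a + 6) < (2 * a) * (2 * a - 1).choose a := by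
    calc (2 * a) * 3 ^ (a + 6) = 1458 * a * 3 ^ a := by rw [pow_add]; ring
      _ ≤ 4 ^ a := h1
      _ < a * (2 * (2 * a - 1).choose a) := h2
      _ = (2 * a) * (2 * a - 1).choose a := by ring
  exact (lt_of_mul_lt_mul_left h5 (Nat.zero_le _)).le

private lemma choose_diag (a b r : ℕ) : a.choose b ≤ (a + r).choose (b + r) := by
  induction r with
  | zero => simp
  | succ r ih =>
    have : (a + (r + 1)).choose (b + (r + 1)) = (a + r).choose (b + r)
        + (a + r).choose (b + r + 1) := by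
      rw [← add_assoc, ← add_assoc, Nat.choose_succ_succ]
    omega

private lemma thr_mono {e e' : ℕ} (h : e ≤ e') : thr e ≤ thr e' := by
  have key : ∀ a : ℕ, (2 * a - 1).choose a ≤ (2 * (a + 1) - 1).choose (a + 1) := by
    intro a
    rcases Nat.eq_zero_or_pos a with rfl | ha
    · simp
    · calc (2 * a - 1).choose a ≤ (2 * a - 1 + 1).choose (a + 1) := choose_diag _ _ 1
        _ ≤ (2 * (a + 1) - 1).choose (a + 1) := Nat.choose_le_choose _ (by omega)
  have hm : Monotone (fun a : ℕ => (2 * a - 1).choose a) := monotone_nat_of_le_succ key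
  exact hm (by omega : e - 12 ≤ e' - 12)

private lemma thr_le (e : ℕ) (he : 13 ≤ e) : thr e ≤ 2 ^ (2 * e - 25) := by
  unfold thr
  have h : 2 * (e - 12) - 1 = 2 * e - 25 := by omega
  rw [h]
  exact Nat.choose_le_two_pow _ _

private lemma le_two_pow (k : ℕ) (hk : 10 ≤ k) : 80 * (k + 1) ≤ 2 ^ k := by
  induction k, hk using Nat.le_induction with
  | base => norm_num
  | succ k hk ih => rw [pow_succ]; omega

private lemma le_pow_div (n : ℕ) (hn : 800 ≤ n) : n ≤ 2 ^ (n / 80) := by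
  have h := le_two_pow (n / 80) (by omega)
  omega

private lemma dens : ∃ e1 : ℕ, ∀ e ≥ e1,
    MDense e (3 * (100 * e + 10 ^ 22) * (2 * (100 * ((e - 6 : ℕ) : ℝ) + 10 ^ 22) * thr e))
      (((e : ℝ) - 12) ^ 6 * ((((e - 6 : ℕ) : ℝ) - 12) ^ 6 * thr e)) := by
  obtain ⟨a, ha⟩ := dense_single
  obtain ⟨b, hb⟩ := dense_step
  refine ⟨a + b + 10 ^ 4 + 60, fun e he => ?_⟩
  have h1 : 3 ^ (e - 6) ≤ thr e := thr_ge e (by omega)
  have h2 : Att (e - 6 - 6) (thr e) := by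
    have h3 : e - 6 - 6 = e - 12 := by omega
    rw [h3]
    exact att_threshold (e - 12) (by omega)
  have h4 := ha (e - 6) (by omega) (thr e) h1 h2
  have hT : (1 : ℝ) ≤ thr e := by
    have : 1 ≤ thr e := le_trans (Nat.one_le_pow _ _ (by norm_num)) h1
    exact_mod_cast this
  have hT3 : (3 : ℝ) ^ (e - 6) ≤ thr e := by exact_mod_cast h1
  have hx : (10 : ℝ) ^ 4 ≤ ((e - 6 : ℕ) : ℝ) := by
    have : 10 ^ 4 ≤ e - 6 := by omega
    exact_mod_cast this
  set x : ℝ := ((e - 6 : ℕ) : ℝ) with hxdef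
  refine hb e (by omega) _ _ ?_ ?_ h4
  · have h5 : (3 : ℝ) ^ e = 3 ^ 6 * 3 ^ (e - 6) := by
      rw [← pow_add]
      congr 1
      omega
    rw [h5]
    have h6 : (3 : ℝ) ^ 6 ≤ 2 * (100 * x + 10 ^ 22) := by nlinarith
    exact mul_le_mul h6 hT3 (by positivity) (by positivity)
  · refine mul_le_mul_of_nonneg_right ?_ (by linarith)
    have h7 : (9988 : ℝ) ≤ x - 12 := by linarith
    have h8 : (9988 : ℝ) ^ 5 ≤ (x - 12) ^ 5 := pow_le_pow_left₀ (by norm_num) h7 5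
    calc 2 * (100 * x + 10 ^ 22) ≤ 9988 ^ 5 * (x - 12) := by nlinarith
      _ ≤ (x - 12) ^ 5 * (x - 12) := mul_le_mul_of_nonneg_right h8 (by linarith)
      _ = (x - 12) ^ 6 := by ring

private lemma poly_cmp (q e n : ℕ) (he : 128 * q ^ 7 * 240 * (4 * 10 ^ 44) * 4096 ≤ e)
    (he2 : 36 ≤ e) (hn : n ≤ q * (e + 1)) :
    (n : ℝ) ^ 7 * (240 * (100 * (e : ℝ) + 10 ^ 22) ^ 2) ≤
      ((e : ℝ) - 12) ^ 6 * (((e - 6 : ℕ) : ℝ) - 12) ^ 6 := by
  have hx : ((e - 6 : ℕ) : ℝ) = (e : ℝ) - 6 := by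
    rw [Nat.cast_sub (by omega)]
    norm_num
  rw [hx]
  have he2' : (36 : ℝ) ≤ e := by exact_mod_cast he2
  have he' : 128 * (q : ℝ) ^ 7 * 240 * (4 * 10 ^ 44) * 4096 ≤ e := by exact_mod_cast he
  have hn' : (n : ℝ) ≤ q * (e + 1) := by exact_mod_cast hn
  have hq0 : (0 : ℝ) ≤ q := Nat.cast_nonneg q
  have hn2 : (n : ℝ) ≤ 2 * q * e := by nlinarith
  have h1 : (n : ℝ) ^ 7 ≤ (2 * q * e) ^ 7 := pow_le_pow_left₀ (Nat.cast_nonneg n) hn2 7
  have h2 : (100 * (e : ℝ) + 10 ^ 22) ^ 2 ≤ (2 * 10 ^ 22 * e) ^ 2 :=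
    pow_le_pow_left₀ (by positivity) (by nlinarith) 2
  have h3 : ((e : ℝ) / 2) ^ 6 ≤ ((e : ℝ) - 12) ^ 6 :=
    pow_le_pow_left₀ (by positivity) (by linarith) 6
  have h4 : ((e : ℝ) / 2) ^ 6 ≤ ((e : ℝ) - 6 - 12) ^ 6 :=
    pow_le_pow_left₀ (by positivity) (by linarith) 6
  have h5 : 128 * (q : ℝ) ^ 7 * 240 * (4 * 10 ^ 44) * 4096 ≤ (e : ℝ) ^ 3 := by
    have : (e : ℝ) ≤ (e : ℝ) ^ 3 := by
      have : (1 : ℝ) ≤ (e : ℝ) ^ 2 := by nlinarith
      nlinarith
    linarith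
  calc (n : ℝ) ^ 7 * (240 * (100 * (e : ℝ) + 10 ^ 22) ^ 2)
      ≤ (2 * q * e) ^ 7 * (240 * (2 * 10 ^ 22 * e) ^ 2) :=
        mul_le_mul h1 (mul_le_mul_of_nonneg_left h2 (by norm_num)) (by positivity) (by positivity)
    _ = (128 * (q : ℝ) ^ 7 * 240 * (4 * 10 ^ 44) * 4096) * ((e : ℝ) ^ 9 / 4096) := by ring
    _ ≤ (e : ℝ) ^ 3 * ((e : ℝ) ^ 9 / 4096) := mul_le_mul_of_nonneg_right h5 (by positivity)
    _ = ((e : ℝ) / 2) ^ 6 * ((e : ℝ) / 2) ^ 6 := by ring
    _ ≤ ((e : ℝ) - 12) ^ 6 * ((e : ℝ) - 6 - 12) ^ 6 :=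
        mul_le_mul h3 h4 (by positivity) (by positivity)

private lemma beta_small (e n : ℕ) (he : 800 ≤ e) (hn : 10 * e ≤ n) :
    1000 * (((e : ℝ) - 12) ^ 6 * ((((e - 6 : ℕ) : ℝ) - 12) ^ 6 * thr e)) ≤ 2 ^ (n - 4 - e) := by
  have hx : ((e - 6 : ℕ) : ℝ) = (e : ℝ) - 6 := by
    rw [Nat.cast_sub (by omega)]
    norm_num
  rw [hx]
  have he2' : (800 : ℝ) ≤ e := by exact_mod_cast he
  have h3 : ((e : ℝ) - 12) ^ 6 ≤ (e : ℝ) ^ 6 := pow_le_pow_left₀ (by linarith) (by linarith) 6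
  have h4 : ((e : ℝ) - 6 - 12) ^ 6 ≤ (e : ℝ) ^ 6 := pow_le_pow_left₀ (by linarith) (by linarith) 6
  have h5 : (e : ℝ) ≤ 2 ^ (e / 80) := by exact_mod_cast le_pow_div e he
  have h6 : (e : ℝ) ^ 6 ≤ (2 ^ (e / 80)) ^ 6 := pow_le_pow_left₀ (by positivity) h5 6
  have h7 : (thr e : ℝ) ≤ 2 ^ (2 * e - 25) := by exact_mod_cast thr_le e (by omega)
  have h8 : ((e : ℝ) - 6 - 12) ^ 6 * thr e ≤ (2 ^ (e / 80)) ^ 6 * 2 ^ (2 * e - 25) :=
    mul_le_mul (h4.trans h6) h7 (Nat.cast_nonneg _) (by positivity)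
  calc 1000 * (((e : ℝ) - 12) ^ 6 * (((e : ℝ) - 6 - 12) ^ 6 * thr e))
      ≤ 2 ^ 10 * ((2 ^ (e / 80)) ^ 6 * ((2 ^ (e / 80)) ^ 6 * 2 ^ (2 * e - 25))) := by
        refine mul_le_mul (by norm_num) (mul_le_mul (h3.trans h6) h8 ?_ (by positivity)) ?_
          (by positivity)
        · have : (0 : ℝ) ≤ (e : ℝ) - 6 - 12 := by linarith
          positivity
        · have : (0 : ℝ) ≤ (e : ℝ) - 6 - 12 := by linarith
          have : (0 : ℝ) ≤ (e : ℝ) - 12 := by linarith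
          positivity
    _ = 2 ^ (10 + (e / 80 * 6 + (e / 80 * 6 + (2 * e - 25)))) := by
        rw [pow_add, pow_add, pow_add, pow_mul]
    _ ≤ 2 ^ (n - 4 - e) := pow_le_pow_right₀ (by norm_num) (by omega)

/-- the left end of the interval -/
private def ll (q n : ℕ) : ℕ :=
  240 * (100 * (n / q) + 10 ^ 22) ^ 2 * thr (n / q) *
    (2 * n - 6 - n / q).choose (n - 2 - n / q)

private lemma div_facts (q n : ℕ) (hq : 10 ≤ q) : 10 * (n / q) ≤ n ∧ n ≤ q * (n / q + 1) := by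
  have h1 : q * (n / q) ≤ n := Nat.mul_div_le n q
  have h2 : n < q * (n / q + 1) := Nat.lt_mul_div_succ n (by omega)
  exact ⟨le_trans (Nat.mul_le_mul_right _ hq) h1, h2.le⟩

private lemma ll_mono (q n : ℕ) (hq : 10 ≤ q) (hn : 100 ≤ n) : ll q (n - 6) ≤ ll q n := by
  have h1 : q * (n / q) ≤ n := Nat.mul_div_le n q
  have h2 : n - 6 < q * ((n - 6) / q + 1) := Nat.lt_mul_div_succ (n - 6) (by omega)
  have h3 : (n - 6) / q ≤ n / q := Nat.div_le_div_right (by omega)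
  have h4 : n / q ≤ (n - 6) / q + 1 := by
    by_contra hcon
    push Not at hcon
    have h5 : q * ((n - 6) / q + 2) ≤ q * (n / q) := Nat.mul_le_mul_left _ (by omega)
    have h6 : q * ((n - 6) / q + 2) = q * ((n - 6) / q + 1) + q := by ring
    omega
  have h0 := (div_facts q n hq).1
  unfold ll
  have hc : (2 * (n - 6) - 6 - (n - 6) / q).choose (n - 6 - 2 - (n - 6) / q) ≤
      (2 * n - 6 - n / q).choose (n - 2 - n / q) := by
    rcases Nat.lt_or_ge ((n - 6) / q) (n / q) with h | h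
    · have e1 : n / q = (n - 6) / q + 1 := by omega
      refine (choose_diag _ _ 5).trans ?_
      have e2 : n - 6 - 2 - (n - 6) / q + 5 = n - 2 - n / q := by omega
      rw [e2]
      exact Nat.choose_le_choose _ (by omega)
    · have e1 : n / q = (n - 6) / q := by omega
      refine (choose_diag _ _ 6).trans ?_
      have e2 : n - 6 - 2 - (n - 6) / q + 6 = n - 2 - n / q := by omega
      rw [e2]
      exact Nat.choose_le_choose _ (by omega)
  refine Nat.mul_le_mul (Nat.mul_le_mul (Nat.mul_le_mul_left _ ?_) (thr_mono h3)) hc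
  exact Nat.pow_le_pow_left (by omega) 2

theorem low_regime (q : ℕ) (hq : 10 ≤ q) : ∃ (l : ℕ → ℕ) (n2 : ℕ), ∀ n ≥ n2,
    (∀ N, l n ≤ N → N ≤ n ^ 7 * l n → Att n N) ∧ l (n - 6) ≤ l n ∧ n ^ 40 ≤ l n ∧
    l n ≤ n ^ 2 * 2 ^ (2 * n + n / q) := by
  obtain ⟨e1, he1⟩ := dens
  obtain ⟨K, hKd⟩ : ∃ K : ℕ, K = 128 * q ^ 7 * 240 * (4 * 10 ^ 44) * 4096 := ⟨_, rfl⟩
  refine ⟨ll q, q * (e1 + K + 800) + 10 ^ 22 + 800, fun n hn => ?_⟩
  have hK : e1 + K + 800 ≤ n / q := by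
    rw [Nat.le_div_iff_mul_le (by omega), mul_comm]
    exact le_trans (Nat.le_add_right _ _) (le_trans (Nat.le_add_right _ _) hn)
  obtain ⟨h10, hq1⟩ := div_facts q n hq
  have hn22 : 10 ^ 22 ≤ n := by omega
  obtain ⟨-, -, hb1, hb2⟩ := switch_bounds n (n / q) (by omega) h10 (by omega)
  have hthr1 : 1 ≤ thr (n / q) := le_trans (Nat.one_le_pow _ _ (by norm_num)) (thr_ge (n / q) (by omega))
  refine ⟨?_, ll_mono q n hq (by omega), ?_, ?_⟩
  · intro N hN1 hN2
    set e := n / q with he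
    set C := (2 * n - 6 - e).choose (n - 2 - e) with hC
    have hT : (1 : ℝ) ≤ thr e := by exact_mod_cast hthr1
    have hx : ((e - 6 : ℕ) : ℝ) = (e : ℝ) - 6 := by
      rw [Nat.cast_sub (by omega)]
      norm_num
    have heR : (800 : ℝ) ≤ e := by
      have : 800 ≤ e := by omega
      exact_mod_cast this
    have hl : ((ll q n : ℕ) : ℝ) = 240 * (100 * (e : ℝ) + 10 ^ 22) ^ 2 * thr e * C := by
      unfold ll
      push_cast
      rw [← he, ← hC]
      norm_num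
    refine switch_interval n e (by omega) h10 (by omega) _ _ ?_ (beta_small e n (by omega) h10)
      (he1 e (by omega)) N ?_ ?_
    · rw [hx]
      have h1 : (1000 : ℝ) ≤ 3 * (100 * (e : ℝ) + 10 ^ 22) := by nlinarith
      have h2 : (1 : ℝ) ≤ 2 * (100 * ((e : ℝ) - 6) + 10 ^ 22) * thr e := by
        have : (1 : ℝ) ≤ 2 * (100 * ((e : ℝ) - 6) + 10 ^ 22) := by nlinarith
        nlinarith
      nlinarith
    · have h1 : ((ll q n : ℕ) : ℝ) ≤ N := by exact_mod_cast hN1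
      refine le_trans ?_ h1
      rw [hl, hx]
      have h2 : 40 * (3 * (100 * (e : ℝ) + 10 ^ 22) * (2 * (100 * ((e : ℝ) - 6) + 10 ^ 22)
          * thr e)) ≤ 240 * (100 * (e : ℝ) + 10 ^ 22) ^ 2 * thr e := by
        have h3 : (100 * ((e : ℝ) - 6) + 10 ^ 22) ≤ (100 * (e : ℝ) + 10 ^ 22) := by linarith
        have h4 : 0 ≤ 240 * (100 * (e : ℝ) + 10 ^ 22) * thr e := by positivity
        nlinarith [mul_le_mul_of_nonneg_left h3 h4]
      exact mul_le_mul_of_nonneg_right h2 (Nat.cast_nonneg C)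
    · have h1 : (N : ℝ) ≤ (n : ℝ) ^ 7 * (ll q n : ℕ) := by exact_mod_cast hN2
      refine h1.trans ?_
      rw [hl]
      have h2 := poly_cmp q e n (by rw [← hKd]; omega) (by omega) hq1
      have h3 : 0 ≤ (thr e : ℝ) * C := by positivity
      calc (n : ℝ) ^ 7 * (240 * (100 * (e : ℝ) + 10 ^ 22) ^ 2 * thr e * C)
          = (n : ℝ) ^ 7 * (240 * (100 * (e : ℝ) + 10 ^ 22) ^ 2) * (thr e * C) := by ring
        _ ≤ ((e : ℝ) - 12) ^ 6 * (((e - 6 : ℕ) : ℝ) - 12) ^ 6 * (thr e * C) :=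
            mul_le_mul_of_nonneg_right h2 h3
        _ = _ := by ring
  · have h1 : n ≤ 2 ^ (n / 80) := le_pow_div n (by omega)
    have h2 : n ^ 40 ≤ 2 ^ (n - 4 - n / q) := by
      calc n ^ 40 ≤ (2 ^ (n / 80)) ^ 40 := Nat.pow_le_pow_left h1 40
        _ = 2 ^ (n / 80 * 40) := by rw [pow_mul]
        _ ≤ 2 ^ (n - 4 - n / q) := Nat.pow_le_pow_right (by norm_num) (by omega)
    refine (h2.trans (hb1.trans hb2)).trans ?_
    unfold ll
    refine Nat.le_mul_of_pos_left _ ?_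
    positivity
  · unfold ll
    have h1 : 100 * (n / q) + 10 ^ 22 ≤ 11 * n := by omega
    have h2 := thr_le (n / q) (by omega)
    have h3 : (2 * n - 6 - n / q).choose (n - 2 - n / q) ≤ 2 ^ (2 * n - 6 - n / q) :=
      Nat.choose_le_two_pow _ _
    calc 240 * (100 * (n / q) + 10 ^ 22) ^ 2 * thr (n / q) *
          (2 * n - 6 - n / q).choose (n - 2 - n / q)
        ≤ 240 * (11 * n) ^ 2 * 2 ^ (2 * (n / q) - 25) * 2 ^ (2 * n - 6 - n / q) :=
          Nat.mul_le_mul (Nat.mul_le_mul (Nat.mul_le_mul_left _ (Nat.pow_le_pow_left h1 2)) h2) h3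
      _ = (240 * 121) * (n ^ 2 * 2 ^ (2 * (n / q) - 25 + (2 * n - 6 - n / q))) := by
          rw [pow_add]
          ring
      _ ≤ 2 ^ 15 * (n ^ 2 * 2 ^ (2 * (n / q) - 25 + (2 * n - 6 - n / q))) :=
          Nat.mul_le_mul_right _ (by norm_num)
      _ = n ^ 2 * 2 ^ (15 + (2 * (n / q) - 25 + (2 * n - 6 - n / q))) := by
          rw [pow_add 2 15]
          ring
      _ ≤ n ^ 2 * 2 ^ (2 * n + n / q) :=
          Nat.mul_le_mul_left _ (Nat.pow_le_pow_right (by norm_num) (by omega))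


end Pool.Agent.Lib.MP_87840f_co.Spec
end

section

/-!
# MP_87840f_co, edge spectrum, ES19: the edge spectrum

Choose c' with e < c' < c and q ≥ 10 with 4 ≤ (C/4)^q. Let l, n2 (low_regime q), n1 (high_step), n3
(growth c'). For N0 large there is c0 > 0 with: for all n ≥ N0 every N with l n ≤ N ≤ c0 (n/c')^n is
attained. For n < N0 + 6 choose c0 so small that c0 (n/c')^n ≤ n^7 l n. For n ≥ N0 + 6: if N ≤ n^7 l n use
low_regime; otherwise N ≥ n^40 ≥ Q, take M from high_step: D M ≥ N - Q ≥ n^7 l n - n^40 ≥ n^6 l n ≥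
D l(n-6), and D M ≤ N ≤ c0 (n/c')^n ≤ D c0 ((n-6)/c')^(n-6). Finally l n ≤ n^2 2^(2n+n/q) ≤ C^n and
(n/c)^n ≤ c0 (n/c')^n for large n.
-/

open Finset Filter

namespace Pool.Agent.Lib.MP_87840f_co.Spec

private theorem core (q : ℕ) (hq : 10 ≤ q) (c : ℝ) (hc : Real.exp 1 < c) :
    ∃ (l : ℕ → ℕ) (N0 : ℕ) (c0 : ℝ), 0 < c0 ∧ ∀ n ≥ N0,
      l n ≤ n ^ 2 * 2 ^ (2 * n + n / q) ∧
      ∀ N : ℕ, l n ≤ N → (N : ℝ) ≤ c0 * ((n : ℝ) / c) ^ n → Att n N := by
  obtain ⟨l, n2, hl⟩ := low_regime q hq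
  obtain ⟨n1, hh⟩ := high_step
  obtain ⟨n3, hg⟩ := growth c hc
  have hc0 : 0 < c := lt_trans (Real.exp_pos 1) hc
  set N0 := max (max n1 n2) (max n3 7) with hN0
  set f : ℕ → ℝ := fun n => ((n : ℝ) / c) ^ n with hf
  have hf0 : ∀ n, 0 ≤ f n := fun n => by positivity
  have hfp : ∀ n, 1 ≤ n → 0 < f n := by
    intro n hn
    have : (0 : ℝ) < n := by exact_mod_cast hn
    positivity
  set S : ℝ := ∑ i ∈ range (N0 + 6), f i with hS
  have hS0 : 0 ≤ S := sum_nonneg fun i _ => hf0 i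
  refine ⟨l, N0, 1 / (1 + S), by positivity, fun n hn => ⟨?_, ?_⟩⟩
  · have : n2 ≤ n := le_trans (le_trans (le_max_right _ _) (le_max_left _ _)) hn
    exact (hl n this).2.2.2
  · have hall : ∀ n, N0 ≤ n → ∀ N : ℕ, l n ≤ N → (N : ℝ) ≤ 1 / (1 + S) * f n → Att n N := by
      intro n
      induction n using Nat.strong_induction_on with
      | _ n ih =>
        intro hn N hN1 hN2
        have hn1 : n1 ≤ n := le_trans (le_trans (le_max_left _ _) (le_max_left _ _)) hn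
        have hn2 : n2 ≤ n := le_trans (le_trans (le_max_right _ _) (le_max_left _ _)) hn
        have hn3 : n3 ≤ n := le_trans (le_trans (le_max_left _ _) (le_max_right _ _)) hn
        have hn7 : 7 ≤ n := le_trans (le_trans (le_max_right _ _) (le_max_right _ _)) hn
        obtain ⟨hlow, hmono, hbig, -⟩ := hl n hn2
        by_cases hsmall : N ≤ n ^ 7 * l n
        · exact hlow N hN1 hsmall
        · push Not at hsmall
          have h40 : 1 ≤ n ^ 40 := Nat.one_le_pow _ _ (by omega)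
          have h7 : 1 ≤ n ^ 7 := Nat.one_le_pow _ _ (by omega)
          have hl1 : 1 ≤ l n := le_trans h40 hbig
          rcases lt_or_ge n (N0 + 6) with hlt | hge
          · exfalso
            have h1 : f n ≤ S := single_le_sum (fun i _ => hf0 i) (mem_range.2 hlt)
            have h2 : 1 / (1 + S) * f n ≤ 1 := by
              rw [div_mul_eq_mul_div, one_mul, div_le_one (by positivity)]
              linarith
            have h3 : (N : ℝ) ≤ 1 := le_trans hN2 h2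
            have h4 : N ≤ 1 := by exact_mod_cast h3
            have h5 : 1 ≤ n ^ 7 * l n := Nat.one_le_iff_ne_zero.2 (by positivity)
            omega
          · obtain ⟨D, Q, hD1, hD2, hQ, hstep⟩ := hh n hn1
            have hQN : Q ≤ N := by
              have : l n ≤ n ^ 7 * l n := Nat.le_mul_of_pos_left _ (by omega)
              omega
            obtain ⟨M, hM1, hM2, hM3⟩ := hstep N hQN
            apply hM3
            apply ih (n - 6) (by omega) (by omega)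
            · by_contra hcon
              push Not at hcon
              have h1 : D * M ≤ n ^ 6 * l n :=
                Nat.mul_le_mul hD2 (le_trans hcon.le hmono)
              have h2 : n ^ 6 * l n + l n ≤ n ^ 7 * l n := by
                have h3 : n ^ 6 + 1 ≤ n ^ 7 := by
                  have h6 : 1 ≤ n ^ 6 := Nat.one_le_pow _ _ (by omega)
                  calc n ^ 6 + 1 ≤ n ^ 6 * 2 := by omega
                    _ ≤ n ^ 6 * n := Nat.mul_le_mul_left _ (by omega)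
                    _ = n ^ 7 := by ring
                calc n ^ 6 * l n + l n = (n ^ 6 + 1) * l n := by ring
                  _ ≤ _ := Nat.mul_le_mul_right _ h3
              omega
            · have hgn := hg n hn3
              have hDr : ((n - 18 * Nat.log 2 n - 120 : ℕ) : ℝ) ^ 6 ≤ D := by exact_mod_cast hD1
              have h1 : f n ≤ D * f (n - 6) := by
                refine le_trans hgn ?_
                exact mul_le_mul_of_nonneg_right hDr (hf0 _)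
              have hD0 : (0 : ℝ) < D := by
                rcases Nat.eq_zero_or_pos D with h | h
                · rw [h] at h1
                  have := hfp n (by omega)
                  simp at h1
                  linarith
                · exact_mod_cast h
              have h2 : (D : ℝ) * M ≤ N := by exact_mod_cast hM1
              have h3 : (D : ℝ) * M ≤ D * (1 / (1 + S) * f (n - 6)) := by
                calc (D : ℝ) * M ≤ N := h2
                  _ ≤ 1 / (1 + S) * f n := hN2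
                  _ ≤ 1 / (1 + S) * (D * f (n - 6)) :=
                      mul_le_mul_of_nonneg_left h1 (by positivity)
                  _ = _ := by ring
              exact le_of_mul_le_mul_left h3 hD0
    exact hall n hn

private theorem sq_le (q : ℕ) (hq : 10 ≤ q) : ∃ n0 : ℕ, ∀ n ≥ n0, n ^ 2 ≤ 2 ^ (n / q) := by
  have h1 : Tendsto (fun t : ℕ => (t : ℝ) ^ 2 / 2 ^ t) atTop (nhds 0) :=
    tendsto_pow_const_div_const_pow_of_one_lt 2 (by norm_num)
  have h2 : ∀ᶠ t : ℕ in atTop, (t : ℝ) ^ 2 / 2 ^ t < 1 / (4 * (q : ℝ) ^ 2) :=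
    (tendsto_order.1 h1).2 _ (by positivity)
  obtain ⟨t0, ht0⟩ := eventually_atTop.1 h2
  refine ⟨q * (t0 + 1), fun n hn => ?_⟩
  set t := n / q with ht
  have hq0 : 0 < q := by omega
  have h3 : t0 + 1 ≤ t := by
    rw [ht, Nat.le_div_iff_mul_le hq0]
    linarith [mul_comm q (t0 + 1)]
  have h4 : n < q * (t + 1) := by
    have := Nat.lt_div_mul_add hq0 (a := n)
    have h5 : n / q * q + q = q * (t + 1) := by rw [ht]; ring
    omega
  have h5 : n ≤ 2 * q * t := by nlinarith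
  have h6 := ht0 t (by omega)
  rw [div_lt_div_iff₀ (by positivity) (by positivity)] at h6
  have h7 : ((n ^ 2 : ℕ) : ℝ) ≤ ((2 ^ t : ℕ) : ℝ) := by
    have h8 : (n : ℝ) ≤ 2 * q * t := by exact_mod_cast h5
    push_cast
    calc (n : ℝ) ^ 2 ≤ (2 * q * t) ^ 2 := pow_le_pow_left₀ (by positivity) h8 2
      _ = (t : ℝ) ^ 2 * (4 * (q : ℝ) ^ 2) := by ring
      _ ≤ 1 * 2 ^ t := h6.le
      _ = _ := one_mul _
  exact_mod_cast h7

theorem edge_spectrum (C c : ℝ) (hC : 4 < C) (hc : Real.exp 1 < c) : ∃ n0 : ℕ, ∀ n ≥ n0,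
    ∀ m : ℕ, C ^ n ≤ m → (m : ℝ) ≤ ((n : ℝ) / c) ^ n → Att n m := by
  have he0 : 0 < Real.exp 1 := Real.exp_pos 1
  set c' : ℝ := (Real.exp 1 + c) / 2 with hc'
  have h1 : Real.exp 1 < c' := by rw [hc']; linarith
  have h2 : c' < c := by rw [hc']; linarith
  have hc'0 : 0 < c' := lt_trans he0 h1
  have hc0 : 0 < c := lt_trans hc'0 h2
  have hC4 : 1 < C / 4 := by rw [lt_div_iff₀ (by norm_num)]; linarith
  obtain ⟨q0, hq0⟩ := pow_unbounded_of_one_lt 4 hC4
  set q := max q0 10 with hq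
  have hq10 : 10 ≤ q := le_max_right _ _
  have hqC : (4 : ℝ) ≤ (C / 4) ^ q := le_trans hq0.le (pow_le_pow_right₀ hC4.le (le_max_left _ _))
  obtain ⟨l, N0, c0, hc0p, hcore⟩ := core q hq10 c' h1
  obtain ⟨n4, h4⟩ := sq_le q hq10
  have h5 : Tendsto (fun n : ℕ => (c' / c) ^ n) atTop (nhds 0) :=
    tendsto_pow_atTop_nhds_zero_of_lt_one (by positivity) (by rw [div_lt_one hc0]; exact h2)
  obtain ⟨n5, h5'⟩ := eventually_atTop.1 ((tendsto_order.1 h5).2 c0 hc0p)
  refine ⟨max N0 (max n4 n5), fun n hn m hm1 hm2 => ?_⟩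
  have hnN : N0 ≤ n := le_trans (le_max_left _ _) hn
  have hn4 : n4 ≤ n := le_trans (le_trans (le_max_left _ _) (le_max_right _ _)) hn
  have hn5 : n5 ≤ n := le_trans (le_trans (le_max_right _ _) (le_max_right _ _)) hn
  obtain ⟨hl, hatt⟩ := hcore n hnN
  apply hatt m
  · have h6 : ((l n : ℕ) : ℝ) ≤ C ^ n := by
      have h7 : ((l n : ℕ) : ℝ) ≤ (n : ℝ) ^ 2 * 2 ^ (2 * n + n / q) := by exact_mod_cast hl
      have h8 : (n : ℝ) ^ 2 ≤ 2 ^ (n / q) := by exact_mod_cast h4 n hn4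
      have h9 : (4 : ℝ) ^ (n / q) ≤ (C / 4) ^ n := by
        calc (4 : ℝ) ^ (n / q) ≤ ((C / 4) ^ q) ^ (n / q) := pow_le_pow_left₀ (by norm_num) hqC _
          _ = (C / 4) ^ (q * (n / q)) := by rw [pow_mul]
          _ ≤ (C / 4) ^ n := pow_le_pow_right₀ hC4.le (Nat.mul_div_le n q)
      calc ((l n : ℕ) : ℝ) ≤ (n : ℝ) ^ 2 * 2 ^ (2 * n + n / q) := h7
        _ ≤ 2 ^ (n / q) * 2 ^ (2 * n + n / q) := mul_le_mul_of_nonneg_right h8 (by positivity)
        _ = 4 ^ n * 4 ^ (n / q) := by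
            rw [show (4 : ℝ) = 2 ^ 2 by norm_num, ← pow_mul, ← pow_mul, ← pow_add, ← pow_add]
            congr 1
            ring
        _ ≤ 4 ^ n * (C / 4) ^ n := mul_le_mul_of_nonneg_left h9 (by positivity)
        _ = C ^ n := by rw [← mul_pow]; congr 1; ring
    exact_mod_cast le_trans h6 hm1
  · refine le_trans hm2 ?_
    have h6 := (h5' n hn5).le
    have h7 : ((n : ℝ) / c) ^ n = (c' / c) ^ n * ((n : ℝ) / c') ^ n := by
      rw [← mul_pow]
      congr 1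
      field_simp
    rw [h7]
    exact mul_le_mul_of_nonneg_right h6 (by positivity)

theorem edge_spectrum_chromatic (C c : ℝ) (hC : 4 < C) (hc : Real.exp 1 < c) :
    ∃ n0 : ℕ, ∀ n ≥ n0, ∀ m : ℕ, C ^ n ≤ m → (m : ℝ) ≤ ((n : ℝ) / c) ^ n →
      ∃ F : Finset (Finset ℕ), IsThreeChromaticClique n F ∧ F.card = m := by
  obtain ⟨n0, h⟩ := edge_spectrum C c hC hc
  exact ⟨max n0 2, fun n hn m h1 h2 => att_three (le_trans (le_max_right _ _) hn)
    (h n (le_trans (le_max_left _ _) hn) m h1 h2)⟩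

end Pool.Agent.Lib.MP_87840f_co.Spec
end

section

/-!
# MP_87840f_co, edge spectrum, GS10: the low step

By normalize assume n1 even, m1 % n1 = 1. Let θ = m1^(1/(n1-1)) (real), 1 ≤ θ < C. Fix j with s = n1^j so
large that edge_spectrum 5 3 (exp 1 < 3) applies to s and (s/3)^s ≥ 5^s + n1 + 2; choose
ms with 5^s ≤ ms, ms + 1 ≤ (s/3)^s and ms % n1 = 1: Att s ms, Att s (ms+1). Put G = ms * m1 (coprime to n1),
a with θ^2 < 2^a, a a square or not does not matter. For n large choose r ≥ 1 maximal with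
a (s n1^r)^2 ≤ n, w = s n1^r, so n < a n1^2 w^2 =: a' w^2; w → ∞ with n. Mr = m1^(∑ i < r, n1^i)
(att_pow: Att (n1^r) Mr), Mr ≤ θ^(n1^r); M = ms * Mr^s, d = Mr^s: Att w M and Att w (M+d) by att_mul
(s * n1^r). M ≤ ms θ^w. Primes: p | 2 M w d: p | 2 or p | w: p | n1; p | M or p | d: p | ms * m1 = G and p | M
(r ≥ 1, so m1 | Mr). M % n1 = 1. choose_kb (B = n1 G + 1), coprime_gd, low_ineq (m0 = ms), low_core. Here n - 2w =
k w + b.
-/

open Finset

namespace Pool.Agent.Lib.MP_87840f_co.Spec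

private lemma geom_aux (n1 : ℕ) (h : 2 ≤ n1) (r : ℕ) :
    (∑ i ∈ range r, n1 ^ i) * (n1 - 1) + 1 = n1 ^ r := by
  induction r with
  | zero => simp
  | succ r ih =>
    rw [sum_range_succ, add_mul, pow_succ]
    obtain ⟨t, rfl⟩ : ∃ t, n1 = t + 1 := ⟨n1 - 1, by omega⟩
    simp only [Nat.add_sub_cancel] at ih ⊢
    nlinarith

private lemma root_aux (C : ℝ) (n1 m1 : ℕ) (h2 : 2 ≤ n1) (hm : 1 ≤ m1) (hC : 1 < C)
    (hlt : (m1 : ℝ) < C ^ (n1 - 1)) : ∃ θ : ℝ, 1 ≤ θ ∧ θ < C ∧ θ ^ (n1 - 1) = m1 := by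
  have hn : n1 - 1 ≠ 0 := by omega
  have hm' : (1 : ℝ) ≤ (m1 : ℝ) := by exact_mod_cast hm
  refine ⟨(m1 : ℝ) ^ (((n1 - 1 : ℕ) : ℝ)⁻¹), ?_, ?_, ?_⟩
  · exact Real.one_le_rpow hm' (by positivity)
  · have h3 : ((m1 : ℝ) ^ (((n1 - 1 : ℕ) : ℝ)⁻¹)) ^ (n1 - 1) = m1 :=
      Real.rpow_inv_natCast_pow (by positivity) hn
    by_contra hcon
    push Not at hcon
    have h4 : C ^ (n1 - 1) ≤ ((m1 : ℝ) ^ (((n1 - 1 : ℕ) : ℝ)⁻¹)) ^ (n1 - 1) :=
      pow_le_pow_left₀ (by linarith) hcon _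
    rw [h3] at h4
    linarith
  · exact Real.rpow_inv_natCast_pow (by positivity) hn

private lemma start_aux (n1 : ℕ) (h2 : 2 ≤ n1) : ∃ j ms : ℕ, 1 ≤ ms ∧ ms % n1 = 1 ∧
    Att (n1 ^ j) ms ∧ Att (n1 ^ j) (ms + 1) := by
  have he : Real.exp 1 < 3 := by
    have := Real.exp_one_lt_d9
    linarith
  obtain ⟨n0, h0⟩ := edge_spectrum 5 3 (by norm_num) he
  have hs1 : n0 + 30 < n1 ^ (n0 + 30) := Nat.lt_pow_self (by omega)
  have hs2 : n1 ≤ n1 ^ (n0 + 30) := Nat.le_self_pow (by omega) n1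
  set s := n1 ^ (n0 + 30) with hs
  obtain ⟨t, ht, htm⟩ : ∃ t, t < n1 ∧ (5 ^ s + t) % n1 = 1 := by
    refine ⟨(1 + (n1 - 1) * 5 ^ s) % n1, Nat.mod_lt _ (by omega), ?_⟩
    have h5 : (5 ^ s + (1 + (n1 - 1) * 5 ^ s) % n1) ≡ 1 [MOD n1] := by
      have e1 : (5 ^ s + (1 + (n1 - 1) * 5 ^ s) % n1) ≡ 5 ^ s + (1 + (n1 - 1) * 5 ^ s) [MOD n1] :=
        Nat.ModEq.add_left _ (Nat.mod_modEq _ _)
      have e2 : 5 ^ s + (1 + (n1 - 1) * 5 ^ s) = 1 + n1 * 5 ^ s := by
        obtain ⟨u, rfl⟩ : ∃ u, n1 = u + 1 := ⟨n1 - 1, by omega⟩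
        simp only [Nat.add_sub_cancel]
        ring
      rw [e2] at e1
      have e3 : 1 + n1 * 5 ^ s ≡ 1 [MOD n1] := by
        have := (Nat.modEq_zero_iff_dvd.2 (Dvd.intro (5 ^ s) rfl : n1 ∣ n1 * 5 ^ s))
        exact Nat.ModEq.add_left 1 this
      exact e1.trans e3
    have h6 : 1 % n1 = 1 := Nat.mod_eq_of_lt (by omega)
    unfold Nat.ModEq at h5
    rw [h6] at h5
    exact h5
  have hbig : ((5 ^ s + t + 1 : ℕ) : ℝ) ≤ ((s : ℝ) / 3) ^ s := by
    have hs30 : (10 : ℝ) ≤ (s : ℝ) / 3 := by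
      have : (30 : ℝ) ≤ (s : ℝ) := by exact_mod_cast (by omega : 30 ≤ s)
      linarith
    have h10 : (10 : ℝ) ^ s ≤ ((s : ℝ) / 3) ^ s := pow_le_pow_left₀ (by norm_num) hs30 s
    have hnat : 5 ^ s + t + 1 ≤ 10 ^ s := by
      have e1 : (10 : ℕ) ^ s = 2 ^ s * 5 ^ s := by
        rw [show (10 : ℕ) = 2 * 5 from rfl, mul_pow]
      have e2 : 2 ≤ 2 ^ s := by
        calc 2 = 2 ^ 1 := rfl
          _ ≤ 2 ^ s := Nat.pow_le_pow_right (by norm_num) (by omega)
      have e3 : s < 5 ^ s := Nat.lt_pow_self (by norm_num)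
      have e4 : 2 * 5 ^ s ≤ 2 ^ s * 5 ^ s := Nat.mul_le_mul_right _ e2
      omega
    have hreal : ((5 ^ s + t + 1 : ℕ) : ℝ) ≤ (10 : ℝ) ^ s := by exact_mod_cast hnat
    linarith
  refine ⟨n0 + 30, 5 ^ s + t, ?_, htm, ?_, ?_⟩
  · have : 1 ≤ 5 ^ s := Nat.one_le_pow _ _ (by norm_num)
    omega
  · apply h0 s (by omega)
    · push_cast
      have : (0 : ℝ) ≤ (t : ℝ) := by positivity
      linarith
    · refine le_trans ?_ hbig
      exact_mod_cast Nat.le_succ _
  · apply h0 s (by omega)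
    · push_cast
      have : (0 : ℝ) ≤ (t : ℝ) := by positivity
      linarith
    · exact hbig

private lemma choose_r (n1 a s n : ℕ) (h2 : 2 ≤ n1) (ha : 1 ≤ a) (hs : 1 ≤ s)
    (hn : a * (s * n1) ^ 2 ≤ n) : ∃ r : ℕ, 1 ≤ r ∧ a * (s * n1 ^ r) ^ 2 ≤ n ∧
      n < a * n1 ^ 2 * (s * n1 ^ r) ^ 2 := by
  classical
  have hex : ∃ r : ℕ, n < a * (s * n1 ^ (r + 1)) ^ 2 := by
    refine ⟨n, ?_⟩
    have h1 : n + 1 < n1 ^ (n + 1) := Nat.lt_pow_self (by omega)
    have h3 : n1 ^ (n + 1) ≤ s * n1 ^ (n + 1) := Nat.le_mul_of_pos_left _ (by omega)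
    have h4 : s * n1 ^ (n + 1) ≤ (s * n1 ^ (n + 1)) ^ 2 := Nat.le_self_pow (by norm_num) _
    have h5 : (s * n1 ^ (n + 1)) ^ 2 ≤ a * (s * n1 ^ (n + 1)) ^ 2 :=
      Nat.le_mul_of_pos_left _ (by omega)
    omega
  have hr := Nat.find_spec hex
  have hmin := fun m (hm : m < Nat.find hex) => Nat.find_min hex hm
  set r := Nat.find hex with hrdef
  have hr1 : 1 ≤ r := by
    by_contra hcon
    have : r = 0 := by omega
    rw [this] at hr
    simp only [zero_add, pow_one] at hr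
    omega
  refine ⟨r, hr1, ?_, ?_⟩
  · have h := hmin (r - 1) (by omega)
    rw [show r - 1 + 1 = r by omega] at h
    omega
  · calc n < a * (s * n1 ^ (r + 1)) ^ 2 := hr
      _ = _ := by ring

theorem low_step (C : ℝ) (hC : 1 < C) (n1 m1 : ℕ) (h2 : 2 ≤ n1) (hA : Att n1 m1)
    (hlt : (m1 : ℝ) < C ^ (n1 - 1)) : ∃ n0 : ℕ, ∀ n ≥ n0, ∃ D Q w : ℕ, 0 < w ∧ 4 * w ≤ n ∧
      0 < D ∧ (2 * D : ℝ) ≤ C ^ (2 * w) ∧ (2 * Q : ℝ) ≤ C ^ n ∧
      ∀ N ≥ Q, ∃ M : ℕ, D * M ≤ N ∧ N ≤ D * M + Q ∧ (Att (n - 2 * w) M → Att n N) := by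
  obtain ⟨n2, m2, h2', heven, hmod, hA', hlt'⟩ := normalize C hC n1 m1 h2 hA hlt
  clear hlt hA h2 m1 n1
  have hm2 : 1 ≤ m2 := by
    by_contra hcon
    have : m2 = 0 := by omega
    rw [this, Nat.zero_mod] at hmod
    omega
  obtain ⟨θ, hθ1, hθC, hθ⟩ := root_aux C n2 m2 h2' hm2 hC hlt'
  obtain ⟨j, ms, hms, hmsmod, hAs, hAs1⟩ := start_aux n2 h2'
  obtain ⟨a, ha⟩ := pow_unbounded_of_one_lt (θ ^ 2) (by norm_num : (1 : ℝ) < 2)
  have ha1 : 1 ≤ a := by
    rcases Nat.eq_zero_or_pos a with h | h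
    · exfalso
      rw [h, pow_zero] at ha
      nlinarith
    · exact h
  set s := n2 ^ j with hs
  have hs1 : 1 ≤ s := Nat.one_le_pow _ _ (by omega)
  set G := ms * m2 with hG
  have hG1 : 1 ≤ G := Nat.mul_pos hms hm2
  have hcms : Nat.Coprime n2 ms := by
    rw [Nat.Coprime, Nat.gcd_rec, hmsmod, Nat.gcd_one_left]
  have hcm2 : Nat.Coprime n2 m2 := by
    rw [Nat.Coprime, Nat.gcd_rec, hmod, Nat.gcd_one_left]
  have hcG : Nat.Coprime n2 G := Nat.Coprime.mul_right hcms hcm2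
  obtain ⟨w0, hw0⟩ := low_ineq θ C hθ1 hθC a (a * n2 ^ 2) (n2 * G + 1) ms ha hms
  set W0 := max w0 (n2 * G + 3) with hW0
  refine ⟨max (a * (s * n2) ^ 2) (a * n2 ^ 2 * W0 ^ 2), fun n hn => ?_⟩
  have hna : a * (s * n2) ^ 2 ≤ n := le_trans (le_max_left _ _) hn
  have hnb : a * n2 ^ 2 * W0 ^ 2 ≤ n := le_trans (le_max_right _ _) hn
  obtain ⟨r, hr1, hr2, hr3⟩ := choose_r n2 a s n h2' ha1 hs1 hna
  set w := s * n2 ^ r with hw
  have hwW : W0 ≤ w := by
    by_contra hcon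
    push Not at hcon
    have h1 : w ^ 2 ≤ W0 ^ 2 := Nat.pow_le_pow_left hcon.le 2
    have h3 : a * n2 ^ 2 * w ^ 2 ≤ a * n2 ^ 2 * W0 ^ 2 := Nat.mul_le_mul_left _ h1
    omega
  have hww0 : w0 ≤ w := le_trans (le_max_left _ _) hwW
  have hwG3 : n2 * G + 3 ≤ w := le_trans (le_max_right _ _) hwW
  have hw1 : 1 ≤ w := by omega
  have hwpow : w = n2 ^ (j + r) := by rw [hw, hs, pow_add]
  have hn2w : n2 ∣ w := by
    rw [hwpow]
    exact dvd_pow_self n2 (by omega)
  have hcwG : Nat.Coprime w G := by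
    rw [hwpow]
    exact Nat.Coprime.pow_left _ hcG
  have hnw : (n2 * G + 3) * w ≤ n := by
    calc (n2 * G + 3) * w ≤ w * w := Nat.mul_le_mul_right _ hwG3
      _ = 1 * w ^ 2 := by ring
      _ ≤ a * w ^ 2 := Nat.mul_le_mul_right _ ha1
      _ ≤ n := hr2
  obtain ⟨k, b, hn', hb1, hb2, hk, hbG⟩ := choose_kb n2 G w n h2' hG1 hw1 hn2w hcwG hnw
  -- the clique on the powers
  set S := ∑ i ∈ range r, n2 ^ i with hS
  set Mr := m2 ^ S with hMr
  have hAr : Att (n2 ^ r) Mr := att_pow n2 m2 hA' r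
  have hMr1 : 1 ≤ Mr := Nat.one_le_pow _ _ hm2
  have hgeo : S * (n2 - 1) + 1 = n2 ^ r := geom_aux n2 h2' r
  have hMrθ : (Mr : ℝ) ≤ θ ^ (n2 ^ r) := by
    rw [hMr]
    push_cast
    rw [← hθ, ← pow_mul]
    apply pow_le_pow_right₀ hθ1
    rw [← hgeo, mul_comm]
    omega
  set d := Mr ^ s with hd
  set M := ms * Mr ^ s with hM
  have hd1 : 1 ≤ d := Nat.one_le_pow _ _ hMr1
  have hMd : d ≤ M := Nat.le_mul_of_pos_left _ hms
  have hAM : Att w M := att_mul hAs hAr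
  have hAMd : Att w (M + d) := by
    have h := att_mul hAs1 hAr
    have e : (ms + 1) * Mr ^ s = M + d := by rw [hM, hd]; ring
    rw [e] at h
    exact h
  have hMθ : (M : ℝ) ≤ ms * θ ^ w := by
    rw [hM]
    push_cast
    apply mul_le_mul_of_nonneg_left _ (by positivity)
    calc (Mr : ℝ) ^ s ≤ (θ ^ (n2 ^ r)) ^ s := pow_le_pow_left₀ (by positivity) hMrθ s
      _ = θ ^ w := by rw [← pow_mul, hw, mul_comm]
  have hMmod : M % n2 = 1 := by
    have e1 : ms ≡ 1 [MOD n2] := by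
      unfold Nat.ModEq
      rw [hmsmod, Nat.mod_eq_of_lt (by omega)]
    have e2 : m2 ≡ 1 [MOD n2] := by
      unfold Nat.ModEq
      rw [hmod, Nat.mod_eq_of_lt (by omega)]
    have e3 : Mr ≡ 1 [MOD n2] := by
      have := e2.pow S
      rwa [one_pow] at this
    have e4 : Mr ^ s ≡ 1 [MOD n2] := by
      have := e3.pow s
      rwa [one_pow] at this
    have e5 : M ≡ 1 [MOD n2] := by
      have := e1.mul e4
      rwa [one_mul] at this
    unfold Nat.ModEq at e5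
    rwa [Nat.mod_eq_of_lt (by omega : 1 < n2)] at e5
  have hprime : ∀ p : ℕ, p.Prime → p ∣ 2 * M * w * d → p ∣ n2 ∨ (p ∣ G ∧ p ∣ M) := by
    intro p hp hdvd
    have hfromMr : p ∣ Mr → p ∣ G := by
      intro h
      have h3 : p ∣ m2 := hp.dvd_of_dvd_pow h
      exact Dvd.dvd.mul_left h3 ms
    have hfromd : p ∣ d → p ∣ n2 ∨ (p ∣ G ∧ p ∣ M) := by
      intro h
      refine Or.inr ⟨hfromMr (hp.dvd_of_dvd_pow h), ?_⟩
      rw [hM]
      exact Dvd.dvd.mul_left h ms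
    rcases (hp.dvd_mul).1 hdvd with h | h
    · rcases (hp.dvd_mul).1 h with h | h
      · rcases (hp.dvd_mul).1 h with h | h
        · left
          have h4 : p = 2 := (Nat.prime_dvd_prime_iff_eq hp Nat.prime_two).1 h
          rw [h4]
          exact heven.two_dvd
        · right
          refine ⟨?_, h⟩
          rw [hM] at h
          rcases (hp.dvd_mul).1 h with h | h
          · exact Dvd.dvd.mul_right h m2
          · exact hfromMr (hp.dvd_of_dvd_pow h)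
      · left
        rw [hwpow] at h
        exact hp.dvd_of_dvd_pow h
    · exact hfromd h
  have hcop := coprime_gd n2 G M w d k b n h2' hMmod hn2w hn' hk hbG hprime
  obtain ⟨hi1, hi2, hi3⟩ := hw0 w n k b M d hww0 hr2 hr3.le hn' hb2 hMθ hMd
  have hcore := low_core k w b M d hw1 hb1 hAM hAMd hcop hi1
  have hD : 0 < GD k b M := by
    unfold GD
    have : 0 < (M + b) ^ 2 := by positivity
    omega
  refine ⟨GD k b M, 2 * M ^ (k + 1) * w ^ b * d * GD k b M +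
        2 ^ k * w ^ b * M ^ (k + 1) * ((k + 4) * M + 2 * b), w, hw1, ?_, hD, hi2, ?_, ?_⟩
  · have h5 : 4 * w ≤ (n2 * G + 3) * w := by
      apply Nat.mul_le_mul_right
      have : 1 ≤ n2 * G := Nat.mul_pos (by omega) hG1
      omega
    omega
  · exact_mod_cast hi3
  · intro N hN
    obtain ⟨mx, hx1, hx2, hx3⟩ := hcore N hN
    refine ⟨mx, hx1, hx2, fun hatt => ?_⟩
    have e1 : n - 2 * w = k * w + b := by
      rw [hn']
      have : (k + 2) * w + b = k * w + b + 2 * w := by ring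
      omega
    rw [e1] at hatt
    have := hx3 hatt
    rw [← hn'] at this
    exact this

end Pool.Agent.Lib.MP_87840f_co.Spec
end

section

/-!
# MP_87840f_co, edge spectrum, GS11: the edge spectrum down to the best exponential base

Choose C1 < C with m1 < C1^(n1-1), C1 > 1. K so large that K C1^n ≥ 5^n below a threshold. Strong
induction: every N with K C1^n ≤ N ≤ (n/c)^n is attained: N ≥ 5^n by edge_spectrum; otherwise low_step.
-/

open Finset Filter Topology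

namespace Pool.Agent.Lib.MP_87840f_co.Spec

private theorem choose_base (C : ℝ) (hC : 1 < C) (n1 m1 : ℕ) (hlt : (m1 : ℝ) < C ^ (n1 - 1)) :
    ∃ C1 : ℝ, 1 < C1 ∧ C1 < C ∧ (m1 : ℝ) < C1 ^ (n1 - 1) := by
  have h1 : ∀ᶠ x in 𝓝 C, (m1 : ℝ) < x ^ (n1 - 1) :=
    (continuous_pow (n1 - 1)).continuousAt.eventually (lt_mem_nhds hlt)
  have h2 : ∀ᶠ x in 𝓝 C, (1 : ℝ) < x := lt_mem_nhds hC
  have h3 : ∀ᶠ x in 𝓝[<] C, x < C := self_mem_nhdsWithin
  obtain ⟨x, hx1, hx2, hx3⟩ :=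
    ((h1.filter_mono nhdsWithin_le_nhds).and ((h2.filter_mono nhdsWithin_le_nhds).and h3)).exists
  exact ⟨x, hx2, hx3, hx1⟩

theorem edge_spectrum_low (C c : ℝ) (hC : 1 < C) (hc : Real.exp 1 < c) (n1 m1 : ℕ) (h2 : 2 ≤ n1)
    (hA : Att n1 m1) (hlt : (m1 : ℝ) < C ^ (n1 - 1)) : ∃ n0 : ℕ, ∀ n ≥ n0,
    ∀ m : ℕ, C ^ n ≤ m → (m : ℝ) ≤ ((n : ℝ) / c) ^ n → Att n m := by
  have hc0 : 0 < c := lt_trans (Real.exp_pos 1) hc
  obtain ⟨C1, hC1, hC1C, hlt1⟩ := choose_base C hC n1 m1 hlt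
  obtain ⟨na, hna⟩ := edge_spectrum 5 c (by norm_num) hc
  obtain ⟨nb, hnb⟩ := low_step C1 hC1 n1 m1 h2 hA hlt1
  set T := max (max na nb) (max 1 ⌈50 * c⌉₊) with hT
  set K : ℝ := 5 ^ (2 * T) with hK
  have hK1 : 1 ≤ K := one_le_pow₀ (by norm_num)
  have hC10 : 0 < C1 := by linarith
  have key : ∀ n, T ≤ n → ∀ N : ℕ, K * C1 ^ n ≤ N → (N : ℝ) ≤ ((n : ℝ) / c) ^ n → Att n N := by
    intro n
    induction n using Nat.strong_induction_on with
    | _ n ih =>
      intro hn N hN1 hN2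
      have hna' : na ≤ n := le_trans (le_trans (le_max_left _ _) (le_max_left _ _)) hn
      have hnb' : nb ≤ n := le_trans (le_trans (le_max_right _ _) (le_max_left _ _)) hn
      by_cases h5 : (5 : ℝ) ^ n ≤ N
      · exact hna n hna' N h5 hN2
      · push Not at h5
        have hC1n : (1 : ℝ) ≤ C1 ^ n := one_le_pow₀ hC1.le
        have hnT : 2 * T ≤ n := by
          by_contra hcon
          push Not at hcon
          have h6 : (5 : ℝ) ^ n ≤ K := pow_le_pow_right₀ (by norm_num) hcon.le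
          have h7 : K ≤ K * C1 ^ n := le_mul_of_one_le_right (by positivity) hC1n
          linarith
        obtain ⟨D, Q, w, hw0, hwn, hD0, hD, hQ, hstep⟩ := hnb n hnb'
        have hCN : C1 ^ n ≤ N := le_trans (le_mul_of_one_le_left (by positivity) hK1) hN1
        have hQN : (Q : ℝ) ≤ N / 2 := by linarith
        have hQN' : Q ≤ N := by
          have hN0 : (0 : ℝ) ≤ N := by positivity
          have : (Q : ℝ) ≤ N := by linarith
          exact_mod_cast this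
        obtain ⟨M, hM1, hM2, hM3⟩ := hstep N hQN'
        apply hM3
        have hD0' : (0 : ℝ) < D := by exact_mod_cast hD0
        have hD1' : (1 : ℝ) ≤ D := by exact_mod_cast hD0
        have hM1' : (D : ℝ) * M ≤ N := by exact_mod_cast hM1
        have hM2' : (N : ℝ) ≤ D * M + Q := by exact_mod_cast hM2
        have hT1 : 1 ≤ T := le_trans (le_max_left _ _) (le_max_right _ _)
        have hTc : 50 * c ≤ T := by
          calc 50 * c ≤ (⌈50 * c⌉₊ : ℝ) := Nat.le_ceil _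
            _ ≤ T := by exact_mod_cast le_trans (le_max_right _ _) (le_max_right _ _)
        have hhalf : n ≤ 2 * (n - 2 * w) := by omega
        apply ih (n - 2 * w) (by omega) (by omega) M
        · have h8 : C1 ^ n = C1 ^ (n - 2 * w) * C1 ^ (2 * w) := by
            rw [← pow_add]
            congr 1
            omega
          have h9 : K * C1 ^ (n - 2 * w) * (2 * D) ≤ N := by
            calc K * C1 ^ (n - 2 * w) * (2 * D) ≤ K * C1 ^ (n - 2 * w) * C1 ^ (2 * w) :=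
                  mul_le_mul_of_nonneg_left hD (by positivity)
              _ = K * C1 ^ n := by rw [h8]; ring
              _ ≤ N := hN1
          have h10 : (D : ℝ) * (K * C1 ^ (n - 2 * w)) ≤ D * M := by linarith
          exact le_of_mul_le_mul_left h10 hD0'
        · have h11 : (M : ℝ) ≤ 5 ^ n := by
            have hM0 : (0 : ℝ) ≤ M := by positivity
            nlinarith
          refine le_trans h11 ?_
          have h12 : (25 : ℝ) ≤ ((n - 2 * w : ℕ) : ℝ) / c := by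
            rw [le_div_iff₀ hc0]
            have h13 : (T : ℝ) ≤ ((n - 2 * w : ℕ) : ℝ) := by
              exact_mod_cast (by omega : T ≤ n - 2 * w)
            linarith
          calc (5 : ℝ) ^ n ≤ 5 ^ (2 * (n - 2 * w)) := pow_le_pow_right₀ (by norm_num) hhalf
            _ = 25 ^ (n - 2 * w) := by rw [pow_mul]; norm_num
            _ ≤ _ := pow_le_pow_left₀ (by norm_num) h12 _
  have h5 : Tendsto (fun n : ℕ => (C / C1) ^ n) atTop atTop :=
    tendsto_pow_atTop_atTop_of_one_lt (by rw [lt_div_iff₀ hC10]; linarith)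
  obtain ⟨n5, h5'⟩ := eventually_atTop.1 (h5.eventually_ge_atTop K)
  refine ⟨max T n5, fun n hn m hm1 hm2 => key n (le_trans (le_max_left _ _) hn) m ?_ hm2⟩
  have h6 := h5' n (le_trans (le_max_right _ _) hn)
  have h7 : K * C1 ^ n ≤ C ^ n := by
    calc K * C1 ^ n ≤ (C / C1) ^ n * C1 ^ n := mul_le_mul_of_nonneg_right h6 (by positivity)
      _ = C ^ n := by rw [← mul_pow]; congr 1; field_simp
  exact le_trans h7 hm1

end Pool.Agent.Lib.MP_87840f_co.Spec
end

section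

/-!
# MP_87840f_co, edge spectrum: the final theorem

θ is the infimum of m^(1/(k-1)) over all k ≥ 2 and all attained numbers m of edges of k-uniform
3-chromatic cliques. All attained numbers are at least θ^(n-1), and for C > θ, c > e and large n all
integers in [C^n, (n/c)^n] are attained.
-/

open Finset

namespace Pool.Agent.Lib.MP_87840f_co.Spec

/-- all the numbers `m^(1/(k-1))` for attained `m` -/
private def TS : Set ℝ :=
  {x : ℝ | ∃ k m : ℕ, 2 ≤ k ∧ Att k m ∧ x = (m : ℝ) ^ (1 / ((k : ℝ) - 1))}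

private theorem ts_pow_root {k m : ℕ} (hk : 2 ≤ k) :
    ((m : ℝ) ^ (1 / ((k : ℝ) - 1))) ^ (k - 1) = m := by
  have h1 : (((k - 1 : ℕ)) : ℝ) = (k : ℝ) - 1 := by
    rw [Nat.cast_sub (by omega)]
    simp
  have h2 : ((k - 1 : ℕ) : ℝ) ≠ 0 := by
    have : 0 < k - 1 := by omega
    positivity
  rw [← h1, ← Real.rpow_natCast, ← Real.rpow_mul (by positivity), one_div,
    inv_mul_cancel₀ h2, Real.rpow_one]

private theorem ts_two_le {x : ℝ} (hx : x ∈ TS) : 2 ≤ x := by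
  obtain ⟨k, m, hk, hA, rfl⟩ := hx
  by_contra hcon
  push Not at hcon
  have h1 := le_att hA
  have h2 : ((2 : ℝ)) ^ (k - 1) ≤ m := by exact_mod_cast h1
  have h3 : ((m : ℝ) ^ (1 / ((k : ℝ) - 1))) ^ (k - 1) < 2 ^ (k - 1) :=
    pow_lt_pow_left₀ hcon (by positivity) (by omega)
  rw [ts_pow_root hk] at h3
  linarith

theorem edge_spectrum_theta : ∃ θ : ℝ, 2 ≤ θ ∧ θ ≤ Real.sqrt 7 ∧
    (∀ n : ℕ, 2 ≤ n → ∀ F : Finset (Finset ℕ), IsThreeChromaticClique n F →
      θ ^ (n - 1) ≤ (F.card : ℝ)) ∧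
    ∀ C c : ℝ, θ < C → Real.exp 1 < c → ∃ n₀ : ℕ, ∀ n : ℕ, n₀ ≤ n → ∀ m : ℕ,
      C ^ n ≤ (m : ℝ) → (m : ℝ) ≤ ((n : ℝ) / c) ^ n →
        ∃ F : Finset (Finset ℕ), IsThreeChromaticClique n F ∧ F.card = m := by
  have hne : TS.Nonempty := ⟨_, 2, _, le_rfl, att_threshold 2 (by norm_num), rfl⟩
  have hbd : BddBelow TS := ⟨2, fun x hx => ts_two_le hx⟩
  have h2 : 2 ≤ sInf TS := le_csInf hne fun x hx => ts_two_le hx
  refine ⟨sInf TS, h2, ?_, ?_, ?_⟩
  · refine csInf_le hbd ⟨3, 7, by norm_num, att_fano, ?_⟩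
    rw [Real.sqrt_eq_rpow]
    norm_num
  · intro n hn F hF
    have h3 : sInf TS ≤ (F.card : ℝ) ^ (1 / ((n : ℝ) - 1)) :=
      csInf_le hbd ⟨n, F.card, hn, ⟨F, hF.1, hF.2.2, rfl⟩, rfl⟩
    rw [← ts_pow_root (m := F.card) hn]
    exact pow_le_pow_left₀ (by linarith) h3 _
  · intro C c hC hc
    obtain ⟨x, ⟨n1, m1, hn1, hA1, rfl⟩, hx⟩ := exists_lt_of_csInf_lt hne hC
    have hlt : (m1 : ℝ) < C ^ (n1 - 1) := by
      rw [← ts_pow_root (m := m1) hn1]
      exact pow_lt_pow_left₀ hx (by positivity) (by omega)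
    obtain ⟨n0, h⟩ := edge_spectrum_low C c (by linarith) hc n1 m1 hn1 hA1 hlt
    exact ⟨max n0 2, fun n hn m hm1 hm2 => att_three (le_trans (le_max_right _ _) hn)
      (h n (le_trans (le_max_left _ _) hn) m hm1 hm2)⟩

end Pool.Agent.Lib.MP_87840f_co.Spec
end
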